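import Pool.Agent.Helper37.KW.St

/-!
# Project DE (MP_93aa28_lc): codes of bounded defect (definitions)
-/

set_option autoImplicit false

namespace Pool.Agent.Helper37.DE

open Pool.Agent.Helper31.BD Pool.Agent.Helper84.LD Pool.Agent.Helper37.KW

/-- the submonoid generated by `C` -/
def Mon (C : Finset (List ℕ)) : Set (List ℕ) := {y | ∃ l : List (List ℕ), Over C l ∧ y = l.flatten}

/-- the set `C* U` -/
def Rs (C U : Finset (List ℕ)) : Set (List ℕ) := {z | ∃ y ∈ Mon C, ∃ u ∈ U, z = y ++ u}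

/-- the two words `w, w'` and the two finite sets `T, U` witness that the defect is at most `d`:
between `w` and `w'` every word `z` of length at least `d` that is possible in `L` is uniquely `t y u` with
`t ∈ T`, `y ∈ C*`, `u ∈ U` -/
structure Wit (L : Set (List ℕ)) (C : Finset (List ℕ)) (d : ℕ) (w w' : List ℕ)
    (T U : Finset (List ℕ)) : Prop where
  nilT : [] ∈ T
  lenT : ∀ t ∈ T, t.length ≤ d
  neU : U.Nonempty
  eq : ∀ z : List ℕ, d ≤ z.length →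
    (w ++ z ++ w' ∈ L ↔ ∃ t ∈ T, ∃ y ∈ Mon C, ∃ u ∈ U, z = t ++ y ++ u)
  un : ∀ t ∈ T, ∀ y ∈ Mon C, ∀ u ∈ U, ∀ t' ∈ T, ∀ y' ∈ Mon C, ∀ u' ∈ U,
    d ≤ (t ++ y ++ u).length → t ++ y ++ u = t' ++ y' ++ u' → t = t' ∧ y = y' ∧ u = u'

/-- the defect of `C` is at most `d` -/
def Dfc (C : Finset (List ℕ)) (d : ℕ) : Prop :=
  ∃ (w w' : List ℕ) (T U : Finset (List ℕ)), Wit (Fac C) C d w w' T U

/-- `R` is the disjoint union of `U` and the sets `c R`, `c ∈ C` -/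
structure Dec (C U : Finset (List ℕ)) (R : Set (List ℕ)) : Prop where
  mem : ∀ z, z ∈ R ↔ z ∈ U ∨ ∃ c ∈ C, ∃ r ∈ R, z = c ++ r
  dis : ∀ c ∈ C, ∀ r ∈ R, c ++ r ∉ U
  inj : ∀ c ∈ C, ∀ r ∈ R, ∀ c' ∈ C, ∀ r' ∈ R, c ++ r = c' ++ r' → c = c'

/-- `G` is the disjoint union of a finite set `V` and sets `e R`, all words of length `< k` -/
def Til (R : Set (List ℕ)) (k : ℕ) (G : Set (List ℕ)) : Prop :=
  ∃ E V : Finset (List ℕ), (∀ e ∈ E, e.length < k) ∧ (∀ v ∈ V, v.length < k) ∧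
    (∀ z, z ∈ G ↔ z ∈ V ∨ ∃ e ∈ E, ∃ r ∈ R, z = e ++ r) ∧ (∀ e ∈ E, ∀ r ∈ R, e ++ r ∉ V) ∧
    ∀ e ∈ E, ∀ r ∈ R, ∀ e' ∈ E, ∀ r' ∈ R, e ++ r = e' ++ r' → e = e'

/-- rank at most `k` in the one player game -/
def Rk (R : Set (List ℕ)) (n : ℕ) : ℕ → Set (List ℕ) → Prop
  | 0, G => G = ∅
  | k + 1, G => (∀ a < n, Rk R n k {y | a :: y ∈ G}) ∨
      (R ⊆ G ∧ ∀ a < n, Rk R n k {y | a :: y ∈ G ∧ a :: y ∉ R})

/-- closed under equality of right quotients of `R` -/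
def Clo (R G : Set (List ℕ)) : Prop :=
  ∀ y y' : List ℕ, (∀ v : List ℕ, v ++ y ∈ R ↔ v ++ y' ∈ R) → y ∈ G → y' ∈ G

/-! ### the decision procedure -/

/-- decidable form of `z ∈ t C* u` -/
def LngX (C : List (List ℕ)) (t u z : List ℕ) : Prop :=
  ∃ j < z.length + 1, ∃ l ∈ pw C j, z = t ++ l.flatten ++ u

/-- the condition for one word `z` -/
def Phi (x : Inp) (C : List (List ℕ)) (w w' : List ℕ) (T U : List (List ℕ)) (z : List ℕ) : Prop :=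
  (w ++ z ++ w' ∈ LX x ↔ ∃ t ∈ T, ∃ u ∈ U, LngX C t u z) ∧
    ∀ t ∈ T, ∀ u ∈ U, ∀ t' ∈ T, ∀ u' ∈ U, LngX C t u z → LngX C t' u' z → t = t' ∧ u = u'

/-- bound for the length of a word that violates `Phi` -/
def B3 (x : Inp) (d : ℕ) (C T U : List (List ℕ)) : ℕ :=
  d + (NN x + d + 2 + 2 ^ (D0 C) * 2 ^ (D0 U + 1)) ^ (T.length * U.length + 1)

/-- bounded test -/
def TST (x : Inp) (d : ℕ) (C : List (List ℕ)) (w w' : List ℕ) (T U : List (List ℕ)) : Prop :=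
  ∀ z ∈ wdLe x.1 (B3 x d C T U), d < z.length + 1 → Phi x C w w' T U z

/-- bound for the code words -/
def B2 (x : Inp) (d : ℕ) : ℕ := 2 ^ (2 ^ ((wdLe x.1 d).length + NN x))

/-- the test for one candidate -/
def CT (x : Inp) (d : ℕ) (C : List (List ℕ)) (w w' : List ℕ) (T U : List (List ℕ)) : Prop :=
  [] ∈ T ∧ U ≠ [] ∧ [] ∉ C ∧ UDX C ∧ (∀ s ∈ wdLe x.1 (KK x C), (s ∈ LX x ↔ FacX C s)) ∧
    TST x d C w w' T U

/-- the decision procedure as a predicate -/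
def PX2 (x : Inp) (d : ℕ) : Prop :=
  ∃ w ∈ wdLe (x.1 + 1) (NN x), ∃ w' ∈ wdLe (x.1 + 1) (2 ^ NN x), ∃ T ∈ subs (wdLe x.1 d),
    ∃ U ∈ subs (wdLe x.1 (B2 x d)), ∃ C ∈ subs (wdLe x.1 (B2 x d)), CT x d C w w' T U

/-- some finite code of defect at most `d` generates -/
def GenD (L : Set (List ℕ)) (d : ℕ) : Prop :=
  ∃ C : Finset (List ℕ), UD C ∧ Dfc C d ∧ L = Fac C

/-! ### the flower automaton -/

/-- states: the cut ` ([],[])` and the interior positions of code words -/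
def Sta (C : Finset (List ℕ)) (q : List ℕ × List ℕ) : Prop :=
  q = ([], []) ∨ (q.1 ≠ [] ∧ q.2 ≠ [] ∧ q.1 ++ q.2 ∈ C)

/-- there is a path with label `z` from `q` to `q'` -/
def Pth (C : Finset (List ℕ)) (z : List ℕ) (q q' : List ℕ × List ℕ) : Prop :=
  (∃ y ∈ Mon C, z = q.2 ++ y ++ q'.1) ∨ (q.1 ≠ [] ∧ q'.2 ≠ [] ∧ q'.1 = q.1 ++ z ∧ q.2 = z ++ q'.2)

/-- the relation of `z` on the states -/
def rho (C : Finset (List ℕ)) (z : List ℕ) : Set ((List ℕ × List ℕ) × (List ℕ × List ℕ)) :=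
  {p | Sta C p.1 ∧ Sta C p.2 ∧ Pth C z p.1 p.2}

end Pool.Agent.Helper37.DE
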