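import Pool.Agent.Helper37.DE.St

/-!
# Project DE, module B: every finite code has finite defect (Theorem B)
-/

set_option autoImplicit false

namespace Pool.Agent.Helper37.DE

open Pool.Agent.Helper31.BD Pool.Agent.Helper84.LD Pool.Agent.Helper37.KW

theorem B_fin (C : Finset (List ℕ)) : {q : List ℕ × List ℕ | Sta C q}.Finite := by
  have h : {q : List ℕ × List ℕ | Sta C q} ⊆
      (insert (([], []) : List ℕ × List ℕ)
        (((C.biUnion fun c => ((List.range (c.length + 1)).map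
          fun k => ((c.take k, c.drop k) : List ℕ × List ℕ)).toFinset) :
            Finset (List ℕ × List ℕ)) : Set (List ℕ × List ℕ))) := by
    rintro q (hq | ⟨_, _, hq⟩)
    · exact Or.inl hq
    · right
      simp only [Finset.coe_biUnion, Set.mem_iUnion, Finset.mem_coe, List.mem_toFinset,
        List.mem_map, List.mem_range]
      refine ⟨q.1 ++ q.2, hq, q.1.length, ?_, ?_⟩
      · simp only [List.length_append]; omega
      · simp
  exact Set.Finite.subset (Set.Finite.insert _ (Finset.finite_toSet _)) h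

theorem B_nil {C : Finset (List ℕ)} (h : UD C) : [] ∉ C := by
  intro h0
  have := h [[]] [] (by intro c hc; rw [List.mem_singleton] at hc; rw [hc]; exact h0)
    (over_nil C) rfl
  simp at this

theorem B_empty (d : ℕ) : Dfc ∅ d := by
  have hov : ∀ l : List (List ℕ), Over (∅ : Finset (List ℕ)) l → l = [] := by
    intro l hl
    cases l with
    | nil => rfl
    | cons c l => exact absurd (hl c (by simp)) (by simp)
  refine ⟨[], [], {[]}, {[]}, ⟨by simp, by simp, by simp, ?_, ?_⟩⟩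
  · intro z _
    simp only [List.nil_append, List.append_nil]
    constructor
    · rintro ⟨p, s, l, hl, he⟩
      rw [hov l hl] at he
      simp only [List.flatten_nil, List.append_eq_nil_iff] at he
      refine ⟨[], by simp, [], ⟨[], over_nil _, rfl⟩, [], by simp, ?_⟩
      simp [he.1.2]
    · rintro ⟨t, ht, y, ⟨l, hl, rfl⟩, u, hu, he⟩
      rw [Finset.mem_singleton] at ht hu
      rw [hov l hl, ht, hu] at he
      rw [he]
      exact nil_mem_Fac _
  · rintro t ht y ⟨l, hl, rfl⟩ u hu t' ht' y' ⟨l', hl', rfl⟩ u' hu' _ _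
    rw [Finset.mem_singleton] at ht hu ht' hu'
    rw [hov l hl, hov l' hl', ht, hu, ht', hu']
    exact ⟨rfl, rfl, rfl⟩

theorem hB (h1 : StFA) (h2 : StFC) (h3 : StFD) (h4 : StFE) : StB := by
  classical
  intro C hUD d hd
  rcases C.eq_empty_or_nonempty with h0 | hne
  · subst h0; exact B_empty d
  have hC := B_nil hUD
  obtain ⟨w, hw, hidem, hex⟩ := h3 C hne hC
  have hfe := h4 C hUD hC w hw hidem hex
  have h00 : ((([], []), ([], [])) : (List ℕ × List ℕ) × (List ℕ × List ℕ)) ∈ rho C w :=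
    ⟨Or.inl rfl, Or.inl rfl, Or.inl ⟨w, hw, by simp⟩⟩
  have hTf : {t : List ℕ | ∃ p, (([], []), p) ∈ rho C w ∧ t = p.2}.Finite := by
    refine Set.Finite.subset ((B_fin C).image Prod.snd) ?_
    rintro t ⟨p, hp, rfl⟩
    exact ⟨p, hp.2.1, rfl⟩
  have hUf : {u : List ℕ | ∃ q q1, (q, q1) ∈ rho C w ∧ u = q.1}.Finite := by
    refine Set.Finite.subset ((B_fin C).image Prod.fst) ?_
    rintro t ⟨q, q1, hp, rfl⟩
    exact ⟨q, hp.1, rfl⟩
  -- long words: the two forms agree
  have hlong : ∀ z : List ℕ, d ≤ z.length → ∀ p q : List ℕ × List ℕ, (p, q) ∈ rho C z →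
      ∃ y ∈ Mon C, z = p.2 ++ y ++ q.1 := by
    rintro z hz p q ⟨hp, hq, h | ⟨a1, a2, a3, a4⟩⟩
    · exact h
    · exfalso
      rcases hp with hp | ⟨_, _, hp⟩
      · simp only at hp a1
        rw [hp] at a1; exact a1 rfl
      · have h5 := hd _ hp
        simp only at a1 a4 h5
        rw [a4] at h5
        simp only [List.length_append] at h5
        have : 0 < p.1.length := List.length_pos_iff.2 a1
        omega
  have hread : ∀ z : List ℕ, ∀ p q q1 : List ℕ × List ℕ, (([], []), p) ∈ rho C w →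
      (p, q) ∈ rho C z → (q, q1) ∈ rho C w → w ++ z ++ w ∈ Fac C := by
    intro z p q q1 hp hpq hq
    have h5 : Pth C (w ++ z) ([], []) q :=
      (h1 C hC w z _ _ (Or.inl rfl) hpq.2.1).2 ⟨p, hpq.1, hp.2.2, hpq.2.2⟩
    have h6 : Pth C (w ++ z ++ w) ([], []) q1 :=
      (h1 C hC (w ++ z) w _ _ (Or.inl rfl) hq.2.1).2 ⟨q, hq.1, h5, hq.2.2⟩
    exact (h2 C hC _).2 ⟨(([], []), q1), Or.inl rfl, hq.2.1, h6⟩
  refine ⟨w, w, hTf.toFinset, hUf.toFinset, ⟨?_, ?_, ?_, ?_, ?_⟩⟩
  · rw [Set.Finite.mem_toFinset]; exact ⟨([], []), h00, rfl⟩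
  · intro t ht
    rw [Set.Finite.mem_toFinset] at ht
    obtain ⟨p, hp, rfl⟩ := ht
    rcases hp.2.1 with h | ⟨_, _, h⟩
    · simp only at h
      rw [h]; simp
    · have := hd _ h
      simp only [List.length_append] at this
      omega
  · refine ⟨[], ?_⟩
    rw [Set.Finite.mem_toFinset]; exact ⟨([], []), ([], []), h00, rfl⟩
  · intro z hz
    constructor
    · intro hzf
      obtain ⟨p, ⟨hp1, hp2, q1, hq1⟩, _⟩ := hfe z hzf
      obtain ⟨y, hy, he⟩ := hlong z hz p.1 p.2 hp2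
      refine ⟨p.1.2, ?_, y, hy, p.2.1, ?_, he⟩
      · rw [Set.Finite.mem_toFinset]; exact ⟨p.1, hp1, rfl⟩
      · rw [Set.Finite.mem_toFinset]; exact ⟨p.2, q1, hq1, rfl⟩
    · rintro ⟨t, ht, y, hy, u, hu, he⟩
      rw [Set.Finite.mem_toFinset] at ht hu
      obtain ⟨p, hp, rfl⟩ := ht
      obtain ⟨q, q1, hq, rfl⟩ := hu
      exact hread z p q q1 hp ⟨hp.2.1, hq.1, Or.inl ⟨y, hy, he⟩⟩ hq
  · intro t ht y hy u hu t' ht' y' hy' u' hu' hlen he
    rw [Set.Finite.mem_toFinset] at ht hu ht' hu'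
    obtain ⟨p, hp, rfl⟩ := ht
    obtain ⟨q, q1, hq, rfl⟩ := hu
    obtain ⟨p', hp', rfl⟩ := ht'
    obtain ⟨q', q1', hq', rfl⟩ := hu'
    have ha : (p, q) ∈ rho C (p.2 ++ y ++ q.1) := ⟨hp.2.1, hq.1, Or.inl ⟨y, hy, rfl⟩⟩
    have hb : (p', q') ∈ rho C (p.2 ++ y ++ q.1) := by
      rw [he]; exact ⟨hp'.2.1, hq'.1, Or.inl ⟨y', hy', rfl⟩⟩
    obtain ⟨x, _, hx⟩ := hfe (p.2 ++ y ++ q.1) (hread _ p q q1 hp ha hq)
    have e1 := hx (p, q) ⟨hp, ha, q1, hq⟩
    have e2 := hx (p', q') ⟨hp', hb, q1', hq'⟩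
    have e3 : (p, q) = (p', q') := e1.trans e2.symm
    have e4 : p = p' := congrArg Prod.fst e3
    have e5 : q = q' := congrArg Prod.snd e3
    subst e4; subst e5
    refine ⟨rfl, ?_, rfl⟩
    rw [List.append_assoc, List.append_assoc, List.append_cancel_left_eq,
      List.append_cancel_right_eq] at he
    exact he

end Pool.Agent.Helper37.DE
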