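import Pool.Agent.Helper37.DE.St

/-!
# Project DE: module DC1 (one-step decomposition)
-/

set_option autoImplicit false

namespace Pool.Agent.Helper37.DE

open Pool.Agent.Helper31.BD Pool.Agent.Helper84.LD Pool.Agent.Helper37.KW

theorem hDC1 : StDC1 := by
  intro C U hUD h0 hun
  have hnil : ([] : List ℕ) ∈ Mon C := ⟨[], over_nil C, rfl⟩
  have hcons : ∀ c ∈ C, ∀ l : List (List ℕ), Over C l → Over C (c :: l) := by
    intro c hc l hl e he
    rcases List.mem_cons.1 he with h | h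
    · rw [h]; exact hc
    · exact hl e h
  refine ⟨?_, ?_, ?_⟩
  · intro z
    constructor
    · rintro ⟨y, ⟨l, hl, rfl⟩, u, hu, rfl⟩
      cases l with
      | nil => left; simpa using hu
      | cons c l =>
        right
        refine ⟨c, hl c (by simp), l.flatten ++ u, ⟨l.flatten, ⟨l, fun e he => hl e (by simp [he]), rfl⟩,
          u, hu, rfl⟩, ?_⟩
        rw [List.flatten_cons, List.append_assoc]
    · rintro (h | ⟨c, hc, r, ⟨y, ⟨l, hl, rfl⟩, u, hu, rfl⟩, rfl⟩)
      · exact ⟨[], hnil, z, h, rfl⟩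
      · exact ⟨(c :: l).flatten, ⟨c :: l, hcons c hc l hl, rfl⟩, u, hu, by
          rw [List.flatten_cons, List.append_assoc]⟩
  · rintro c hc r ⟨y, ⟨l, hl, rfl⟩, u, hu, rfl⟩ hcU
    have h := hun (c :: l).flatten ⟨c :: l, hcons c hc l hl, rfl⟩ u hu [] hnil (c ++ (l.flatten ++ u)) hcU
      (by rw [List.flatten_cons, List.append_assoc]; rfl)
    have h2 := h.1
    rw [List.flatten_cons, List.append_eq_nil_iff] at h2
    exact h0 (h2.1 ▸ hc)
  · rintro c hc r ⟨y, ⟨l, hl, rfl⟩, u, hu, rfl⟩ c' hc' r' ⟨y', ⟨l', hl', rfl⟩, u', hu', rfl⟩ e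
    have h := hun (c :: l).flatten ⟨c :: l, hcons c hc l hl, rfl⟩ u hu
      (c' :: l').flatten ⟨c' :: l', hcons c' hc' l' hl', rfl⟩ u' hu'
      (by rw [List.flatten_cons, List.flatten_cons, List.append_assoc, List.append_assoc]; exact e)
    have h2 := hUD (c :: l) (c' :: l') (hcons c hc l hl) (hcons c' hc' l' hl') h.1
    exact (List.cons.inj h2).1

end Pool.Agent.Helper37.DE
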