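import Pool.Agent.Helper37.DE.St

set_option autoImplicit false

/-! Module DC2 of project DE (MP_93aa28_lc): a decomposition gives unique factorisation. -/

namespace Pool.Agent.Helper37.DE

open Pool.Agent.Helper31.BD Pool.Agent.Helper84.LD Pool.Agent.Helper37.KW

private theorem flat_mem_DC2 {C U : Finset (List ℕ)} {R : Set (List ℕ)} (hD : Dec C U R) :
    ∀ l : List (List ℕ), Over C l → ∀ u ∈ U, l.flatten ++ u ∈ R := by
  intro l
  induction l with
  | nil =>
    intro _ u hu
    exact (hD.mem _).2 (Or.inl (by simpa using hu))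
  | cons c l ih =>
    intro h u hu
    refine (hD.mem _).2 (Or.inr ⟨c, h c (by simp), l.flatten ++ u, ih (fun x hx => h x (by simp [hx])) u hu, ?_⟩)
    simp [List.append_assoc]

private theorem mem_flat_DC2 {C U : Finset (List ℕ)} {R : Set (List ℕ)} (hC : [] ∉ C) (hD : Dec C U R) :
    ∀ (n : ℕ) (z : List ℕ), z.length = n → z ∈ R → z ∈ Rs C U := by
  intro n
  induction n using Nat.strong_induction_on with
  | _ n ih =>
    intro z hz hR
    rcases (hD.mem z).1 hR with h | ⟨c, hc, r, hr, rfl⟩
    · exact ⟨[], ⟨[], fun x hx => by simp at hx, rfl⟩, z, h, by simp⟩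
    · have hne : c ≠ [] := fun h => hC (h ▸ hc)
      have hlen : 0 < c.length := List.length_pos_iff.2 hne
      obtain ⟨y, ⟨l, hl, rfl⟩, u, hu, rfl⟩ := ih r.length
        (by rw [← hz, List.length_append]; omega) r rfl hr
      refine ⟨c ++ l.flatten, ⟨c :: l, ?_, by simp⟩, u, hu, by simp [List.append_assoc]⟩
      intro x hx
      rcases List.mem_cons.1 hx with rfl | hx
      · exact hc
      · exact hl x hx

theorem hDC2 : StDC2 := by
  intro C U R hC hD
  refine ⟨?_, ?_⟩
  · ext z
    constructor
    · intro h
      exact mem_flat_DC2 hC hD z.length z rfl h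
    · rintro ⟨y, ⟨l, hl, rfl⟩, u, hu, rfl⟩
      exact flat_mem_DC2 hD l hl u hu
  · intro l
    induction l with
    | nil =>
      intro l' _ hl' u hu u' hu' h
      cases l' with
      | nil => exact ⟨rfl, by simpa using h⟩
      | cons c' l' =>
        exfalso
        have h1 : l'.flatten ++ u' ∈ R := flat_mem_DC2 hD l' (fun x hx => hl' x (by simp [hx])) u' hu'
        refine hD.dis c' (hl' c' (by simp)) _ h1 ?_
        have h2 : u = c' ++ (l'.flatten ++ u') := by simpa [List.append_assoc] using h
        rw [← h2]
        exact hu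
    | cons c l ih =>
      intro l' hl hl' u hu u' hu' h
      have h1 : l.flatten ++ u ∈ R := flat_mem_DC2 hD l (fun x hx => hl x (by simp [hx])) u hu
      cases l' with
      | nil =>
        exfalso
        refine hD.dis c (hl c (by simp)) _ h1 ?_
        have h2 : c ++ (l.flatten ++ u) = u' := by simpa [List.append_assoc] using h
        rw [h2]
        exact hu'
      | cons c' l' =>
        have h1' : l'.flatten ++ u' ∈ R := flat_mem_DC2 hD l' (fun x hx => hl' x (by simp [hx])) u' hu'
        have h2 : c ++ (l.flatten ++ u) = c' ++ (l'.flatten ++ u') := by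
          simpa [List.append_assoc] using h
        have h3 : c = c' := hD.inj c (hl c (by simp)) _ h1 c' (hl' c' (by simp)) _ h1' h2
        subst h3
        have h4 := List.append_cancel_left h2
        obtain ⟨h5, h6⟩ := ih l' (fun x hx => hl x (by simp [hx])) (fun x hx => hl' x (by simp [hx]))
          u hu u' hu' h4
        exact ⟨by rw [h5], h6⟩

end Pool.Agent.Helper37.DE
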