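import Pool.Agent.Helper37.DE.St

/-!
# Project DE, module FA: composition of paths of the flower automaton
-/

set_option autoImplicit false

namespace Pool.Agent.Helper37.DE

open Pool.Agent.Helper31.BD Pool.Agent.Helper84.LD Pool.Agent.Helper37.KW

theorem FA_mon_nil (C : Finset (List ℕ)) : [] ∈ Mon C := ⟨[], over_nil C, rfl⟩

theorem FA_mon_app {C : Finset (List ℕ)} {y y' : List ℕ} (h : y ∈ Mon C) (h' : y' ∈ Mon C) :
    y ++ y' ∈ Mon C := by
  obtain ⟨l, hl, rfl⟩ := h
  obtain ⟨l', hl', rfl⟩ := h'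
  exact ⟨l ++ l', over_app hl hl', by simp⟩

theorem FA_mon_sta {C : Finset (List ℕ)} {q : List ℕ × List ℕ} (h : Sta C q) :
    q.1 ++ q.2 ∈ Mon C := by
  rcases h with h | ⟨_, _, h⟩
  · rw [h]; exact FA_mon_nil C
  · refine ⟨[q.1 ++ q.2], ?_, by simp⟩
    intro c hc
    rw [List.mem_singleton] at hc
    rw [hc]; exact h

/-- the state at a position of a product -/
theorem FA_cut {C : Finset (List ℕ)} : ∀ (l : List (List ℕ)) (a b : List ℕ), Over C l →
    a ++ b = l.flatten → ∃ q : List ℕ × List ℕ, Sta C q ∧ ∃ y ∈ Mon C, ∃ y' ∈ Mon C,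
      a = y ++ q.1 ∧ b = q.2 ++ y' := by
  intro l
  induction l with
  | nil =>
    intro a b _ hab
    simp only [List.flatten_nil, List.append_eq_nil_iff] at hab
    exact ⟨([], []), Or.inl rfl, [], FA_mon_nil C, [], FA_mon_nil C, by simp [hab.1], by simp [hab.2]⟩
  | cons c l ih =>
    intro a b hl hab
    have hc : c ∈ C := hl c (by simp)
    have hl' : Over C l := fun d hd => hl d (by simp [hd])
    rw [List.flatten_cons, List.append_eq_append_iff] at hab
    rcases hab with ⟨s, hs1, hs2⟩ | ⟨s, hs1, hs2⟩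
    · -- `c = a ++ s`, `b = s ++ l.flatten`
      by_cases ha : a = []
      · refine ⟨([], []), Or.inl rfl, [], FA_mon_nil C, (c :: l).flatten, ⟨c :: l, hl, rfl⟩, by simp [ha], ?_⟩
        rw [ha] at hs1
        simp only [List.nil_append] at hs1
        simp [hs2, hs1]
      · by_cases hs : s = []
        · subst hs
          rw [List.append_nil] at hs1
          refine ⟨([], []), Or.inl rfl, a, ⟨[c], ?_, by simp [hs1]⟩, l.flatten, ⟨l, hl', rfl⟩, by simp, ?_⟩
          · intro d hd; rw [List.mem_singleton] at hd; rw [hd]; exact hc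
          · simpa using hs2
        · refine ⟨(a, s), Or.inr ⟨ha, hs, ?_⟩, [], FA_mon_nil C, l.flatten, ⟨l, hl', rfl⟩, by simp, hs2⟩
          change a ++ s ∈ C
          rw [← hs1]; exact hc
    · -- `a = c ++ s`, `l.flatten = s ++ b`
      obtain ⟨q, hq, y, hy, y', hy', h1, h2⟩ := ih s b hl' hs2.symm
      refine ⟨q, hq, c ++ y, FA_mon_app ⟨[c], ?_, by simp⟩ hy, y', hy', ?_, h2⟩
      · intro d hd; rw [List.mem_singleton] at hd; rw [hd]; exact hc
      · rw [hs1, h1, List.append_assoc]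

theorem hFA : StFA := by
  intro C hC z1 z2 q q'' hq hq''
  constructor
  · rintro (⟨y, ⟨l, hl, rfl⟩, hz⟩ | ⟨h1, h2, h3, h4⟩)
    · rw [List.append_assoc, List.append_eq_append_iff] at hz
      rcases hz with ⟨s, hs1, hs2⟩ | ⟨v, hv1, hv2⟩
      · -- `q.2 = z1 ++ s`, `z2 = s ++ (y ++ q''.1)`
        by_cases hs : s = []
        · subst hs
          rw [List.append_nil] at hs1
          refine ⟨([], []), Or.inl rfl, Or.inl ⟨[], FA_mon_nil C, by simp [hs1]⟩,
            Or.inl ⟨l.flatten, ⟨l, hl, rfl⟩, by simpa using hs2⟩⟩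
        · rcases hq with hq | ⟨hq1, hq2, hq3⟩
          · exfalso
            rw [hq] at hs1
            have := hs1.symm
            simp only [List.append_eq_nil_iff] at this
            exact hs this.2
          · refine ⟨(q.1 ++ z1, s), Or.inr ⟨?_, hs, ?_⟩, Or.inr ⟨hq1, hs, rfl, hs1⟩,
              Or.inl ⟨l.flatten, ⟨l, hl, rfl⟩, ?_⟩⟩
            · simp [hq1]
            · change q.1 ++ z1 ++ s ∈ C
              rw [List.append_assoc, ← hs1]; exact hq3
            · rw [hs2]; simp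
      · -- `z1 = q.2 ++ v`, `y ++ q''.1 = v ++ z2`
        rw [List.append_eq_append_iff] at hv2
        rcases hv2 with ⟨v', hv'1, hv'2⟩ | ⟨v', hv'1, hv'2⟩
        · -- `v = y ++ v'`, `q''.1 = v' ++ z2`
          by_cases hv' : v' = []
          · subst hv'
            rw [List.append_nil] at hv'1
            rw [List.nil_append] at hv'2
            refine ⟨([], []), Or.inl rfl, Or.inl ⟨l.flatten, ⟨l, hl, rfl⟩, by simp [hv1, hv'1]⟩,
              Or.inl ⟨[], FA_mon_nil C, by simp [hv'2]⟩⟩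
          · rcases hq'' with hq'' | ⟨hq1, hq2, hq3⟩
            · exfalso
              rw [hq''] at hv'2
              have := hv'2.symm
              simp only [List.append_eq_nil_iff] at this
              exact hv' this.1
            · refine ⟨(v', z2 ++ q''.2), Or.inr ⟨hv', ?_, ?_⟩, Or.inl ⟨l.flatten, ⟨l, hl, rfl⟩, ?_⟩,
                Or.inr ⟨hv', hq2, hv'2, rfl⟩⟩
              · simp [hq2]
              · change v' ++ (z2 ++ q''.2) ∈ C
                rw [← List.append_assoc, ← hv'2]; exact hq3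
              · rw [hv1, hv'1]; simp
        · -- `y = v ++ v'`, `z2 = v' ++ q''.1`
          obtain ⟨q', hq', y, hy, y', hy', h1, h2⟩ := FA_cut l v v' hl hv'1.symm
          refine ⟨q', hq', Or.inl ⟨y, hy, ?_⟩, Or.inl ⟨y', hy', ?_⟩⟩
          · rw [hv1, h1]; simp
          · rw [hv'2, h2]
    · -- second kind
      have hqC : q.1 ++ q.2 ∈ C := by
        rcases hq with hq | ⟨_, _, hq3⟩
        · rw [hq] at h1; exact absurd rfl h1
        · exact hq3
      refine ⟨(q.1 ++ z1, z2 ++ q''.2), Or.inr ⟨?_, ?_, ?_⟩, Or.inr ⟨h1, ?_, rfl, ?_⟩,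
        Or.inr ⟨?_, h2, ?_, rfl⟩⟩
      · simp [h1]
      · simp [h2]
      · change q.1 ++ z1 ++ (z2 ++ q''.2) ∈ C
        have : q.1 ++ z1 ++ (z2 ++ q''.2) = q.1 ++ q.2 := by rw [h4]; simp
        rw [this]; exact hqC
      · simp [h2]
      · rw [h4]; simp
      · simp [h1]
      · rw [h3]; simp
  · rintro ⟨q', hq', h1, h2⟩
    rcases h1 with ⟨y, hy, hz1⟩ | ⟨a1, a2, a3, a4⟩
    · rcases h2 with ⟨y', hy', hz2⟩ | ⟨b1, b2, b3, b4⟩
      · left
        refine ⟨y ++ (q'.1 ++ q'.2) ++ y', FA_mon_app (FA_mon_app hy (FA_mon_sta hq')) hy', ?_⟩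
        rw [hz1, hz2]; simp
      · left
        refine ⟨y, hy, ?_⟩
        rw [hz1, b3]; simp
    · rcases h2 with ⟨y', hy', hz2⟩ | ⟨b1, b2, b3, b4⟩
      · left
        refine ⟨y', hy', ?_⟩
        rw [hz2, a4]; simp
      · right
        refine ⟨a1, b2, ?_, ?_⟩
        · rw [b3, a3]; simp
        · rw [a4, b4]; simp

end Pool.Agent.Helper37.DE
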