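import Pool.Agent.Helper37.DE.St

/-!
# Project DE (MP_93aa28_lc): module FAM, joint classes
-/

set_option autoImplicit false

namespace Pool.Agent.Helper37.DE

open Pool.Agent.Helper31.BD Pool.Agent.Helper84.LD Pool.Agent.Helper37.KW

theorem hFAM : StFAM := by
  intro Ls N
  induction Ls with
  | nil =>
    intro _
    refine ⟨fun _ => ⟨0, by simp⟩, ?_⟩
    intro v v' _ L hL
    simp at hL
  | cons L Ls ih =>
    intro h
    obtain ⟨st1, h1⟩ := h L (by simp)
    obtain ⟨st2, h2⟩ := ih (fun L' hL' => h L' (by simp [hL']))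
    have hN : N * N ^ Ls.length = N ^ (L :: Ls).length := by
      rw [List.length_cons, pow_succ, mul_comm]
    refine ⟨fun v => Fin.cast hN (finProdFinEquiv (st1 v, st2 v)), ?_⟩
    intro v v' hv L' hL' z
    have h3 : finProdFinEquiv (st1 v, st2 v) = finProdFinEquiv (st1 v', st2 v') :=
      Fin.cast_injective hN hv
    have h4 := finProdFinEquiv.injective h3
    have h5 : st1 v = st1 v' := congrArg Prod.fst h4
    have h6 : st2 v = st2 v' := congrArg Prod.snd h4
    rcases List.mem_cons.mp hL' with rfl | hm
    · exact h1 v v' h5 z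
    · exact h2 v v' h6 L' hm z

end Pool.Agent.Helper37.DE
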