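import Pool.Agent.Helper37.DE.St

/-!
# Project DE, module FB: unambiguity of the flower automaton
-/

set_option autoImplicit false

namespace Pool.Agent.Helper37.DE

open Pool.Agent.Helper31.BD Pool.Agent.Helper84.LD Pool.Agent.Helper37.KW

theorem FB_left {C : Finset (List ℕ)} {z : List ℕ} {q q' : List ℕ × List ℕ} (hq : Sta C q)
    (h : Pth C z q q') : ∃ l1, Over C l1 ∧ q.1 ++ z = l1.flatten ++ q'.1 := by
  rcases h with ⟨y, ⟨l, hl, rfl⟩, hz⟩ | ⟨h1, h2, h3, h4⟩
  · rcases hq with hq | ⟨_, _, hq⟩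
    · refine ⟨l, hl, ?_⟩
      rw [hz, hq]; simp
    · refine ⟨(q.1 ++ q.2) :: l, ?_, ?_⟩
      · intro c hc
        rcases List.mem_cons.1 hc with hc | hc
        · rw [hc]; exact hq
        · exact hl c hc
      · rw [hz]; simp
  · exact ⟨[], over_nil C, by rw [h3]; simp⟩

theorem FB_right {C : Finset (List ℕ)} {z : List ℕ} {q q' : List ℕ × List ℕ} (hq : Sta C q')
    (h : Pth C z q q') : ∃ l2, Over C l2 ∧ z ++ q'.2 = q.2 ++ l2.flatten := by
  rcases h with ⟨y, ⟨l, hl, rfl⟩, hz⟩ | ⟨h1, h2, h3, h4⟩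
  · rcases hq with hq | ⟨_, _, hq⟩
    · refine ⟨l, hl, ?_⟩
      rw [hz, hq]; simp
    · refine ⟨l ++ [q'.1 ++ q'.2], ?_, ?_⟩
      · refine over_app hl ?_
        intro c hc
        rw [List.mem_singleton] at hc
        rw [hc]; exact hq
      · rw [hz]; simp
  · exact ⟨[], over_nil C, by rw [h4]; simp⟩

/-- the middle list of a state -/
theorem FB_mid {C : Finset (List ℕ)} {q : List ℕ × List ℕ} (hq : Sta C q) :
    ∃ m : List (List ℕ), Over C m ∧ m.flatten = q.1 ++ q.2 ∧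
      ((q = ([], []) ∧ m = []) ∨ (q.1 ≠ [] ∧ q.2 ≠ [] ∧ m = [q.1 ++ q.2])) := by
  rcases hq with hq | ⟨h1, h2, hq⟩
  · exact ⟨[], over_nil C, by rw [hq]; rfl, Or.inl ⟨hq, rfl⟩⟩
  · refine ⟨[q.1 ++ q.2], ?_, by simp, Or.inr ⟨h1, h2, rfl⟩⟩
    intro c hc
    rw [List.mem_singleton] at hc
    rw [hc]; exact hq

/-- comparison of two positions -/
theorem FB_cmp {C : Finset (List ℕ)} (hC : [] ∉ C) {q q2 : List ℕ × List ℕ}
    {m m2 l1 l2 t l2' : List (List ℕ)} (ht : Over C t)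
    (hm : (q = ([], []) ∧ m = []) ∨ (q.1 ≠ [] ∧ q.2 ≠ [] ∧ m = [q.1 ++ q.2]))
    (hm2 : (q2 = ([], []) ∧ m2 = []) ∨ (q2.1 ≠ [] ∧ q2.2 ≠ [] ∧ m2 = [q2.1 ++ q2.2]))
    (h1 : m ++ l2 = t ++ (m2 ++ l2'))
    (h2 : l1.flatten ++ q.1 = (l1 ++ t).flatten ++ q2.1) : q = q2 := by
  rw [List.flatten_append, List.append_assoc, List.append_cancel_left_eq] at h2
  cases t with
  | nil =>
    simp only [List.flatten_nil, List.nil_append] at h1 h2
    rcases hm with ⟨a1, a2⟩ | ⟨a1, a2, a3⟩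
    · rcases hm2 with ⟨b1, b2⟩ | ⟨b1, b2, b3⟩
      · rw [a1, b1]
      · exfalso
        rw [a1] at h2
        exact b1 h2.symm
    · rcases hm2 with ⟨b1, b2⟩ | ⟨b1, b2, b3⟩
      · exfalso
        rw [b1] at h2
        exact a1 h2
      · rw [a3, b3] at h1
        have h3 : q.1 ++ q.2 = q2.1 ++ q2.2 := by
          have := congrArg List.head? h1
          simpa using this
        rw [h2, List.append_cancel_left_eq] at h3
        exact Prod.ext h2 h3
  | cons c t =>
    exfalso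
    have hc : c ∈ C := ht c (by simp)
    have hc0 : c ≠ [] := fun h => hC (h ▸ hc)
    rcases hm with ⟨a1, a2⟩ | ⟨a1, a2, a3⟩
    · rw [a1] at h2
      have := h2.symm
      simp only [List.flatten_cons, List.append_eq_nil_iff] at this
      exact hc0 this.1.1
    · rw [a3] at h1
      have h3 : q.1 ++ q.2 = c := by
        have := congrArg List.head? h1
        simpa using this
      have h4 := congrArg List.length h2
      have h5 := congrArg List.length h3
      simp only [List.flatten_cons, List.length_append] at h4 h5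
      have h6 : q.2.length = 0 := by omega
      exact a2 (List.length_eq_zero_iff.1 h6)

theorem hFB : StFB := by
  intro C hUD hC z1 z2 q q'' q1 q2 hq hq'' hq1 hq2 p1 p2 p3 p4
  obtain ⟨l1, hl1, e1⟩ := FB_left hq p1
  obtain ⟨l2, hl2, e2⟩ := FB_right hq'' p2
  obtain ⟨l1', hl1', e1'⟩ := FB_left hq p3
  obtain ⟨l2', hl2', e2'⟩ := FB_right hq'' p4
  obtain ⟨m, hm0, hm1, hm⟩ := FB_mid hq1
  obtain ⟨m', hm0', hm1', hm'⟩ := FB_mid hq2
  have hfl : (l1 ++ (m ++ l2)).flatten = (l1' ++ (m' ++ l2')).flatten := by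
    have ha : (l1 ++ (m ++ l2)).flatten = (q.1 ++ z1) ++ (z2 ++ q''.2) := by
      rw [e1, e2, List.flatten_append, List.flatten_append, hm1]; simp
    have hb : (l1' ++ (m' ++ l2')).flatten = (q.1 ++ z1) ++ (z2 ++ q''.2) := by
      rw [e1', e2', List.flatten_append, List.flatten_append, hm1']; simp
    rw [ha, hb]
  have heq := hUD _ _ (over_app hl1 (over_app hm0 hl2)) (over_app hl1' (over_app hm0' hl2')) hfl
  rw [List.append_eq_append_iff] at heq
  rcases heq with ⟨t, ht1, ht2⟩ | ⟨t, ht1, ht2⟩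
  · refine FB_cmp (C := C) hC (t := t) ?_ hm hm' ht2 (l1 := l1) ?_
    · intro c hc
      exact hl1' c (by rw [ht1]; simp [hc])
    · rw [← ht1, ← e1, e1']
  · refine (FB_cmp (C := C) hC (t := t) ?_ hm' hm ht2 (l1 := l1') ?_).symm
    · intro c hc
      exact hl1 c (by rw [ht1]; simp [hc])
    · rw [← ht1, ← e1, e1']

end Pool.Agent.Helper37.DE
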