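import Pool.Agent.Helper37.DE.St

/-!
# Project DE, module FC: readable words
-/

set_option autoImplicit false

namespace Pool.Agent.Helper37.DE

open Pool.Agent.Helper31.BD Pool.Agent.Helper84.LD Pool.Agent.Helper37.KW

theorem FC_sta {C : Finset (List ℕ)} {q : List ℕ × List ℕ} (h : Sta C q) :
    ∃ l, Over C l ∧ q.1 ++ q.2 = l.flatten := by
  rcases h with h | ⟨_, _, h⟩
  · rw [h]; exact ⟨[], over_nil C, rfl⟩
  · refine ⟨[q.1 ++ q.2], ?_, by simp⟩
    intro c hc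
    rw [List.mem_singleton] at hc
    rw [hc]; exact h

theorem hFC (h1 : StFA) : StFC := by
  intro C hC z
  constructor
  · rintro ⟨p, s, l, hl, he⟩
    have h2 : Pth C (p ++ (z ++ s)) ([], []) ([], []) := by
      left
      exact ⟨l.flatten, ⟨l, hl, rfl⟩, by rw [← he]; simp⟩
    obtain ⟨q, hq, _, h3⟩ := (h1 C hC p (z ++ s) _ _ (Or.inl rfl) (Or.inl rfl)).1 h2
    obtain ⟨q', hq', h4, _⟩ := (h1 C hC z s _ _ hq (Or.inl rfl)).1 h3
    exact ⟨(q, q'), hq, hq', h4⟩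
  · rintro ⟨⟨q, q'⟩, hq, hq', h⟩
    obtain ⟨l1, hl1, e1⟩ := FC_sta hq
    obtain ⟨l2, hl2, e2⟩ := FC_sta hq'
    rcases h with ⟨y, ⟨l, hl, rfl⟩, hz⟩ | ⟨h1, h2, h3, h4⟩
    · refine ⟨q.1, q'.2, l1 ++ (l ++ l2), over_app hl1 (over_app hl hl2), ?_⟩
      rw [List.flatten_append, List.flatten_append, ← e1, ← e2]
      change q.1 ++ z ++ q'.2 = _
      simp only at hz
      rw [hz]
      simp
    · refine ⟨q.1, q'.2, l1, hl1, ?_⟩
      rw [← e1]
      simp only at h4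
      change q.1 ++ z ++ q'.2 = q.1 ++ q.2
      rw [h4]; simp

end Pool.Agent.Helper37.DE
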