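import Pool.Agent.Helper37.DE.St

/-!
# Project DE (MP_93aa28_lc): module FD (a generic word)
-/

set_option autoImplicit false

namespace Pool.Agent.Helper37.DE

open Pool.Agent.Helper31.BD Pool.Agent.Helper84.LD Pool.Agent.Helper37.KW

namespace FD

/-- powers of a word -/
def wp (m : List ℕ) (k : ℕ) : List ℕ := (List.replicate k m).flatten

theorem wp_zero (m : List ℕ) : wp m 0 = [] := by simp [wp]

theorem wp_succ (m : List ℕ) (k : ℕ) : wp m (k + 1) = m ++ wp m k := by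
  simp [wp, List.replicate_succ]

theorem wp_add (m : List ℕ) (i j : ℕ) : wp m (i + j) = wp m i ++ wp m j := by
  induction i with
  | zero => simp [wp_zero]
  | succ i ih =>
    rw [show i + 1 + j = (i + j) + 1 by ring, wp_succ, wp_succ, ih, List.append_assoc]

theorem wp_one (m : List ℕ) : wp m 1 = m := by simp [wp]

theorem wp_succ' (m : List ℕ) (k : ℕ) : wp m (k + 1) = wp m k ++ m := by
  rw [wp_add, wp_one]

theorem wp_mem {C : Finset (List ℕ)} {m : List ℕ} (hm : m ∈ Mon C) (k : ℕ) : wp m k ∈ Mon C := by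
  induction k with
  | zero => exact ⟨[], by intro c hc; simp at hc, by simp [wp_zero]⟩
  | succ k ih =>
    obtain ⟨l, hl, rfl⟩ := hm
    obtain ⟨l', hl', he⟩ := ih
    refine ⟨l ++ l', ?_, ?_⟩
    · intro c hc
      rcases List.mem_append.1 hc with h | h
      · exact hl c h
      · exact hl' c h
    · rw [wp_succ, he, List.flatten_append]

theorem sta_fin (C : Finset (List ℕ)) : {q : List ℕ × List ℕ | Sta C q}.Finite := by
  classical
  refine Set.Finite.subset (Finset.finite_toSet (insert (([], []) : List ℕ × List ℕ)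
    (C.biUnion (fun c => (Finset.range (c.length + 1)).image (fun i => (c.take i, c.drop i)))))) ?_
  rintro ⟨a, b⟩ hq
  rcases hq with h | ⟨h1, h2, h3⟩
  · rw [h]; simp
  · simp only [Finset.coe_insert, Set.mem_insert_iff, Finset.mem_coe, Finset.mem_biUnion,
      Finset.mem_image, Finset.mem_range]
    right
    refine ⟨a ++ b, h3, a.length, ?_, ?_⟩
    · simp
    · simp

theorem rho_fin (C : Finset (List ℕ)) : (Set.range (fun z => rho C z)).Finite := by
  have h1 : ({q : List ℕ × List ℕ | Sta C q} ×ˢ {q : List ℕ × List ℕ | Sta C q}).Finite :=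
    (sta_fin C).prod (sta_fin C)
  refine Set.Finite.subset h1.powerset ?_
  rintro _ ⟨z, rfl⟩
  intro p hp
  exact ⟨hp.1, hp.2.1⟩

/-- composition of relations -/
def cmp (R S : Set ((List ℕ × List ℕ) × (List ℕ × List ℕ))) :
    Set ((List ℕ × List ℕ) × (List ℕ × List ℕ)) :=
  {p | ∃ q, (p.1, q) ∈ R ∧ (q, p.2) ∈ S}

theorem rho_app (h1 : StFA) {C : Finset (List ℕ)} (h0 : [] ∉ C) (z1 z2 : List ℕ) :
    rho C (z1 ++ z2) = cmp (rho C z1) (rho C z2) := by
  ext ⟨p, q⟩
  constructor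
  · rintro ⟨hp, hq, hP⟩
    obtain ⟨q', hq', ha, hb⟩ := (h1 C h0 z1 z2 p q hp hq).1 hP
    exact ⟨q', ⟨hp, hq', ha⟩, ⟨hq', hq, hb⟩⟩
  · rintro ⟨q', ⟨hp, hq', ha⟩, ⟨_, hq, hb⟩⟩
    exact ⟨hp, hq, (h1 C h0 z1 z2 p q hp hq).2 ⟨q', hq', ha, hb⟩⟩

theorem cong (h1 : StFA) {C : Finset (List ℕ)} (h0 : [] ∉ C) {z1 z1' z2 z2' : List ℕ}
    (ha : rho C z1 = rho C z1') (hb : rho C z2 = rho C z2') :
    rho C (z1 ++ z2) = rho C (z1' ++ z2') := by
  rw [rho_app h1 h0, rho_app h1 h0, ha, hb]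

/-- some power is idempotent -/
theorem exists_idem (h1 : StFA) {C : Finset (List ℕ)} (h0 : [] ∉ C) (m : List ℕ) :
    ∃ k : ℕ, 0 < k ∧ rho C (wp m k ++ wp m k) = rho C (wp m k) := by
  have hf : ¬ Function.Injective (fun i : ℕ => (⟨rho C (wp m (i + 1)), ⟨wp m (i + 1), rfl⟩⟩ :
      Set.range (fun z => rho C z))) := by
    have : Finite (Set.range (fun z => rho C z)) := (rho_fin C).to_subtype
    exact not_injective_infinite_finite _
  rw [Function.Injective] at hf
  push Not at hf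
  obtain ⟨i, j, he, hne⟩ := hf
  have he' : rho C (wp m (i + 1)) = rho C (wp m (j + 1)) := by
    simpa using congrArg Subtype.val he
  -- order the two indices
  obtain ⟨a, r, ha, hr, hE⟩ : ∃ a r : ℕ, 0 < a ∧ 0 < r ∧ rho C (wp m a) = rho C (wp m (a + r)) := by
    rcases lt_or_gt_of_ne hne with h | h
    · exact ⟨i + 1, j - i, by omega, by omega, by rw [he']; congr 2; omega⟩
    · exact ⟨j + 1, i - j, by omega, by omega, by rw [← he']; congr 2; omega⟩
  have hT : ∀ t s : ℕ, rho C (wp m (a + t)) = rho C (wp m (a + t + r * s)) := by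
    intro t s
    induction s with
    | zero => simp
    | succ s ih =>
      rw [ih]
      have e1 : a + t + r * s = a + (t + r * s) := by ring
      have e2 : a + t + r * (s + 1) = (a + r) + (t + r * s) := by ring
      rw [e1, e2, wp_add m a, wp_add m (a + r)]
      exact cong h1 h0 hE rfl
  refine ⟨a * r, Nat.mul_pos ha hr, ?_⟩
  rw [← wp_add]
  obtain ⟨t, ht⟩ : ∃ t, a * r = a + t := by
    refine ⟨a * r - a, ?_⟩
    have : a * 1 ≤ a * r := Nat.mul_le_mul_left a hr
    omega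
  have e := hT t a
  rw [← ht] at e
  rw [e]
  congr 2
  ring

/-- the nonempty relations of the words containing `w` -/
def IS (C : Finset (List ℕ)) (w : List ℕ) : Set (Set ((List ℕ × List ℕ) × (List ℕ × List ℕ))) :=
  {S | S.Nonempty ∧ ∃ a b : List ℕ, S = rho C (a ++ w ++ b)}

theorem IS_fin (C : Finset (List ℕ)) (w : List ℕ) : (IS C w).Finite := by
  refine (rho_fin C).subset ?_
  rintro S ⟨_, a, b, rfl⟩
  exact ⟨_, rfl⟩

theorem iter (h1 : StFA) {C : Finset (List ℕ)} (h0 : [] ∉ C) {w α m : List ℕ}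
    (h : rho C w = rho C (α ++ w ++ m)) (k : ℕ) :
    rho C w = rho C (wp α k ++ w ++ wp m k) := by
  induction k with
  | zero => simp [wp_zero]
  | succ k ih =>
    have e : wp α (k + 1) ++ w ++ wp m (k + 1) = wp α k ++ (α ++ w ++ m) ++ wp m k := by
      rw [wp_succ', wp_succ]
      simp [List.append_assoc]
    rw [e, ih]
    exact cong h1 h0 (cong h1 h0 rfl h) rfl

end FD

open FD in
theorem hFD (h1 : StFA) (h2 : StFC) : StFD := by
  classical
  intro C _ h0
  -- a word with minimal set of relations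
  obtain ⟨w, hw, hmin⟩ : ∃ w ∈ Mon C, ∀ w' ∈ Mon C, (IS C w).ncard ≤ (IS C w').ncard := by
    have hne : ([] : List ℕ) ∈ Mon C := ⟨[], by intro c hc; simp at hc, by simp⟩
    have hex : ∃ n : ℕ, ∃ w ∈ Mon C, (IS C w).ncard = n := ⟨_, [], hne, rfl⟩
    obtain ⟨w, hw, he⟩ := Nat.find_spec hex
    refine ⟨w, hw, fun w' hw' => ?_⟩
    rw [he]
    exact Nat.find_min' hex ⟨w', hw', rfl⟩
  have hstar : ∀ z : List ℕ, w ++ z ++ w ∈ Fac C → ∃ y : List ℕ,
      rho C (w ++ z ++ w ++ y) = rho C w := by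
    intro z hz
    obtain ⟨u, v, l, hl, he⟩ := hz
    have hw2 : u ++ (w ++ z ++ w) ++ v ∈ Mon C := ⟨l, hl, he⟩
    have hsub : IS C (u ++ (w ++ z ++ w) ++ v) ⊆ IS C w := by
      rintro S ⟨hS, a, b, rfl⟩
      refine ⟨hS, a ++ u, z ++ w ++ v ++ b, ?_⟩
      congr 1
      simp [List.append_assoc]
    have heq : IS C (u ++ (w ++ z ++ w) ++ v) = IS C w :=
      Set.eq_of_subset_of_ncard_le hsub (hmin _ hw2) (IS_fin C w)
    have hmem : rho C w ∈ IS C w := by
      refine ⟨?_, [], [], by simp⟩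
      rw [← h2 C h0 w]
      obtain ⟨l', hl', rfl⟩ := hw
      exact ⟨[], [], l', hl', by simp⟩
    rw [← heq] at hmem
    obtain ⟨_, a, b, hab⟩ := hmem
    have hab' : rho C w = rho C ((a ++ u) ++ w ++ (z ++ w ++ v ++ b)) := by
      rw [hab]
      congr 1
      simp [List.append_assoc]
    obtain ⟨k, hk, hid⟩ := exists_idem h1 h0 (z ++ w ++ v ++ b)
    have hit := iter h1 h0 hab' k
    have hfin : rho C (w ++ wp (z ++ w ++ v ++ b) k) = rho C w := by
      calc rho C (w ++ wp (z ++ w ++ v ++ b) k)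
          = rho C ((wp (a ++ u) k ++ w ++ wp (z ++ w ++ v ++ b) k) ++ wp (z ++ w ++ v ++ b) k) :=
            cong h1 h0 hit rfl
        _ = rho C ((wp (a ++ u) k ++ w) ++ (wp (z ++ w ++ v ++ b) k ++ wp (z ++ w ++ v ++ b) k)) := by
            rw [List.append_assoc]
        _ = rho C ((wp (a ++ u) k ++ w) ++ wp (z ++ w ++ v ++ b) k) := cong h1 h0 rfl hid
        _ = rho C w := hit.symm
    obtain ⟨k', rfl⟩ : ∃ k', k = k' + 1 := ⟨k - 1, by omega⟩
    refine ⟨v ++ b ++ wp (z ++ w ++ v ++ b) k', ?_⟩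
    rw [← hfin, wp_succ]
    congr 1
    simp [List.append_assoc]
  obtain ⟨j, hj, hid⟩ := exists_idem h1 h0 w
  refine ⟨wp w j, wp_mem hw j, hid, ?_⟩
  intro z hz
  obtain ⟨j', rfl⟩ : ∃ j', j = j' + 1 := ⟨j - 1, by omega⟩
  have hz' : w ++ (wp w j' ++ z ++ wp w j') ++ w ∈ Fac C := by
    have e : w ++ (wp w j' ++ z ++ wp w j') ++ w = wp w (j' + 1) ++ z ++ wp w (j' + 1) := by
      rw [show wp w (j' + 1) ++ z ++ wp w (j' + 1) = wp w (j' + 1) ++ z ++ (wp w j' ++ w) by
        rw [← wp_succ'], wp_succ]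
      simp [List.append_assoc]
    rw [e]
    exact hz
  obtain ⟨y, hy⟩ := hstar _ hz'
  refine ⟨y ++ wp w j', ?_⟩
  have e : wp w (j' + 1) ++ z ++ wp w (j' + 1) ++ (y ++ wp w j') =
      (w ++ (wp w j' ++ z ++ wp w j') ++ w ++ y) ++ wp w j' := by
    rw [show wp w (j' + 1) ++ z ++ wp w (j' + 1) ++ (y ++ wp w j') =
      wp w (j' + 1) ++ z ++ (wp w j' ++ w) ++ (y ++ wp w j') by rw [← wp_succ'], wp_succ]
    simp [List.append_assoc]
  rw [e, wp_succ]
  exact cong h1 h0 hy rfl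

end Pool.Agent.Helper37.DE
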