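import Pool.Agent.Helper37.DE.St

/-!
# Project DE, module FE: exactness
-/

set_option autoImplicit false

namespace Pool.Agent.Helper37.DE

open Pool.Agent.Helper31.BD Pool.Agent.Helper84.LD Pool.Agent.Helper37.KW

/-- composition of relations -/
def FE_comp (A B : Set ((List ℕ × List ℕ) × (List ℕ × List ℕ))) :
    Set ((List ℕ × List ℕ) × (List ℕ × List ℕ)) :=
  {p | ∃ q, (p.1, q) ∈ A ∧ (q, p.2) ∈ B}

theorem FE_comp_assoc (A B D : Set ((List ℕ × List ℕ) × (List ℕ × List ℕ))) :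
    FE_comp (FE_comp A B) D = FE_comp A (FE_comp B D) := by
  ext p
  constructor
  · rintro ⟨q, ⟨q', h1, h2⟩, h3⟩
    exact ⟨q', h1, q, h2, h3⟩
  · rintro ⟨q, h1, q', h2, h3⟩
    exact ⟨q', ⟨q, h1, h2⟩, h3⟩

theorem FE_rho_app (h1 : StFA) (C : Finset (List ℕ)) (hC : [] ∉ C) (z1 z2 : List ℕ) :
    rho C (z1 ++ z2) = FE_comp (rho C z1) (rho C z2) := by
  ext p
  constructor
  · rintro ⟨ha, hb, hc⟩
    obtain ⟨q', hq, hd, he⟩ := (h1 C hC z1 z2 p.1 p.2 ha hb).1 hc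
    exact ⟨q', ⟨ha, hq, hd⟩, ⟨hq, hb, he⟩⟩
  · rintro ⟨q', ⟨ha, hq, hd⟩, ⟨_, hb, he⟩⟩
    exact ⟨ha, hb, (h1 C hC z1 z2 p.1 p.2 ha hb).2 ⟨q', hq, hd, he⟩⟩

theorem FE_fin (C : Finset (List ℕ)) : {q : List ℕ × List ℕ | Sta C q}.Finite := by
  have h : {q : List ℕ × List ℕ | Sta C q} ⊆
      (insert (([], []) : List ℕ × List ℕ)
        (((C.biUnion fun c => ((List.range (c.length + 1)).map
          fun k => ((c.take k, c.drop k) : List ℕ × List ℕ)).toFinset) :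
            Finset (List ℕ × List ℕ)) : Set (List ℕ × List ℕ))) := by
    rintro q (hq | ⟨_, _, hq⟩)
    · exact Or.inl hq
    · right
      simp only [Finset.coe_biUnion, Set.mem_iUnion, Finset.mem_coe, List.mem_toFinset,
        List.mem_map, List.mem_range]
      refine ⟨q.1 ++ q.2, hq, q.1.length, ?_, ?_⟩
      · simp only [List.length_append]; omega
      · simp
  exact Set.Finite.subset (Set.Finite.insert _ (Finset.finite_toSet _)) h

theorem hFE (h1 : StFA) (h2 : StFB) : StFE := by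
  intro C hUD hC w hw hidem hex z hz
  have happ := FE_rho_app h1 C hC
  obtain ⟨y, hy⟩ := hex z hz
  set e := rho C w with he
  set g := rho C (w ++ z ++ w) with hg
  set h := rho C (w ++ y ++ w) with hh
  have hee : FE_comp e e = e := by rw [he, ← happ, hidem]
  have heg : FE_comp e g = g := by
    rw [hg, happ (w ++ z) w, happ w z, ← FE_comp_assoc, ← FE_comp_assoc, hee]
  have hge : FE_comp g e = g := by
    rw [hg, happ (w ++ z) w, FE_comp_assoc, hee]
  have heh : FE_comp e h = h := by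
    rw [hh, happ (w ++ y) w, happ w y, ← FE_comp_assoc, ← FE_comp_assoc, hee]
  have hgh : FE_comp g h = e := by
    have hy' : FE_comp g (rho C y) = e := by rw [hg, ← happ, hy]
    calc FE_comp g h = FE_comp (FE_comp g e) (FE_comp (rho C y) e) := by
            rw [hh, happ (w ++ y) w, happ w y, FE_comp_assoc g e, FE_comp_assoc]
      _ = FE_comp g (FE_comp (rho C y) e) := by rw [hge]
      _ = FE_comp e e := by rw [← FE_comp_assoc, hy']
      _ = e := hee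
  -- finiteness: `h g = e`
  have hhg : FE_comp h g = e := by
    let S : Set (List ℕ × List ℕ) := {q | Sta C q}
    let X : Set (Set ((List ℕ × List ℕ) × (List ℕ × List ℕ))) := {A | A ⊆ S ×ˢ S ∧ FE_comp e A = A}
    have hXf : X.Finite :=
      Set.Finite.subset (Set.Finite.finite_subsets ((FE_fin C).prod (FE_fin C)))
        (fun A hA => hA.1)
    have hXfin : Finite X := hXf
    have hsub : ∀ v : List ℕ, rho C v ⊆ S ×ˢ S := fun v p hp => ⟨hp.1, hp.2.1⟩
    have hcs : ∀ A B : Set ((List ℕ × List ℕ) × (List ℕ × List ℕ)), A ⊆ S ×ˢ S → B ⊆ S ×ˢ S →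
        FE_comp A B ⊆ S ×ˢ S := by
      rintro A B hA hB p ⟨q, hp, hq⟩
      exact ⟨(hA hp).1, (hB hq).2⟩
    let fg : X → X := fun A => ⟨FE_comp g A.1, hcs _ _ (hsub _) A.2.1, by
      rw [← FE_comp_assoc, heg]⟩
    let fh : X → X := fun A => ⟨FE_comp h A.1, hcs _ _ (hsub _) A.2.1, by
      rw [← FE_comp_assoc, heh]⟩
    have hl : Function.LeftInverse fg fh := by
      intro A
      apply Subtype.ext
      change FE_comp g (FE_comp h A.1) = A.1
      rw [← FE_comp_assoc, hgh]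
      exact A.2.2
    have hinj : Function.Injective fg := by
      have hsurj : Function.Surjective fg := hl.surjective
      exact Finite.injective_iff_surjective.2 hsurj
    have hr : Function.LeftInverse fh fg := by
      intro A
      apply hinj
      exact hl (fg A)
    have hE : e ∈ X := ⟨hsub _, hee⟩
    have := congrArg Subtype.val (hr ⟨e, hE⟩)
    change FE_comp h (FE_comp g e) = e at this
    rwa [hge] at this
  have h00 : ((([], []), ([], [])) : (List ℕ × List ℕ) × (List ℕ × List ℕ)) ∈ e := by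
    refine ⟨Or.inl rfl, Or.inl rfl, Or.inl ⟨w, hw, ?_⟩⟩
    simp
  -- a loop after `q`
  have hloop : ∀ q q1 : List ℕ × List ℕ, (q, q1) ∈ e → ∃ j, (q, j) ∈ e ∧ (j, j) ∈ e := by
    intro q q1 hq
    by_contra hno
    push Not at hno
    let A : Set (List ℕ × List ℕ) := {j | (q, j) ∈ e ∧ (j, q1) ∈ e}
    have hAf : A.Finite := Set.Finite.subset (FE_fin C) (fun j hj => hj.1.2.1)
    have hAfin : Finite A := hAf
    have hstep : ∀ a b c : List ℕ × List ℕ, (a, b) ∈ e → (b, c) ∈ e → (a, c) ∈ e := by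
      intro a b c hab hbc
      rw [← hee]; exact ⟨b, hab, hbc⟩
    have hsplit : ∀ a c : List ℕ × List ℕ, (a, c) ∈ e → ∃ b, (a, b) ∈ e ∧ (b, c) ∈ e := by
      intro a c hac
      rw [← hee] at hac
      obtain ⟨b, hb1, hb2⟩ := hac
      exact ⟨b, hb1, hb2⟩
    let r : A → A → Prop := fun a b => (b.1, a.1) ∈ e
    have htr : IsTrans A r := ⟨fun a b c hab hbc => hstep _ _ _ hbc hab⟩
    have hirr : Std.Irrefl r := ⟨fun a ha => hno a.1 a.2.1 ha⟩
    have hwf : WellFounded r := Finite.wellFounded_of_trans_of_irrefl r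
    obtain ⟨b, hb1, hb2⟩ := hsplit q q1 hq
    obtain ⟨m, _, hm⟩ := hwf.has_min (Set.univ : Set A) ⟨⟨b, hb1, hb2⟩, trivial⟩
    obtain ⟨c, hc1, hc2⟩ := hsplit m.1 q1 m.2.2
    exact hm ⟨c, hstep _ _ _ m.2.1 hc1, hc2⟩ trivial hc1
  have hgsplit : ∀ p q j : List ℕ × List ℕ, (([], []), p) ∈ e → (p, q) ∈ rho C z → (q, j) ∈ e →
      (([], []), j) ∈ g := by
    intro p q j hp hq hj
    rw [hg, happ (w ++ z) w, happ w z]
    exact ⟨q, ⟨p, hp, hq⟩, hj⟩
  -- existence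
  have hexi : ∃ p : (List ℕ × List ℕ) × (List ℕ × List ℕ), (([], []), p.1) ∈ e ∧ p ∈ rho C z ∧
        ∃ q1, (p.2, q1) ∈ e := by
    have h3 : ((([], []), ([], [])) : (List ℕ × List ℕ) × (List ℕ × List ℕ)) ∈
        rho C (w ++ z ++ w ++ y) := by rw [hy]; exact h00
    rw [happ (w ++ z ++ w) y, happ (w ++ z) w, happ w z] at h3
    obtain ⟨q1, ⟨q, ⟨p, hp, hq⟩, hq1⟩, _⟩ := h3
    exact ⟨(p, q), hp, hq, q1, hq1⟩
  obtain ⟨p, hp⟩ := hexi
  refine ⟨p, hp, ?_⟩
  rintro p' hp'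
  obtain ⟨hp1, hp2, q1, hq1⟩ := hp
  obtain ⟨hp1', hp2', q1', hq1'⟩ := hp'
  obtain ⟨j, hj1, hj2⟩ := hloop _ _ hq1
  obtain ⟨j', hj1', hj2'⟩ := hloop _ _ hq1'
  have hgj : (([], []), j) ∈ g := hgsplit p.1 p.2 j hp1 hp2 hj1
  have hgj' : (([], []), j') ∈ g := hgsplit p'.1 p'.2 j' hp1' hp2' hj1'
  -- from a loop at `j` and `(0,j) ∈ g` get `(j,0) ∈ h`
  have hback : ∀ j : List ℕ × List ℕ, (([], []), j) ∈ g → (j, j) ∈ e → (j, ([], [])) ∈ h := by
    intro j hj hjj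
    have h4 : (j, j) ∈ FE_comp h g := by rw [hhg]; exact hjj
    obtain ⟨k, hk1, hk2⟩ := h4
    have h5 : (([], []), k) ∈ e := by rw [← hgh]; exact ⟨j, hj, hk1⟩
    have h6 : (([], []) : List ℕ × List ℕ) = k := by
      refine h2 C hUD hC w (w ++ z ++ w) ([], []) j ([], []) k (Or.inl rfl) hj.2.1 (Or.inl rfl)
        h5.2.1 h00.2.2 hj.2.2 h5.2.2 hk2.2.2
    rw [← h6] at hk1
    exact hk1
  have hjj' : j = j' := by
    have hb := hback j hgj hj2
    have hb' := hback j' hgj' hj2'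
    have h7 : (j, j') ∈ e := by rw [← hhg]; exact ⟨_, hb, hgj'⟩
    have h8 : (j', j) ∈ e := by rw [← hhg]; exact ⟨_, hb', hgj⟩
    exact h2 C hUD hC w w j j j j' hj2.1 hj2.1 hj2.1 h7.2.1 hj2.2.2 hj2.2.2 h7.2.2 h8.2.2
  subst hjj'
  -- `p.1 = p'.1`
  have hzw : (p.1, j) ∈ rho C (z ++ w) := by rw [happ]; exact ⟨p.2, hp2, hj1⟩
  have hzw' : (p'.1, j) ∈ rho C (z ++ w) := by rw [happ]; exact ⟨p'.2, hp2', hj1'⟩
  have hpp : p'.1 = p.1 :=
    h2 C hUD hC w (z ++ w) ([], []) j p'.1 p.1 (Or.inl rfl) hj2.1 hzw'.1 hzw.1 hp1'.2.2 hzw'.2.2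
      hp1.2.2 hzw.2.2
  have hqq : p'.2 = p.2 := by
    have hp2'' : (p.1, p'.2) ∈ rho C z := by rw [← hpp]; exact hp2'
    exact h2 C hUD hC z w p.1 j p'.2 p.2 hp2.1 hj2.1 hp2''.2.1 hp2.2.1 hp2''.2.2 hj1'.2.2
      hp2.2.2 hj1.2.2
  exact Prod.ext hpp hqq

end Pool.Agent.Helper37.DE
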