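import Pool.Agent.Helper37.DE.St

set_option autoImplicit false

namespace Pool.Agent.Helper37.DE

open Pool.Agent.Helper31.BD Pool.Agent.Helper84.LD Pool.Agent.Helper37.KW

open Classical in
/-- class of a word -/
private noncomputable def FEL_cl (M : Set (List ℕ)) {N : ℕ} (st : List ℕ → Fin N) (t u v : List ℕ) :
    Fin t.length ⊕ (Unit ⊕ (Fin N × (Fin (u.length + 1) → Bool))) :=
  if t <+: v then
    Sum.inr (Sum.inr (st (v.drop t.length),
      fun i => decide (∃ y ∈ M, v.drop t.length = y ++ u.take i.1)))
  else if h : v <+: t ∧ v.length < t.length then Sum.inl ⟨v.length, h.2⟩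
  else Sum.inr (Sum.inl ())

open Classical in
private theorem FEL_one {M : Set (List ℕ)} {N : ℕ} {st : List ℕ → Fin N}
    (hst : ∀ u u' : List ℕ, st u = st u' → ∀ v, (u ++ v ∈ M ↔ u' ++ v ∈ M)) {t u v v' : List ℕ}
    (h : FEL_cl M st t u v = FEL_cl M st t u v') (z : List ℕ)
    (hz : ∃ y ∈ M, v ++ z = t ++ y ++ u) : ∃ y ∈ M, v' ++ z = t ++ y ++ u := by
  obtain ⟨y, hy, hyz⟩ := hz
  by_cases h1 : t <+: v
  · -- both words extend `t`
    have h1' : t <+: v' := by
      by_contra hc
      unfold FEL_cl at h
      rw [if_pos h1, if_neg hc] at h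
      split_ifs at h
      exact absurd h (by simp)
    unfold FEL_cl at h
    rw [if_pos h1, if_pos h1'] at h
    obtain ⟨v1, rfl⟩ := h1
    obtain ⟨v1', rfl⟩ := h1'
    rw [List.drop_left, List.drop_left] at h
    have h2 := Sum.inr.inj (Sum.inr.inj h)
    have h3 : st v1 = st v1' := congrArg Prod.fst h2
    have h4 := congrArg Prod.snd h2
    rw [List.append_assoc, List.append_assoc] at hyz
    have h5 : v1 ++ z = y ++ u := List.append_cancel_left hyz
    rcases List.append_eq_append_iff.1 h5 with ⟨a, ha, hb⟩ | ⟨c, hc, hd⟩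
    · -- `y = v1 ++ a`, `z = a ++ u`
      rw [ha] at hy
      refine ⟨v1' ++ a, (hst v1 v1' h3 a).1 hy, ?_⟩
      rw [hb]
      simp [List.append_assoc]
    · -- `v1 = y ++ c`, `u = c ++ z`
      have hlen : c.length < u.length + 1 := by
        rw [hd, List.length_append]
        omega
      have htk : u.take c.length = c := by
        rw [hd, List.take_left]
      have h6 := congrFun h4 ⟨c.length, hlen⟩
      have h7 : ∃ y ∈ M, v1 = y ++ u.take c.length := ⟨y, hy, by rw [htk]; exact hc⟩
      have h8 : ∃ y ∈ M, v1' = y ++ u.take c.length := by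
        have h9 : decide (∃ y ∈ M, v1 = y ++ u.take c.length) =
          decide (∃ y ∈ M, v1' = y ++ u.take c.length) := h6
        rw [decide_eq_decide] at h9
        exact h9.1 h7
      obtain ⟨y', hy', hv'⟩ := h8
      rw [htk] at hv'
      refine ⟨y', hy', ?_⟩
      rw [hv', hd]
      simp [List.append_assoc]
  · -- `v` is a proper part of `t`
    have h2 : v <+: t ∧ v.length < t.length := by
      rw [List.append_assoc] at hyz
      rcases List.append_eq_append_iff.1 hyz with ⟨a, ha, hb⟩ | ⟨c, hc, hd⟩
      · refine ⟨⟨a, ha.symm⟩, ?_⟩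
        rw [ha, List.length_append]
        have : a ≠ [] := by
          intro h0
          apply h1
          rw [ha, h0, List.append_nil]
        have := List.length_pos_iff.2 this
        omega
      · exact absurd ⟨c, hc.symm⟩ h1
    have h1' : ¬ t <+: v' := by
      intro hc
      unfold FEL_cl at h
      rw [if_neg h1, if_pos hc, dif_pos h2] at h
      exact absurd h (by simp)
    have h2' : v' <+: t ∧ v'.length < t.length := by
      by_contra hc
      unfold FEL_cl at h
      rw [if_neg h1, if_neg h1', dif_pos h2, dif_neg hc] at h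
      exact absurd h (by simp)
    unfold FEL_cl at h
    rw [if_neg h1, if_neg h1', dif_pos h2, dif_pos h2'] at h
    have h3 : v.length = v'.length := congrArg Fin.val (Sum.inl.inj h)
    have h4 : v = v' := by
      obtain ⟨a, ha⟩ := h2.1
      obtain ⟨b, hb⟩ := h2'.1
      have h5 : v ++ a = v' ++ b := ha.trans hb.symm
      exact (List.append_inj h5 h3).1
    rw [← h4]
    exact ⟨y, hy, hyz⟩

theorem hFEL : StFEL := by
  intro M N t u hM
  obtain ⟨st, hst⟩ := hM
  have hcard : Fintype.card (Fin t.length ⊕ (Unit ⊕ (Fin N × (Fin (u.length + 1) → Bool)))) =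
      t.length + 1 + N * 2 ^ (u.length + 1) := by
    simp [Fintype.card_sum, Fintype.card_prod]
    ring
  let e := Fintype.equivFinOfCardEq hcard
  refine ⟨fun v => e (FEL_cl M st t u v), ?_⟩
  intro v v' h z
  have h1 : FEL_cl M st t u v = FEL_cl M st t u v' := e.injective h
  exact ⟨fun hz => FEL_one hst h1 z hz, fun hz => FEL_one hst h1.symm z hz⟩

end Pool.Agent.Helper37.DE
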