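import Pool.Agent.Helper37.DE.St

/-!
# Project DE, module FEM: the submonoid generated by a finite set has few left quotients
-/

set_option autoImplicit false

namespace Pool.Agent.Helper37.DE

open Pool.Agent.Helper31.BD Pool.Agent.Helper84.LD Pool.Agent.Helper37.KW

open Classical in
/-- the suffixes which complete `v` to a product -/
noncomputable def femT (C : Finset (List ℕ)) (v : List ℕ) : Finset (List ℕ) :=
  (mh_suf C).filter fun t => v ++ t ∈ Mon C

theorem mem_femT {C : Finset (List ℕ)} {v t : List ℕ} :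
    t ∈ femT C v ↔ t ∈ mh_suf C ∧ v ++ t ∈ Mon C := by
  classical
  unfold femT
  rw [Finset.mem_filter]

theorem fem_app {C : Finset (List ℕ)} (hne : C.Nonempty) (v z : List ℕ) :
    v ++ z ∈ Mon C ↔ ∃ t ∈ femT C v, ∃ y ∈ Mon C, z = t ++ y := by
  constructor
  · rintro ⟨l, hl, h⟩
    obtain ⟨l1, l2, t, ht, ho1, ho2, h3, h4⟩ := mh_cut hne l v z hl h
    exact ⟨t, mem_femT.2 ⟨ht, l1, ho1, h3.symm⟩, l2.flatten, ⟨l2, ho2, rfl⟩, h4⟩
  · rintro ⟨t, ht, y, ⟨l2, h2, rfl⟩, rfl⟩
    obtain ⟨-, l1, h1, h3⟩ := mem_femT.1 ht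
    refine ⟨l1 ++ l2, over_app h1 h2, ?_⟩
    rw [List.flatten_append, ← h3, List.append_assoc]

theorem fem_mon_empty (z : List ℕ) : z ∈ Mon ∅ ↔ z = [] := by
  constructor
  · rintro ⟨l, hl, rfl⟩
    cases l with
    | nil => rfl
    | cons c l => exact absurd (hl c (by simp)) (Finset.notMem_empty c)
  · rintro rfl
    exact ⟨[], over_nil _, rfl⟩

theorem hFEM : StFEM := by
  classical
  intro C _
  rcases C.eq_empty_or_nonempty with rfl | hne
  · have h2 : 2 ^ ((∑ e ∈ (∅ : Finset (List ℕ)), (e.length + 1)) + 1) = 2 := by simp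
    rw [h2]
    refine ⟨fun u => if u = [] then 0 else 1, fun u u' huu v => ?_⟩
    rw [fem_mon_empty, fem_mon_empty, List.append_eq_nil_iff, List.append_eq_nil_iff]
    by_cases hu : u = []
    · by_cases hu' : u' = []
      · rw [hu, hu']
      · simp [hu, hu'] at huu
    · by_cases hu' : u' = []
      · simp [hu, hu'] at huu
      · simp [hu, hu']
  · set S : Finset (Finset (List ℕ)) := (mh_suf C).powerset with hS
    have hmem : ∀ v : List ℕ, femT C v ∈ S := by
      intro v
      rw [hS, Finset.mem_powerset]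
      unfold femT
      exact Finset.filter_subset _ _
    have hcard : S.card ≤ 2 ^ ((∑ e ∈ C, (e.length + 1)) + 1) := by
      rw [hS, Finset.card_powerset]
      exact Nat.pow_le_pow_right (by norm_num) ((mh_suf_card C).trans (Nat.le_succ _))
    refine ⟨fun v => Fin.castLE hcard (S.equivFin ⟨femT C v, hmem v⟩), fun u u' huu v => ?_⟩
    have h1 : S.equivFin ⟨femT C u, hmem u⟩ = S.equivFin ⟨femT C u', hmem u'⟩ :=
      Fin.castLE_injective hcard huu
    have h2 : femT C u = femT C u' := congrArg Subtype.val (S.equivFin.injective h1)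
    rw [fem_app hne, fem_app hne, h2]

end Pool.Agent.Helper37.DE
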