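import Pool.Agent.Helper37.DE.St

/-!
# Project DE, module FR: representatives of left quotients
-/

set_option autoImplicit false

namespace Pool.Agent.Helper37.DE

open Pool.Agent.Helper31.BD Pool.Agent.Helper84.LD Pool.Agent.Helper37.KW

/-- deleting the part between two prefixes with the same state -/
theorem FR_del {L : Set (List ℕ)} {N : ℕ} (st : List ℕ → Fin N)
    (hst : ∀ u u' : List ℕ, st u = st u' → ∀ v, (u ++ v ∈ L ↔ u' ++ v ∈ L)) (w : List ℕ)
    (hw : N < w.length) :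
    ∃ w2 : List ℕ, w2.length < w.length ∧ (∀ a ∈ w2, a ∈ w) ∧ ∀ z : List ℕ, (w ++ z ∈ L ↔ w2 ++ z ∈ L) := by
  have key : ∀ i j : ℕ, i < j → j ≤ N → st (w.take i) = st (w.take j) →
      ∃ w2 : List ℕ, w2.length < w.length ∧ (∀ a ∈ w2, a ∈ w) ∧ ∀ z : List ℕ, (w ++ z ∈ L ↔ w2 ++ z ∈ L) := by
    intro i j hij hjN he
    refine ⟨w.take i ++ w.drop j, ?_, ?_, ?_⟩
    · rw [List.length_append, List.length_take, List.length_drop]
      omega
    · intro a ha
      rcases List.mem_append.1 ha with h | h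
      · exact List.mem_of_mem_take h
      · exact List.mem_of_mem_drop h
    · intro z
      have h1 := hst _ _ he (w.drop j ++ z)
      rw [List.append_assoc, h1, ← List.append_assoc, List.take_append_drop]
  obtain ⟨i, j, hne, he⟩ := Fintype.exists_ne_map_eq_of_card_lt
    (fun i : Fin (N + 1) => st (w.take i.1)) (by simp)
  rcases lt_or_gt_of_ne (fun h => hne (Fin.ext h) : i.1 ≠ j.1) with h | h
  · exact key i.1 j.1 h (by omega) he
  · exact key j.1 i.1 h (by omega) he.symm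

theorem hFR : StFR := by
  intro L N n hF hL w
  obtain ⟨st, hst⟩ := hF
  have hN : 1 ≤ N := by
    have := (st []).2
    omega
  by_cases hw : ∀ a ∈ w, a < n
  · classical
    have hex : ∃ m : ℕ, ∃ w1 : List ℕ, w1.length = m ∧ (∀ a ∈ w1, a < n) ∧
        ∀ z : List ℕ, (w ++ z ∈ L ↔ w1 ++ z ∈ L) := ⟨w.length, w, rfl, hw, fun _ => Iff.rfl⟩
    obtain ⟨w1, h1, h2, h3⟩ := Nat.find_spec hex
    have hle : w1.length ≤ N := by
      by_contra hgt
      obtain ⟨w2, k1, k2, k3⟩ := FR_del st hst w1 (not_le.1 hgt)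
      exact Nat.find_min hex (h1 ▸ k1) ⟨w2, rfl, fun a ha => h2 a (k2 a ha),
        fun z => (h3 z).trans (k3 z)⟩
    refine ⟨w1, (mem_wdLe _ _ _).2 ⟨hle, fun a ha => lt_trans (h2 a ha) (Nat.lt_succ_self n)⟩, h3⟩
  · push Not at hw
    obtain ⟨a, ha, han⟩ := hw
    refine ⟨[n], (mem_wdLe _ _ _).2 ⟨by simpa using hN, by simp⟩, fun z => ⟨fun h => ?_, fun h => ?_⟩⟩
    · exact absurd (hL _ h a (List.mem_append.2 (Or.inl ha))) (not_lt.2 han)
    · exact absurd (hL _ h n (by simp)) (lt_irrefl n)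

end Pool.Agent.Helper37.DE
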