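import Pool.Agent.Helper37.DE.St

/-!
# Project DE (MP_93aa28_lc): module KAP (few right quotients)
-/

set_option autoImplicit false

namespace Pool.Agent.Helper37.DE

open Pool.Agent.Helper31.BD Pool.Agent.Helper84.LD Pool.Agent.Helper37.KW

namespace KAP

theorem split_iff (R : Set (List ℕ)) (T : Finset (List ℕ)) (d : ℕ) (hT : ∀ t ∈ T, t.length ≤ d)
    (v y : List ℕ) (hv : d < v.length) :
    (∃ t ∈ T, t ≠ [] ∧ ∃ r ∈ R, v ++ y = t ++ r) ↔
      ∃ t ∈ T, t ≠ [] ∧ ∃ v1, v = t ++ v1 ∧ v1 ++ y ∈ R := by
  constructor
  · rintro ⟨t, ht, hne, r, hr, he⟩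
    have hlen : t.length ≤ v.length := by have := hT t ht; omega
    have hpre : t = v.take t.length := by
      have h1 := congrArg (List.take t.length) he
      rw [List.take_append_of_le_length hlen, List.take_left] at h1
      exact h1.symm
    have hdrop : r = v.drop t.length ++ y := by
      have h1 := congrArg (List.drop t.length) he
      rw [List.drop_append_of_le_length hlen, List.drop_left] at h1
      exact h1.symm
    refine ⟨t, ht, hne, v.drop t.length, ?_, ?_⟩
    · conv_lhs => rw [← List.take_append_drop t.length v]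
      rw [← hpre]
    · rw [← hdrop]
      exact hr
  · rintro ⟨t, ht, hne, v1, rfl, hR⟩
    exact ⟨t, ht, hne, v1 ++ y, hR, by rw [List.append_assoc]⟩

end KAP

open KAP in
theorem hKAP : StKAP := by
  classical
  intro x R d w w' T hT hR hrec
  obtain ⟨st, hst⟩ := few_LX x
  -- the code
  have hcard : Fintype.card ((Fin (wdLe x.1 d).length ⊕ Fin (NN x)) → Bool) =
      2 ^ ((wdLe x.1 d).length + NN x) := by
    simp
  let code : List ℕ → ((Fin (wdLe x.1 d).length ⊕ Fin (NN x)) → Bool) := fun y =>
    Sum.elim (fun i => decide ((wdLe x.1 d)[i.1] ++ y ∈ R))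
      (fun c => decide (∃ u : List ℕ, st u = c ∧ u ++ y ++ w' ∈ LX x))
  refine ⟨fun y => Fintype.equivFinOfCardEq hcard (code y), ?_⟩
  intro y y' hκ
  have hc : code y = code y' := (Fintype.equivFinOfCardEq hcard).injective hκ
  -- the language part
  have hL : ∀ u : List ℕ, (u ++ y ++ w' ∈ LX x ↔ u ++ y' ++ w' ∈ LX x) := by
    intro u
    have h1 := congrFun hc (Sum.inr (st u))
    have h2 : (∃ u' : List ℕ, st u' = st u ∧ u' ++ y ++ w' ∈ LX x) ↔
        (∃ u' : List ℕ, st u' = st u ∧ u' ++ y' ++ w' ∈ LX x) := by
      simpa [code] using h1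
    constructor
    · intro h
      obtain ⟨u', hu', h'⟩ := h2.1 ⟨u, rfl, h⟩
      rw [List.append_assoc] at h' ⊢
      exact (hst u' u hu' _).1 h'
    · intro h
      obtain ⟨u', hu', h'⟩ := h2.2 ⟨u, rfl, h⟩
      rw [List.append_assoc] at h' ⊢
      exact (hst u' u hu' _).1 h'
  -- the short words
  have hS : ∀ v : List ℕ, v.length ≤ d → (∀ a ∈ v, a < x.1) → (v ++ y ∈ R ↔ v ++ y' ∈ R) := by
    intro v hv hl
    have hm : v ∈ wdLe x.1 d := (mem_wdLe _ _ _).2 ⟨hv, hl⟩
    obtain ⟨i, hi, he⟩ := List.mem_iff_getElem.1 hm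
    have h1 := congrFun hc (Sum.inl ⟨i, hi⟩)
    have h2 : ((wdLe x.1 d)[i] ++ y ∈ R ↔ (wdLe x.1 d)[i] ++ y' ∈ R) := by
      simpa [code] using h1
    rwa [he] at h2
  -- induction
  have key : ∀ (n : ℕ) (v : List ℕ), v.length = n → (v ++ y ∈ R ↔ v ++ y' ∈ R) := by
    intro n
    induction n using Nat.strong_induction_on with
    | _ n ih =>
      intro v hn
      by_cases hl : ∀ a ∈ v, a < x.1
      · by_cases hd : v.length ≤ d
        · exact hS v hd hl
        · push Not at hd
          have e1 : w ++ (v ++ y) ++ w' = (w ++ v) ++ y ++ w' := by simp [List.append_assoc]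
          have e2 : w ++ (v ++ y') ++ w' = (w ++ v) ++ y' ++ w' := by simp [List.append_assoc]
          rw [hrec (v ++ y) (by rw [List.length_append]; omega),
            hrec (v ++ y') (by rw [List.length_append]; omega),
            split_iff R T d hT v y hd, split_iff R T d hT v y' hd, e1, e2, hL (w ++ v)]
          refine and_congr Iff.rfl (not_congr ?_)
          refine exists_congr fun t => and_congr Iff.rfl ?_
          constructor
          · rintro ⟨hne, v1, hv1, h⟩
            refine ⟨hne, v1, hv1, ?_⟩
            refine (ih v1.length ?_ v1 rfl).1 h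
            rw [← hn, hv1, List.length_append]
            have : 0 < t.length := List.length_pos_iff.2 hne
            omega
          · rintro ⟨hne, v1, hv1, h⟩
            refine ⟨hne, v1, hv1, ?_⟩
            refine (ih v1.length ?_ v1 rfl).2 h
            rw [← hn, hv1, List.length_append]
            have : 0 < t.length := List.length_pos_iff.2 hne
            omega
      · push Not at hl
        obtain ⟨a, ha, hax⟩ := hl
        constructor
        · intro h
          exact absurd (hR _ h a (List.mem_append_left _ ha)) (not_lt.2 hax)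
        · intro h
          exact absurd (hR _ h a (List.mem_append_left _ ha)) (not_lt.2 hax)
  intro v
  exact key v.length v rfl

end Pool.Agent.Helper37.DE
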