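import Pool.Agent.Helper37.DE.St

/-!
# Project DE, module LNG: decidable form of `t C* u`
-/

set_option autoImplicit false

namespace Pool.Agent.Helper37.DE

open Pool.Agent.Helper31.BD Pool.Agent.Helper84.LD Pool.Agent.Helper37.KW

theorem LNG_len (l : List (List ℕ)) (h : [] ∉ l) : l.length ≤ l.flatten.length := by
  induction l with
  | nil => simp
  | cons c l ih =>
    have h1 : c ≠ [] := fun e => h (by rw [e]; exact List.mem_cons_self)
    have h2 : [] ∉ l := fun e => h (List.mem_cons_of_mem _ e)
    have h3 := ih h2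
    have h4 : 0 < c.length := List.length_pos_iff.2 h1
    rw [List.length_cons, List.flatten_cons, List.length_append]
    omega

theorem hLNG : StLNG := by
  intro C t u z h0
  constructor
  · rintro ⟨j, _, l, hl, e⟩
    obtain ⟨_, h2⟩ := (mem_pw C j l).1 hl
    exact ⟨l.flatten, ⟨l, fun c hc => List.mem_toFinset.2 (h2 c hc), rfl⟩, e⟩
  · rintro ⟨y, ⟨l, hl, rfl⟩, e⟩
    have h2 : ∀ c ∈ l, c ∈ C := fun c hc => List.mem_toFinset.1 (hl c hc)
    have h3 := LNG_len l (fun h => h0 (h2 _ h))
    refine ⟨l.length, ?_, l, (mem_pw C _ l).2 ⟨rfl, h2⟩, e⟩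
    rw [e, List.length_append, List.length_append]
    omega

end Pool.Agent.Helper37.DE
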