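import Pool.Agent.Helper37.DE.St

/-!
# Project DE (MP_93aa28_lc), module PIG: pigeonhole
-/

set_option autoImplicit false

namespace Pool.Agent.Helper37.DE

open Pool.Agent.Helper31.BD Pool.Agent.Helper84.LD Pool.Agent.Helper37.KW

theorem hPIG : StPIG := by
  intro N n d st P hst hP
  have key : ∀ k : ℕ, ∀ z : List ℕ, z.length = k → (∀ a ∈ z, a < n) → d ≤ z.length → P z := by
    intro k
    induction k using Nat.strong_induction_on with
    | _ k ih =>
      intro z hk hz hd
      by_cases hl : z.length ≤ d + N
      · exact hP z ((mem_wdLe _ _ _).2 ⟨hl, hz⟩) hd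
      · push Not at hl
        obtain ⟨i, j, hij, hs⟩ := Fintype.exists_ne_map_eq_of_card_lt
          (fun i : Fin (N + 1) => st (z.take i)) (by simp)
        have hwl : ∃ i j : ℕ, i < j ∧ j ≤ N ∧ st (z.take i) = st (z.take j) := by
          rcases lt_or_gt_of_ne hij with h | h
          · exact ⟨i, j, h, by omega, hs⟩
          · exact ⟨j, i, h, by omega, hs.symm⟩
        obtain ⟨i, j, hij, hj, hs⟩ := hwl
        have h1 := (hst _ _ hs (z.drop j)).1
        rw [List.take_append_drop] at *
        have h2 : (z.take i ++ z.drop j).length = i + (z.length - j) := by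
          rw [List.length_append, List.length_take, List.length_drop]
          omega
        have h3 := ih (z.take i ++ z.drop j).length (by omega) _ rfl (by
          intro a ha
          rcases List.mem_append.1 ha with h | h
          · exact hz a (List.mem_of_mem_take h)
          · exact hz a (List.mem_of_mem_drop h)) (by omega)
        have h4 := (hst _ _ hs (z.drop j)).1 h3
        rwa [List.take_append_drop] at h4
  intro z hz hd
  exact key _ z rfl hz hd

end Pool.Agent.Helper37.DE
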