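import Pool.Agent.Helper37.DE.St
import Pool.Agent.Helper31.BD.L

/-!
# Project DE (MP_93aa28_lc), module PX: correctness of the procedure
-/

set_option autoImplicit false

namespace Pool.Agent.Helper37.DE

open Pool.Agent.Helper31.BD Pool.Agent.Helper84.LD Pool.Agent.Helper37.KW

theorem px_lang (x : Inp) (C : List (List ℕ)) (hnd : C.Nodup) (h0 : [] ∉ C)
    (hn : ∀ c ∈ C, ∀ a ∈ c, a < x.1) (hw : ∀ s ∈ wdLe x.1 (KK x C), (s ∈ LX x ↔ FacX C s)) :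
    LX x = Fac C.toFinset := by
  have h0' : [] ∉ C.toFinset := by simpa using h0
  have h1 := short_diff x C.toFinset h0' (by
    intro w hwn hwl
    rw [hw w ((mem_wdLe _ _ _).2 ⟨by rw [KK, D0_eq C hnd]; exact hwl, hwn⟩), facX_iff C h0])
  have hn' : ∀ c ∈ C.toFinset, ∀ a ∈ c, a < x.1 := fun c hc => hn c (List.mem_toFinset.1 hc)
  ext w
  constructor
  · intro hwL
    exact (h1 w hwL.1).1 hwL
  · intro hwF
    exact (h1 w (fac_letters hn' hwF)).2 hwF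

theorem hPX (h1 : Pool.Agent.Helper37.KW.StUD) (h2 : StSHT) (h3 : StTST) (h4 : StWIT) : StPX := by
  intro x d
  constructor
  · rintro ⟨w, -, w', -, T, hT, U, hU, C, hC, c1, c2, c3, c4, c5, c6⟩
    obtain ⟨hnd, hmem⟩ := subs_nodup _ (wdLe_nodup _ _) C hC
    obtain ⟨-, hTm⟩ := subs_nodup _ (wdLe_nodup _ _) T hT
    obtain ⟨-, hUm⟩ := subs_nodup _ (wdLe_nodup _ _) U hU
    have hn : ∀ c ∈ C, ∀ a ∈ c, a < x.1 := fun c hc => ((mem_wdLe _ _ _).1 (hmem c hc)).2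
    have hTl : ∀ t ∈ T, t.length ≤ d ∧ ∀ a ∈ t, a < x.1 := fun t ht => (mem_wdLe _ _ _).1 (hTm t ht)
    have hUl : ∀ u ∈ U, ∀ a ∈ u, a < x.1 := fun u hu => ((mem_wdLe _ _ _).1 (hUm u hu)).2
    have hL := px_lang x C hnd c3 hn c5
    have hW : Wit (LX x) C.toFinset d w w' T.toFinset U.toFinset :=
      (h4 x d C w w' T U c3).2 ⟨c1, fun t ht => (hTl t ht).1, c2,
        h3 x d C w w' T U c3 hn hTl hUl c6⟩
    refine ⟨C.toFinset, (h1 C).1 c4, ⟨w, w', T.toFinset, U.toFinset, ?_⟩, hL⟩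
    rw [← hL]
    exact hW
  · intro h
    obtain ⟨w, hw, w', hw', T, U, C, hT, hU, hC, h0, hUD, hL, hW⟩ := h2 x d h
    obtain ⟨T', hT', -, rfl⟩ := mem_subs _ (wdLe_nodup _ _) T hT
    obtain ⟨U', hU', -, rfl⟩ := mem_subs _ (wdLe_nodup _ _) U hU
    obtain ⟨C', hC', -, rfl⟩ := mem_subs _ (wdLe_nodup _ _) C hC
    have h0' : [] ∉ C' := by simpa using h0
    obtain ⟨k1, -, k3, k4⟩ := (h4 x d C' w w' T' U' h0').1 hW
    refine ⟨w, hw, w', hw', T', hT', U', hU', C', hC', k1, k3, h0', (h1 C').2 hUD, ?_, ?_⟩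
    · intro s _
      rw [facX_iff C' h0', hL]
    · intro z _ hz
      exact k4 z (by omega)

end Pool.Agent.Helper37.DE
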