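import Pool.Agent.Helper37.DE.St
import Pool.Agent.Helper37.KW.M_P2

/-!
# Project DE, module Q1: primitive recursive functions and predicates (1)
-/

set_option autoImplicit false

namespace Pool.Agent.Helper37.DE

open Pool.Agent.Helper31.BD Pool.Agent.Helper84.LD Pool.Agent.Helper37.KW

theorem q1_Lng : PrimrecPred (fun q : List (List ℕ) × (List ℕ × List ℕ × List ℕ) =>
    LngX q.1 q.2.1 q.2.2.1 q.2.2.2) := by
  unfold LngX
  have hz : Primrec fun q : List (List ℕ) × (List ℕ × List ℕ × List ℕ) => q.2.2.2 :=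
    Primrec.snd.comp (Primrec.snd.comp Primrec.snd)
  have hu : Primrec fun q : List (List ℕ) × (List ℕ × List ℕ × List ℕ) => q.2.2.1 :=
    Primrec.fst.comp (Primrec.snd.comp Primrec.snd)
  have ht : Primrec fun q : List (List ℕ) × (List ℕ × List ℕ × List ℕ) => q.2.1 :=
    Primrec.fst.comp Primrec.snd
  refine ctx_exists_lt (Primrec.succ.comp (Primrec.list_length.comp hz)) ?_
  refine ctx_exists_mem (primrec_pw.comp (Primrec.fst.comp Primrec.fst) Primrec.snd) ?_
  have h0 : Primrec fun s : ((List (List ℕ) × (List ℕ × List ℕ × List ℕ)) × ℕ) ×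
      List (List ℕ) => s.1.1 := Primrec.fst.comp Primrec.fst
  refine pp_eq (hz.comp h0) ?_
  exact Primrec.list_append.comp (Primrec.list_append.comp (ht.comp h0)
    (Primrec.list_flatten.comp Primrec.snd)) (hu.comp h0)

theorem q1_B3 : Primrec (fun q : (Inp × ℕ) × (List (List ℕ) × List (List ℕ) × List (List ℕ)) =>
    B3 q.1.1 q.1.2 q.2.1 q.2.2.1 q.2.2.2) := by
  unfold B3
  have hx : Primrec fun q : (Inp × ℕ) × (List (List ℕ) × List (List ℕ) × List (List ℕ)) => q.1.1 :=
    Primrec.fst.comp Primrec.fst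
  have hd : Primrec fun q : (Inp × ℕ) × (List (List ℕ) × List (List ℕ) × List (List ℕ)) => q.1.2 :=
    Primrec.snd.comp Primrec.fst
  have hC : Primrec fun q : (Inp × ℕ) × (List (List ℕ) × List (List ℕ) × List (List ℕ)) => q.2.1 :=
    Primrec.fst.comp Primrec.snd
  have hT : Primrec fun q : (Inp × ℕ) × (List (List ℕ) × List (List ℕ) × List (List ℕ)) =>
      q.2.2.1 := Primrec.fst.comp (Primrec.snd.comp Primrec.snd)
  have hU : Primrec fun q : (Inp × ℕ) × (List (List ℕ) × List (List ℕ) × List (List ℕ)) =>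
      q.2.2.2 := Primrec.snd.comp (Primrec.snd.comp Primrec.snd)
  refine Primrec.nat_add.comp hd (p2_pow.comp ?_ ?_)
  · refine Primrec.nat_add.comp (Primrec.nat_add.comp (Primrec.nat_add.comp
      (mj_primrec_NN.comp hx) hd) (Primrec.const 2)) ?_
    exact Primrec.nat_mul.comp (mj_primrec_pow2.comp (mj_primrec_D0.comp hC))
      (mj_primrec_pow2.comp (Primrec.succ.comp (mj_primrec_D0.comp hU)))
  · exact Primrec.succ.comp (Primrec.nat_mul.comp (Primrec.list_length.comp hT)
      (Primrec.list_length.comp hU))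

theorem q1_B2 : Primrec (fun q : Inp × ℕ => B2 q.1 q.2) := by
  unfold B2
  refine mj_primrec_pow2.comp (mj_primrec_pow2.comp (Primrec.nat_add.comp
    (Primrec.list_length.comp ?_) (mj_primrec_NN.comp Primrec.fst)))
  exact mj_primrec_wdLe.comp (Primrec.fst.comp Primrec.fst) Primrec.snd

theorem hQ1 : StQ1 := ⟨q1_Lng, q1_B3, q1_B2⟩

end Pool.Agent.Helper37.DE
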