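import Pool.Agent.Helper37.DE.St
import Pool.Agent.Helper31.BD.L

/-!
# Project DE (MP_93aa28_lc), module Q2: the test for one candidate is primitive recursive
-/

set_option autoImplicit false

namespace Pool.Agent.Helper37.DE

open Pool.Agent.Helper31.BD Pool.Agent.Helper84.LD Pool.Agent.Helper37.KW

/-- the type of the candidates -/
abbrev Q2T : Type :=
  (Inp × ℕ) × (List (List ℕ) × (List ℕ × List ℕ) × (List (List ℕ) × List (List ℕ)))

theorem q2_C : Primrec fun q : Q2T => q.2.1 := Primrec.fst.comp Primrec.snd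
theorem q2_x : Primrec fun q : Q2T => q.1.1 := Primrec.fst.comp Primrec.fst
theorem q2_d : Primrec fun q : Q2T => q.1.2 := Primrec.snd.comp Primrec.fst
theorem q2_w : Primrec fun q : Q2T => q.2.2.1.1 :=
  Primrec.fst.comp (Primrec.fst.comp (Primrec.snd.comp Primrec.snd))
theorem q2_w' : Primrec fun q : Q2T => q.2.2.1.2 :=
  Primrec.snd.comp (Primrec.fst.comp (Primrec.snd.comp Primrec.snd))
theorem q2_T : Primrec fun q : Q2T => q.2.2.2.1 :=
  Primrec.fst.comp (Primrec.snd.comp (Primrec.snd.comp Primrec.snd))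
theorem q2_U : Primrec fun q : Q2T => q.2.2.2.2 :=
  Primrec.snd.comp (Primrec.snd.comp (Primrec.snd.comp Primrec.snd))

theorem q2_lng (h : StQ1) {σ : Type*} [Primcodable σ] {C : σ → List (List ℕ)}
    {t u z : σ → List ℕ} (hC : Primrec C) (ht : Primrec t) (hu : Primrec u) (hz : Primrec z) :
    PrimrecPred fun s => LngX (C s) (t s) (u s) (z s) :=
  h.1.comp (Primrec.pair hC (Primrec.pair ht (Primrec.pair hu hz)))

theorem q2_phi (h : StQ1) : PrimrecPred fun q : Q2T × List ℕ =>
    Phi q.1.1.1 q.1.2.1 q.1.2.2.1.1 q.1.2.2.1.2 q.1.2.2.2.1 q.1.2.2.2.2 q.2 := by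
  unfold Phi
  refine PrimrecPred.and ?_ ?_
  · refine pp_iff ?_ ?_
    · exact mj_pp_LX.comp (Primrec.pair (q2_x.comp Primrec.fst)
        (Primrec.list_append.comp (Primrec.list_append.comp (q2_w.comp Primrec.fst) Primrec.snd)
          (q2_w'.comp Primrec.fst)))
    · refine ctx_exists_mem (q2_T.comp Primrec.fst) ?_
      refine ctx_exists_mem (q2_U.comp (Primrec.fst.comp Primrec.fst)) ?_
      exact q2_lng h (q2_C.comp (Primrec.fst.comp (Primrec.fst.comp Primrec.fst)))
        (Primrec.snd.comp Primrec.fst) Primrec.snd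
        (Primrec.snd.comp (Primrec.fst.comp Primrec.fst))
  · refine ctx_forall_mem (q2_T.comp Primrec.fst) ?_
    refine ctx_forall_mem (q2_U.comp (Primrec.fst.comp Primrec.fst)) ?_
    refine ctx_forall_mem (q2_T.comp (Primrec.fst.comp (Primrec.fst.comp Primrec.fst))) ?_
    refine ctx_forall_mem (q2_U.comp (Primrec.fst.comp (Primrec.fst.comp
      (Primrec.fst.comp Primrec.fst)))) ?_
    have hq : Primrec fun s : ((((Q2T × List ℕ) × List ℕ) × List ℕ) × List ℕ) × List ℕ =>
        s.1.1.1.1 := Primrec.fst.comp (Primrec.fst.comp (Primrec.fst.comp Primrec.fst))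
    have ht : Primrec fun s : ((((Q2T × List ℕ) × List ℕ) × List ℕ) × List ℕ) × List ℕ =>
        s.1.1.1.2 := Primrec.snd.comp (Primrec.fst.comp (Primrec.fst.comp Primrec.fst))
    have hu : Primrec fun s : ((((Q2T × List ℕ) × List ℕ) × List ℕ) × List ℕ) × List ℕ =>
        s.1.1.2 := Primrec.snd.comp (Primrec.fst.comp Primrec.fst)
    have ht' : Primrec fun s : ((((Q2T × List ℕ) × List ℕ) × List ℕ) × List ℕ) × List ℕ =>
        s.1.2 := Primrec.snd.comp Primrec.fst
    have hu' : Primrec fun s : ((((Q2T × List ℕ) × List ℕ) × List ℕ) × List ℕ) × List ℕ =>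
        s.2 := Primrec.snd
    have hC := q2_C.comp (Primrec.fst.comp hq)
    have hz : Primrec fun s : ((((Q2T × List ℕ) × List ℕ) × List ℕ) × List ℕ) × List ℕ =>
        s.1.1.1.1.2 := Primrec.snd.comp hq
    refine pp_imp (q2_lng h hC ht hu hz) (pp_imp (q2_lng h hC ht' hu' hz)
      (PrimrecPred.and (pp_eq ht ht') (pp_eq hu hu')))

theorem hQ2 (h1 : Pool.Agent.Helper37.KW.StP1) (h2 : StQ1) : StQ2 := by
  unfold StQ2 CT
  refine PrimrecPred.and ?_ (PrimrecPred.and ?_ (PrimrecPred.and ?_ (PrimrecPred.and ?_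
    (PrimrecPred.and ?_ ?_))))
  · exact pp_mem (Primrec.const []) q2_T
  · exact (pp_eq q2_U (Primrec.const [])).not
  · exact (pp_mem (Primrec.const []) q2_C).not
  · exact h1.1.comp q2_C
  · refine ctx_forall_mem (mj_primrec_wdLe.comp (Primrec.fst.comp q2_x)
      (Primrec.nat_mul.comp (mj_primrec_NN.comp q2_x)
        (mj_primrec_pow2.comp (mj_primrec_D0.comp q2_C)))) ?_
    refine pp_iff ?_ ?_
    · exact mj_pp_LX.comp (Primrec.pair (q2_x.comp Primrec.fst) Primrec.snd)
    · exact mj_pp_FacX.comp (Primrec.pair (q2_C.comp Primrec.fst) Primrec.snd)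
  · unfold TST
    refine ctx_forall_mem (mj_primrec_wdLe.comp (Primrec.fst.comp q2_x)
      (h2.2.1.comp (Primrec.pair (Primrec.pair q2_x q2_d)
        (Primrec.pair q2_C (Primrec.pair q2_T q2_U))))) ?_
    refine pp_imp ?_ ?_
    · exact Primrec.nat_lt.comp (q2_d.comp Primrec.fst)
        (Primrec.succ.comp (Primrec.list_length.comp Primrec.snd))
    · exact q2_phi h2

end Pool.Agent.Helper37.DE
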