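import Pool.Agent.Helper37.DE.St

/-!
# Project DE: module Q3 (primitive recursive 3)
-/

set_option autoImplicit false

namespace Pool.Agent.Helper37.DE

open Pool.Agent.Helper31.BD Pool.Agent.Helper84.LD Pool.Agent.Helper37.KW

theorem hQ3 (h1 : StQ1) (h2 : StQ2) : StQ3 := by
  have hNN := mj_primrec_NN
  unfold StQ3 PX2
  -- w
  refine ctx_exists_mem (L := fun q : Inp × ℕ => wdLe (q.1.1 + 1) (NN q.1))
    (mj_primrec_wdLe.comp (Primrec.succ.comp (Primrec.fst.comp Primrec.fst))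
      (hNN.comp Primrec.fst)) ?_
  -- w'
  refine ctx_exists_mem (L := fun q : (Inp × ℕ) × List ℕ => wdLe (q.1.1.1 + 1) (2 ^ NN q.1.1))
    (mj_primrec_wdLe.comp (Primrec.succ.comp (Primrec.fst.comp (Primrec.fst.comp Primrec.fst)))
      (mj_primrec_pow2.comp (hNN.comp (Primrec.fst.comp Primrec.fst)))) ?_
  -- T
  refine ctx_exists_mem (L := fun q : ((Inp × ℕ) × List ℕ) × List ℕ => subs (wdLe q.1.1.1.1 q.1.1.2))
    (primrec_subs.comp (mj_primrec_wdLe.comp
      (Primrec.fst.comp (Primrec.fst.comp (Primrec.fst.comp Primrec.fst)))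
      (Primrec.snd.comp (Primrec.fst.comp Primrec.fst)))) ?_
  -- U
  have hq3 : Primrec fun q : (((Inp × ℕ) × List ℕ) × List ℕ) × List (List ℕ) => q.1.1.1 :=
    Primrec.fst.comp (Primrec.fst.comp Primrec.fst)
  refine ctx_exists_mem (L := fun q : (((Inp × ℕ) × List ℕ) × List ℕ) × List (List ℕ) =>
      subs (wdLe q.1.1.1.1.1 (B2 q.1.1.1.1 q.1.1.1.2)))
    (primrec_subs.comp (mj_primrec_wdLe.comp
      (Primrec.fst.comp (Primrec.fst.comp hq3)) (h1.2.2.comp hq3))) ?_
  -- C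
  have hq4 : Primrec fun q : ((((Inp × ℕ) × List ℕ) × List ℕ) × List (List ℕ)) × List (List ℕ) =>
      q.1.1.1.1 := Primrec.fst.comp (Primrec.fst.comp (Primrec.fst.comp Primrec.fst))
  refine ctx_exists_mem (L := fun q : ((((Inp × ℕ) × List ℕ) × List ℕ) × List (List ℕ)) ×
      List (List ℕ) => subs (wdLe q.1.1.1.1.1.1 (B2 q.1.1.1.1.1 q.1.1.1.1.2)))
    (primrec_subs.comp (mj_primrec_wdLe.comp
      (Primrec.fst.comp (Primrec.fst.comp hq4)) (h1.2.2.comp hq4))) ?_
  -- CT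
  have hq5 : Primrec fun q : (((((Inp × ℕ) × List ℕ) × List ℕ) × List (List ℕ)) ×
      List (List ℕ)) × List (List ℕ) => q.1.1.1.1.1 :=
    Primrec.fst.comp (Primrec.fst.comp (Primrec.fst.comp (Primrec.fst.comp Primrec.fst)))
  have hC : Primrec fun q : (((((Inp × ℕ) × List ℕ) × List ℕ) × List (List ℕ)) ×
      List (List ℕ)) × List (List ℕ) => q.2 := Primrec.snd
  have hw : Primrec fun q : (((((Inp × ℕ) × List ℕ) × List ℕ) × List (List ℕ)) ×
      List (List ℕ)) × List (List ℕ) => q.1.1.1.1.2 :=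
    Primrec.snd.comp (Primrec.fst.comp (Primrec.fst.comp (Primrec.fst.comp Primrec.fst)))
  have hw' : Primrec fun q : (((((Inp × ℕ) × List ℕ) × List ℕ) × List (List ℕ)) ×
      List (List ℕ)) × List (List ℕ) => q.1.1.1.2 :=
    Primrec.snd.comp (Primrec.fst.comp (Primrec.fst.comp Primrec.fst))
  have hT : Primrec fun q : (((((Inp × ℕ) × List ℕ) × List ℕ) × List (List ℕ)) ×
      List (List ℕ)) × List (List ℕ) => q.1.1.2 :=
    Primrec.snd.comp (Primrec.fst.comp Primrec.fst)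
  have hU : Primrec fun q : (((((Inp × ℕ) × List ℕ) × List ℕ) × List (List ℕ)) ×
      List (List ℕ)) × List (List ℕ) => q.1.2 :=
    Primrec.snd.comp Primrec.fst
  exact h2.comp (Primrec.pair hq5 (Primrec.pair hC (Primrec.pair (Primrec.pair hw hw')
    (Primrec.pair hT hU))))

end Pool.Agent.Helper37.DE
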