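import Pool.Agent.Helper37.DE.St

/-!
# Project DE: module R1 (consequences of a witness)
-/

set_option autoImplicit false

namespace Pool.Agent.Helper37.DE

open Pool.Agent.Helper31.BD Pool.Agent.Helper84.LD Pool.Agent.Helper37.KW

private theorem r1_mul {C : Finset (List ℕ)} {y y' : List ℕ} (h : y ∈ Mon C) (h' : y' ∈ Mon C) :
    y ++ y' ∈ Mon C := by
  obtain ⟨l, hl, rfl⟩ := h
  obtain ⟨l', hl', rfl⟩ := h'
  exact ⟨l ++ l', over_app hl hl', by rw [List.flatten_append]⟩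

private theorem r1_long {C : Finset (List ℕ)} (hC : C.Nonempty) (h0 : [] ∉ C) (d : ℕ) :
    ∃ m ∈ Mon C, d ≤ m.length := by
  obtain ⟨c, hc⟩ := hC
  have hc0 : 1 ≤ c.length := by
    rcases Nat.eq_zero_or_pos c.length with h | h
    · exact absurd (List.length_eq_zero_iff.1 h ▸ hc) h0
    · exact h
  refine ⟨(List.replicate d c).flatten, ⟨List.replicate d c, ?_, rfl⟩, ?_⟩
  · intro e he
    rw [(List.mem_replicate.1 he).2]; exact hc
  · rw [List.length_flatten, List.map_replicate, List.sum_replicate, smul_eq_mul]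
    nlinarith

theorem hR1 : StR1 := by
  intro L C d w w' T U hC h0 hW
  obtain ⟨m, hm, hmd⟩ := r1_long hC h0 d
  have c1 : ∀ y ∈ Mon C, ∀ u ∈ U, ∀ y' ∈ Mon C, ∀ u' ∈ U, y ++ u = y' ++ u' → y = y' ∧ u = u' := by
    intro y hy u hu y' hy' u' hu' e
    have h := hW.un [] hW.nilT (m ++ y) (r1_mul hm hy) u hu [] hW.nilT (m ++ y') (r1_mul hm hy') u' hu'
      (by simp only [List.nil_append, List.length_append]; omega)
      (by simp only [List.nil_append, List.append_assoc]; rw [e])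
    exact ⟨List.append_cancel_left h.2.1, h.2.2⟩
  have c2 : ∀ t ∈ T, ∀ r ∈ Rs C U, ∀ t' ∈ T, ∀ r' ∈ Rs C U, d ≤ (t ++ r).length →
      t ++ r = t' ++ r' → t = t' ∧ r = r' := by
    intro t ht r hr t' ht' r' hr' hd e
    obtain ⟨y, hy, u, hu, rfl⟩ := hr
    obtain ⟨y', hy', u', hu', rfl⟩ := hr'
    have h := hW.un t ht y hy u hu t' ht' y' hy' u' hu'
      (by rw [List.append_assoc]; exact hd)
      (by rw [List.append_assoc, List.append_assoc]; exact e)
    exact ⟨h.1, by rw [h.2.1, h.2.2]⟩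
  refine ⟨c1, c2, ?_⟩
  intro z hz
  constructor
  · intro hr
    have hr' := hr
    obtain ⟨y, hy, u, hu, e⟩ := hr
    refine ⟨(hW.eq z hz).2 ⟨[], hW.nilT, y, hy, u, hu, by rw [e]; rfl⟩, ?_⟩
    rintro ⟨t, ht, hne, r, hrr, e2⟩
    have h := c2 [] hW.nilT z hr' t ht r hrr (by simpa using hz) (by simpa using e2)
    exact hne h.1.symm
  · rintro ⟨h1, h2⟩
    obtain ⟨t, ht, y, hy, u, hu, e⟩ := (hW.eq z hz).1 h1
    by_cases hne : t = []
    · refine ⟨y, hy, u, hu, ?_⟩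
      rw [e, hne]; rfl
    · exact absurd ⟨t, ht, hne, y ++ u, ⟨y, hy, u, hu, rfl⟩, by rw [e, List.append_assoc]⟩ h2

end Pool.Agent.Helper37.DE
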