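import Pool.Agent.Helper37.DE.St

/-!
# Project DE, module REP: representatives of contexts
-/

set_option autoImplicit false

namespace Pool.Agent.Helper37.DE

open Pool.Agent.Helper31.BD Pool.Agent.Helper84.LD Pool.Agent.Helper37.KW

theorem rpMem (L : Set (List ℕ)) (w : List ℕ) : w ∈ List.reverse '' L ↔ w.reverse ∈ L := by
  constructor
  · rintro ⟨v, hv, rfl⟩
    simpa using hv
  · intro h
    exact ⟨w.reverse, h, by simp⟩

theorem hREP (h1 : StFR) : StREP := by
  intro x w w'
  obtain ⟨w1, hw1, h2⟩ := h1 (LX x) (NN x) x.1 (few_LX x) (fun v hv => LX_lt hv) w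
  obtain ⟨w2, hw2, h3⟩ := h1 (List.reverse '' LX x) (2 ^ NN x) x.1 (few_rev x)
    (fun v hv a ha => LX_lt ((rpMem (LX x) v).1 hv) a (by simpa using ha)) w'.reverse
  refine ⟨w1, hw1, w2.reverse, ?_, ?_⟩
  · rw [mem_wdLe] at hw2 ⊢
    simpa using hw2
  · intro z
    have e1 := h2 (z ++ w')
    have e2 := h3 (w1 ++ z).reverse
    rw [rpMem, rpMem] at e2
    simp only [List.reverse_append, List.reverse_reverse] at e2
    rw [List.append_assoc, e1, ← List.append_assoc]
    exact e2

end Pool.Agent.Helper37.DE
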