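import Pool.Agent.Helper37.DE.St

/-!
# Project DE, module SHT: short candidates
-/

set_option autoImplicit false

namespace Pool.Agent.Helper37.DE

open Pool.Agent.Helper31.BD Pool.Agent.Helper84.LD Pool.Agent.Helper37.KW

private theorem over_empty {l : List (List ℕ)} (h : Over ∅ l) : l = [] := by
  cases l with
  | nil => rfl
  | cons a l => exact absurd (h a (by simp)) (by simp)

private theorem fac_empty (z : List ℕ) : z ∈ Fac ∅ ↔ z = [] := by
  constructor
  · rintro ⟨u, v, l, hl, h⟩
    rw [over_empty hl] at h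
    have : u ++ z ++ v = [] := by simpa using h
    simp at this
    exact this.2.1
  · rintro rfl
    exact nil_mem_Fac ∅

private theorem mon_empty (y : List ℕ) : y ∈ Mon ∅ ↔ y = [] := by
  constructor
  · rintro ⟨l, hl, h⟩
    rw [over_empty hl] at h
    simpa using h
  · rintro rfl
    exact ⟨[], over_nil ∅, by simp⟩

private theorem len_rep {c : List ℕ} (hc : c ≠ []) (d : ℕ) :
    d ≤ (List.replicate d c).flatten.length := by
  rw [List.length_flatten, List.map_replicate, List.sum_replicate]
  have : 1 ≤ c.length := List.length_pos_iff.2 hc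
  simp only [smul_eq_mul]
  nlinarith

theorem hSHT (h1 : StREP) (h2 : StR1) (h3 : StKAP) (h4 : StDC1) (h5 : StTREE) (h6 : StTRF) :
    StSHT := by
  intro x d ⟨C, hUD, ⟨w, w', T, U, hW⟩, hL⟩
  rcases Finset.eq_empty_or_nonempty C with hC | hne
  · subst hC
    refine ⟨[], ?_, [], ?_, {[]}, {[]}, ∅, ?_, ?_, ?_, ?_, hUD, hL, ?_⟩
    · rw [mem_wdLe]; simp
    · rw [mem_wdLe]; simp
    · intro t ht
      rw [Finset.mem_singleton] at ht
      subst ht
      rw [mem_wdLe]; simp
    · intro t ht
      rw [Finset.mem_singleton] at ht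
      subst ht
      rw [mem_wdLe]; simp
    · intro c hc
      simp at hc
    · simp
    · refine ⟨by simp, ?_, ⟨[], by simp⟩, ?_, ?_⟩
      · intro t ht
        rw [Finset.mem_singleton] at ht
        subst ht
        simp
      · intro z _
        rw [hL, fac_empty]
        constructor
        · intro h
          refine ⟨[], by simp, [], (mon_empty []).2 rfl, [], by simp, ?_⟩
          simpa using h
        · rintro ⟨t, ht, y, hy, u, hu, hz⟩
          rw [Finset.mem_singleton] at ht hu
          rw [mon_empty] at hy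
          subst ht hu hy
          simpa using hz
      · intro t ht y hy u hu t' ht' y' hy' u' hu' _ _
        rw [Finset.mem_singleton] at ht hu ht' hu'
        rw [mon_empty] at hy hy'
        subst ht hu hy ht' hu' hy'
        exact ⟨rfl, rfl, rfl⟩
  · have hnil : [] ∉ C := ud_nil hUD
    obtain ⟨r1, r2, r3⟩ := h2 (Fac C) C d w w' T U hne hnil hW
    obtain ⟨c, hc⟩ := hne
    have hcne : c ≠ [] := fun h => hnil (h ▸ hc)
    obtain ⟨u0, hu0⟩ := hW.neU
    have hmO : Over C (List.replicate d c) := by
      intro a ha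
      rw [List.eq_of_mem_replicate ha]
      exact hc
    have hml := len_rep hcne d
    have hR : ∀ z ∈ Rs C U, ∀ a ∈ z, a < x.1 := by
      rintro z ⟨y, ⟨l, hl, rfl⟩, u, hu, rfl⟩ a ha
      have hm : w ++ ((List.replicate d c).flatten ++ l.flatten ++ u) ++ w' ∈ Fac C := by
        rw [hW.eq _ (by simp only [List.length_append]; omega)]
        refine ⟨[], hW.nilT, (List.replicate d c).flatten ++ l.flatten,
          ⟨List.replicate d c ++ l, over_app hmO hl, by simp⟩, u, hu, by simp⟩
      rw [← hL] at hm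
      refine LX_lt hm a ?_
      simp only [List.mem_append] at ha ⊢
      tauto
    have hT : ∀ t ∈ T, ∀ a ∈ t, a < x.1 := by
      intro t ht a ha
      have hm : w ++ (t ++ (List.replicate d c).flatten ++ u0) ++ w' ∈ Fac C := by
        rw [hW.eq _ (by simp only [List.length_append]; omega)]
        exact ⟨t, ht, (List.replicate d c).flatten, ⟨List.replicate d c, hmO, rfl⟩, u0, hu0, rfl⟩
      rw [← hL] at hm
      refine LX_lt hm a ?_
      simp only [List.mem_append]
      tauto
    obtain ⟨κ, hκ⟩ := h3 x (Rs C U) d w w' T hW.lenT hR (by rw [hL]; exact r3)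
    have hDec := h4 C U hUD hnil r1
    obtain ⟨C', U', hn', hC', hU', hDec'⟩ := h5 (Rs C U) x.1 _ κ C U hR hκ hnil hDec
    obtain ⟨hUD', hFac', hW'⟩ := h6 C d w w' T U C' U' ⟨c, hc⟩ hnil hW hn' hDec'
    obtain ⟨w1, hw1, w1', hw1', hrep⟩ := h1 x w w'
    refine ⟨w1, hw1, w1', hw1', T, U', C', ?_, ?_, ?_, hn', hUD', hL.trans hFac'.symm, ?_⟩
    · intro t ht
      rw [mem_wdLe]
      exact ⟨hW.lenT t ht, hT t ht⟩
    · intro u hu
      rw [mem_wdLe]
      exact hU' u hu
    · intro u hu
      rw [mem_wdLe]
      exact hC' u hu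
    · refine ⟨hW'.nilT, hW'.lenT, hW'.neU, ?_, hW'.un⟩
      intro z hz
      rw [← hW'.eq z hz, ← hrep z, hL]

end Pool.Agent.Helper37.DE
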