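import Pool.Agent.Helper37.DE.St

/-!
# Project DE, module STB: stabilisation of the one player game (helper8)
-/

set_option autoImplicit false

namespace Pool.Agent.Helper37.DE

open Pool.Agent.Helper31.BD Pool.Agent.Helper84.LD Pool.Agent.Helper37.KW

theorem STB_succ (R : Set (List ℕ)) (n : ℕ) :
    ∀ (k : ℕ) (G : Set (List ℕ)), Rk R n k G → Rk R n (k + 1) G := by
  intro k
  induction k with
  | zero =>
    intro G hG
    have hG' : G = ∅ := hG
    refine Or.inl fun a _ => ?_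
    show {y | a :: y ∈ G} = ∅
    rw [hG']
    rfl
  | succ k ih =>
    intro G hG
    rcases hG with h | ⟨h1, h2⟩
    · exact Or.inl fun a ha => ih _ (h a ha)
    · exact Or.inr ⟨h1, fun a ha => ih _ (h2 a ha)⟩

theorem STB_clo1 {R G : Set (List ℕ)} (hG : Clo R G) (a : ℕ) : Clo R {y | a :: y ∈ G} := by
  intro y y' h hy
  refine hG (a :: y) (a :: y') (fun v => ?_) hy
  have := h (v ++ [a])
  simpa using this

theorem STB_clo2 {R G : Set (List ℕ)} (hG : Clo R G) (a : ℕ) :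
    Clo R {y | a :: y ∈ G ∧ a :: y ∉ R} := by
  intro y y' h hy
  refine ⟨STB_clo1 hG a y y' h hy.1, fun h' => hy.2 ?_⟩
  have := h [a]
  simpa using this.2 h'

theorem STB_det {R : Set (List ℕ)} {m : ℕ} {κ : List ℕ → Fin m}
    (hκ : ∀ y y' : List ℕ, κ y = κ y' → ∀ v : List ℕ, (v ++ y ∈ R ↔ v ++ y' ∈ R))
    {G G' : Set (List ℕ)} (hG : Clo R G) (hG' : Clo R G') (h : κ '' G = κ '' G') : G = G' := by
  ext y
  constructor
  · intro hy
    have h1 : κ y ∈ κ '' G' := by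
      rw [← h]
      exact ⟨y, hy, rfl⟩
    obtain ⟨y', hy', he⟩ := h1
    exact hG' y' y (hκ y' y he) hy'
  · intro hy
    have h1 : κ y ∈ κ '' G := by
      rw [h]
      exact ⟨y, hy, rfl⟩
    obtain ⟨y', hy', he⟩ := h1
    exact hG y' y (hκ y' y he) hy'

theorem hSTB : StSTB := by
  intro R n m κ hκ k G hG hk
  obtain ⟨S, hS⟩ : ∃ S : ℕ → Set (Set (Fin m)), ∀ k A, A ∈ S k ↔
      ∃ G, Clo R G ∧ A = κ '' G ∧ Rk R n k G :=
    ⟨fun k => {A | ∃ G, Clo R G ∧ A = κ '' G ∧ Rk R n k G}, fun _ _ => Iff.rfl⟩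
  have hS' : ∀ k G, Clo R G → (κ '' G ∈ S k ↔ Rk R n k G) := by
    intro k G hG
    rw [hS]
    constructor
    · rintro ⟨G', h1, h2, h3⟩
      rw [STB_det hκ hG h1 h2]
      exact h3
    · intro h
      exact ⟨G, hG, rfl, h⟩
  have h1 : ∀ k, S k ⊆ S (k + 1) := by
    intro k A hA
    rw [hS] at hA ⊢
    obtain ⟨G, h1, h2, h3⟩ := hA
    exact ⟨G, h1, h2, STB_succ R n k G h3⟩
  have h2 : ∀ k, S k = S (k + 1) → S (k + 1) = S (k + 2) := by
    intro k h
    refine Set.Subset.antisymm (h1 _) ?_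
    intro A hA
    rw [hS] at hA ⊢
    obtain ⟨G, g1, g2, g3⟩ := hA
    refine ⟨G, g1, g2, ?_⟩
    rcases g3 with g3 | ⟨g3, g4⟩
    · refine Or.inl fun a ha => ?_
      have e1 := (hS' (k + 1) _ (STB_clo1 g1 a)).2 (g3 a ha)
      rw [← h] at e1
      exact (hS' k _ (STB_clo1 g1 a)).1 e1
    · refine Or.inr ⟨g3, fun a ha => ?_⟩
      have e1 := (hS' (k + 1) _ (STB_clo2 g1 a)).2 (g4 a ha)
      rw [← h] at e1
      exact (hS' k _ (STB_clo2 g1 a)).1 e1
  have h3 := mono_stab S h1 h2 k ((hS' k G hG).2 hk)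
  have h6 : Fintype.card (Set (Fin m)) = 2 ^ m := by
    rw [Fintype.card_set, Fintype.card_fin]
  rw [h6] at h3
  exact (hS' _ G hG).1 h3

end Pool.Agent.Helper37.DE
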