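import Pool.Agent.Helper37.DE.St

/-!
# Project DE, module TR2: a rank gives a tiling
-/

set_option autoImplicit false

namespace Pool.Agent.Helper37.DE

open Pool.Agent.Helper31.BD Pool.Agent.Helper84.LD Pool.Agent.Helper37.KW

/-- the words `a :: e` with `a < n`, `e ∈ F a` -/
def TR2_cn (n : ℕ) (F : ℕ → Finset (List ℕ)) : Finset (List ℕ) :=
  (Finset.range n).biUnion fun a => (F a).image fun e => a :: e

theorem TR2_nil (n : ℕ) (F : ℕ → Finset (List ℕ)) : [] ∉ TR2_cn n F := by
  unfold TR2_cn
  rw [Finset.mem_biUnion]
  rintro ⟨a, _, h⟩
  rw [Finset.mem_image] at h
  obtain ⟨e, _, h⟩ := h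
  simp at h

theorem TR2_cons (n : ℕ) (F : ℕ → Finset (List ℕ)) (a : ℕ) (e : List ℕ) :
    a :: e ∈ TR2_cn n F ↔ a < n ∧ e ∈ F a := by
  unfold TR2_cn
  rw [Finset.mem_biUnion]
  constructor
  · rintro ⟨b, hb, h⟩
    rw [Finset.mem_image] at h
    obtain ⟨f, hf, h⟩ := h
    rw [List.cons.injEq] at h
    obtain ⟨rfl, rfl⟩ := h
    exact ⟨Finset.mem_range.1 hb, hf⟩
  · rintro ⟨h1, h2⟩
    exact ⟨a, Finset.mem_range.2 h1, Finset.mem_image.2 ⟨e, h2, rfl⟩⟩

/-- **TR2** -/
theorem hTR2 : StTR2 := by
  classical
  intro R n k
  induction k with
  | zero =>
    intro G _ hG
    have hG' : G = ∅ := hG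
    refine ⟨∅, ∅, ?_, ?_, ?_, ?_, ?_⟩
    · intro e he; exact absurd he (Finset.notMem_empty _)
    · intro e he; exact absurd he (Finset.notMem_empty _)
    · intro z
      rw [hG']
      constructor
      · intro h; exact absurd h (Set.notMem_empty _)
      · rintro (h | ⟨e, he, _⟩)
        · exact absurd h (Finset.notMem_empty _)
        · exact absurd he (Finset.notMem_empty _)
    · intro e he; exact absurd he (Finset.notMem_empty _)
    · intro e he; exact absurd he (Finset.notMem_empty _)
  | succ k ih =>
    intro G hGn hG
    rcases hG with hG | ⟨hRG, hG⟩
    · have h1 : ∀ a, ∃ E V : Finset (List ℕ), a < n → (∀ e ∈ E, e.length < k ∧ ∀ b ∈ e, b < n) ∧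
          (∀ v ∈ V, v.length < k ∧ ∀ b ∈ v, b < n) ∧
          (∀ z, a :: z ∈ G ↔ z ∈ V ∨ ∃ e ∈ E, ∃ r ∈ R, z = e ++ r) ∧
          (∀ e ∈ E, ∀ r ∈ R, e ++ r ∉ V) ∧
          ∀ e ∈ E, ∀ r ∈ R, ∀ e' ∈ E, ∀ r' ∈ R, e ++ r = e' ++ r' → e = e' := by
        intro a
        by_cases ha : a < n
        · obtain ⟨E, V, h⟩ := ih {y | a :: y ∈ G}
            (fun z hz b hb => hGn _ hz b (List.mem_cons_of_mem _ hb)) (hG a ha)
          exact ⟨E, V, fun _ => h⟩
        · exact ⟨∅, ∅, fun h => absurd h ha⟩
      choose E V hEV using h1
      refine ⟨TR2_cn n E, TR2_cn n V ∪ (if [] ∈ G then {[]} else ∅), ?_, ?_, ?_, ?_, ?_⟩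
      · intro e he
        cases e with
        | nil => exact absurd he (TR2_nil n E)
        | cons a e =>
          obtain ⟨ha, he'⟩ := (TR2_cons n E a e).1 he
          obtain ⟨q1, q2⟩ := (hEV a ha).1 e he'
          refine ⟨by rw [List.length_cons]; omega, ?_⟩
          intro b hb
          rcases List.mem_cons.1 hb with h | h
          · rw [h]; exact ha
          · exact q2 b h
      · intro e he
        rcases Finset.mem_union.1 he with he | he
        · cases e with
          | nil => exact absurd he (TR2_nil n V)
          | cons a e =>
            obtain ⟨ha, he'⟩ := (TR2_cons n V a e).1 he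
            obtain ⟨q1, q2⟩ := (hEV a ha).2.1 e he'
            refine ⟨by rw [List.length_cons]; omega, ?_⟩
            intro b hb
            rcases List.mem_cons.1 hb with h | h
            · rw [h]; exact ha
            · exact q2 b h
        · have : e = [] := by
            split_ifs at he
            · exact Finset.mem_singleton.1 he
            · exact absurd he (Finset.notMem_empty _)
          rw [this]
          simp
      · intro z
        cases z with
        | nil =>
          constructor
          · intro h
            left
            rw [if_pos h]
            exact Finset.mem_union_right _ (Finset.mem_singleton_self _)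
          · rintro (h | ⟨e, he, r, hr, h⟩)
            · rcases Finset.mem_union.1 h with h | h
              · exact absurd h (TR2_nil n V)
              · by_contra hc
                rw [if_neg hc] at h
                exact absurd h (Finset.notMem_empty _)
            · cases e with
              | nil => exact absurd he (TR2_nil n E)
              | cons a e => simp at h
        | cons a y =>
          constructor
          · intro h
            have ha : a < n := hGn _ h a List.mem_cons_self
            rcases ((hEV a ha).2.2.1 y).1 h with h2 | ⟨e, he, r, hr, h2⟩
            · exact Or.inl (Finset.mem_union_left _ ((TR2_cons n V a y).2 ⟨ha, h2⟩))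
            · exact Or.inr ⟨a :: e, (TR2_cons n E a e).2 ⟨ha, he⟩, r, hr, by rw [h2]; rfl⟩
          · rintro (h | ⟨e, he, r, hr, h⟩)
            · rcases Finset.mem_union.1 h with h | h
              · obtain ⟨ha, h2⟩ := (TR2_cons n V a y).1 h
                exact ((hEV a ha).2.2.1 y).2 (Or.inl h2)
              · exfalso
                split_ifs at h
                · simp at h
                · exact absurd h (Finset.notMem_empty _)
            · cases e with
              | nil => exact absurd he (TR2_nil n E)
              | cons b e =>
                rw [List.cons_append, List.cons.injEq] at h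
                obtain ⟨rfl, h3⟩ := h
                obtain ⟨ha, h2⟩ := (TR2_cons n E a e).1 he
                exact ((hEV a ha).2.2.1 y).2 (Or.inr ⟨e, h2, r, hr, h3⟩)
      · intro e he r hr h
        cases e with
        | nil => exact absurd he (TR2_nil n E)
        | cons a e =>
          obtain ⟨ha, he'⟩ := (TR2_cons n E a e).1 he
          rw [List.cons_append] at h
          rcases Finset.mem_union.1 h with h | h
          · exact (hEV a ha).2.2.2.1 e he' r hr ((TR2_cons n V a _).1 h).2
          · split_ifs at h
            · simp at h
            · exact absurd h (Finset.notMem_empty _)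
      · intro e he r hr e' he' r' hr' h
        cases e with
        | nil => exact absurd he (TR2_nil n E)
        | cons a e =>
          cases e' with
          | nil => exact absurd he' (TR2_nil n E)
          | cons a' e' =>
            rw [List.cons_append, List.cons_append, List.cons.injEq] at h
            obtain ⟨rfl, h⟩ := h
            obtain ⟨ha, q1⟩ := (TR2_cons n E a e).1 he
            obtain ⟨_, q2⟩ := (TR2_cons n E a e').1 he'
            rw [(hEV a ha).2.2.2.2 e q1 r hr e' q2 r' hr' h]
    · have h1 : ∀ a, ∃ E V : Finset (List ℕ), a < n → (∀ e ∈ E, e.length < k ∧ ∀ b ∈ e, b < n) ∧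
          (∀ v ∈ V, v.length < k ∧ ∀ b ∈ v, b < n) ∧
          (∀ z, (a :: z ∈ G ∧ a :: z ∉ R) ↔ z ∈ V ∨ ∃ e ∈ E, ∃ r ∈ R, z = e ++ r) ∧
          (∀ e ∈ E, ∀ r ∈ R, e ++ r ∉ V) ∧
          ∀ e ∈ E, ∀ r ∈ R, ∀ e' ∈ E, ∀ r' ∈ R, e ++ r = e' ++ r' → e = e' := by
        intro a
        by_cases ha : a < n
        · obtain ⟨E, V, h⟩ := ih {y | a :: y ∈ G ∧ a :: y ∉ R}
            (fun z hz b hb => hGn _ hz.1 b (List.mem_cons_of_mem _ hb)) (hG a ha)
          exact ⟨E, V, fun _ => h⟩
        · exact ⟨∅, ∅, fun h => absurd h ha⟩
      choose E V hEV using h1
      refine ⟨insert [] (TR2_cn n E), TR2_cn n V ∪ (if [] ∈ G ∧ [] ∉ R then {[]} else ∅),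
        ?_, ?_, ?_, ?_, ?_⟩
      · intro e he
        cases e with
        | nil => simp
        | cons a e =>
          have he1 : a :: e ∈ TR2_cn n E := by
            rcases Finset.mem_insert.1 he with h | h
            · simp at h
            · exact h
          obtain ⟨ha, he'⟩ := (TR2_cons n E a e).1 he1
          obtain ⟨q1, q2⟩ := (hEV a ha).1 e he'
          refine ⟨by rw [List.length_cons]; omega, ?_⟩
          intro b hb
          rcases List.mem_cons.1 hb with h | h
          · rw [h]; exact ha
          · exact q2 b h
      · intro e he
        rcases Finset.mem_union.1 he with he | he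
        · cases e with
          | nil => exact absurd he (TR2_nil n V)
          | cons a e =>
            obtain ⟨ha, he'⟩ := (TR2_cons n V a e).1 he
            obtain ⟨q1, q2⟩ := (hEV a ha).2.1 e he'
            refine ⟨by rw [List.length_cons]; omega, ?_⟩
            intro b hb
            rcases List.mem_cons.1 hb with h | h
            · rw [h]; exact ha
            · exact q2 b h
        · have : e = [] := by
            split_ifs at he
            · exact Finset.mem_singleton.1 he
            · exact absurd he (Finset.notMem_empty _)
          rw [this]
          simp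
      · intro z
        cases z with
        | nil =>
          constructor
          · intro h
            by_cases hR : [] ∈ R
            · exact Or.inr ⟨[], Finset.mem_insert_self _ _, [], hR, rfl⟩
            · left
              rw [if_pos ⟨h, hR⟩]
              exact Finset.mem_union_right _ (Finset.mem_singleton_self _)
          · rintro (h | ⟨e, he, r, hr, h⟩)
            · rcases Finset.mem_union.1 h with h | h
              · exact absurd h (TR2_nil n V)
              · by_contra hc
                rw [if_neg (fun h' => hc h'.1)] at h
                exact absurd h (Finset.notMem_empty _)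
            · have h2 : r = [] := (List.append_eq_nil_iff.1 h.symm).2
              rw [h2] at hr
              exact hRG hr
        | cons a y =>
          constructor
          · intro h
            have ha : a < n := hGn _ h a List.mem_cons_self
            by_cases hR : a :: y ∈ R
            · exact Or.inr ⟨[], Finset.mem_insert_self _ _, a :: y, hR, rfl⟩
            · rcases ((hEV a ha).2.2.1 y).1 ⟨h, hR⟩ with h2 | ⟨e, he, r, hr, h2⟩
              · exact Or.inl (Finset.mem_union_left _ ((TR2_cons n V a y).2 ⟨ha, h2⟩))
              · exact Or.inr ⟨a :: e, Finset.mem_insert_of_mem ((TR2_cons n E a e).2 ⟨ha, he⟩),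
                  r, hr, by rw [h2]; rfl⟩
          · rintro (h | ⟨e, he, r, hr, h⟩)
            · rcases Finset.mem_union.1 h with h | h
              · obtain ⟨ha, h2⟩ := (TR2_cons n V a y).1 h
                exact (((hEV a ha).2.2.1 y).2 (Or.inl h2)).1
              · exfalso
                split_ifs at h
                · simp at h
                · exact absurd h (Finset.notMem_empty _)
            · cases e with
              | nil =>
                rw [List.nil_append] at h
                exact hRG (h ▸ hr)
              | cons b e =>
                rw [List.cons_append, List.cons.injEq] at h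
                obtain ⟨rfl, h3⟩ := h
                have he1 : a :: e ∈ TR2_cn n E := by
                  rcases Finset.mem_insert.1 he with h | h
                  · simp at h
                  · exact h
                obtain ⟨ha, h2⟩ := (TR2_cons n E a e).1 he1
                exact (((hEV a ha).2.2.1 y).2 (Or.inr ⟨e, h2, r, hr, h3⟩)).1
      · intro e he r hr h
        cases e with
        | nil =>
          rw [List.nil_append] at h
          cases r with
          | nil =>
            rcases Finset.mem_union.1 h with h | h
            · exact absurd h (TR2_nil n V)
            · rw [if_neg (fun h' => h'.2 hr)] at h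
              exact absurd h (Finset.notMem_empty _)
          | cons a r =>
            rcases Finset.mem_union.1 h with h | h
            · obtain ⟨ha, h2⟩ := (TR2_cons n V a r).1 h
              exact (((hEV a ha).2.2.1 r).2 (Or.inl h2)).2 hr
            · split_ifs at h
              · simp at h
              · exact absurd h (Finset.notMem_empty _)
        | cons a e =>
          have he1 : a :: e ∈ TR2_cn n E := by
            rcases Finset.mem_insert.1 he with h | h
            · simp at h
            · exact h
          obtain ⟨ha, he'⟩ := (TR2_cons n E a e).1 he1
          rw [List.cons_append] at h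
          rcases Finset.mem_union.1 h with h | h
          · exact (hEV a ha).2.2.2.1 e he' r hr ((TR2_cons n V a _).1 h).2
          · split_ifs at h
            · simp at h
            · exact absurd h (Finset.notMem_empty _)
      · have hkey : ∀ a e, a :: e ∈ insert [] (TR2_cn n E) → ∀ r ∈ R, a :: e ++ r ∉ R := by
          intro a e he r hr h
          have he1 : a :: e ∈ TR2_cn n E := by
            rcases Finset.mem_insert.1 he with h | h
            · simp at h
            · exact h
          obtain ⟨ha, he'⟩ := (TR2_cons n E a e).1 he1
          exact (((hEV a ha).2.2.1 (e ++ r)).2 (Or.inr ⟨e, he', r, hr, rfl⟩)).2 h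
        intro e he r hr e' he' r' hr' h
        cases e with
        | nil =>
          cases e' with
          | nil => rfl
          | cons a' e' =>
            rw [List.nil_append] at h
            exact absurd (h ▸ hr) (hkey a' e' he' r' hr')
        | cons a e =>
          cases e' with
          | nil =>
            rw [List.nil_append] at h
            exact absurd (h ▸ hr') (hkey a e he r hr)
          | cons a' e' =>
            rw [List.cons_append, List.cons_append, List.cons.injEq] at h
            obtain ⟨rfl, h⟩ := h
            have he1 : a :: e ∈ TR2_cn n E := by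
              rcases Finset.mem_insert.1 he with h | h
              · simp at h
              · exact h
            have he2 : a :: e' ∈ TR2_cn n E := by
              rcases Finset.mem_insert.1 he' with h | h
              · simp at h
              · exact h
            obtain ⟨ha, q1⟩ := (TR2_cons n E a e).1 he1
            obtain ⟨_, q2⟩ := (TR2_cons n E a e').1 he2
            rw [(hEV a ha).2.2.2.2 e q1 r hr e' q2 r' hr' h]

end Pool.Agent.Helper37.DE
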