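import Pool.Agent.Helper37.DE.St

/-!
# Project DE, module TREE: short tilings (helper8)
-/

set_option autoImplicit false

namespace Pool.Agent.Helper37.DE

open Pool.Agent.Helper31.BD Pool.Agent.Helper84.LD Pool.Agent.Helper37.KW

theorem TREE_til {C U : Finset (List ℕ)} {R : Set (List ℕ)} (h0 : [] ∉ C) (hD : Dec C U R)
    (a : ℕ) : ∃ k, Til R k {y | a :: y ∈ R} := by
  classical
  have hinj : ∀ (s : Set (List ℕ)), Set.InjOn (fun e : List ℕ => a :: e) s := by
    intro s x _ y _ h
    exact (List.cons.inj h).2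
  refine ⟨C.sup List.length + U.sup List.length + 1,
    C.preimage (fun e => a :: e) (hinj _), U.preimage (fun e => a :: e) (hinj _), ?_, ?_, ?_, ?_, ?_⟩
  · intro e he
    rw [Finset.mem_preimage] at he
    have h1 := Finset.le_sup (f := List.length) he
    simp only [List.length_cons] at h1
    omega
  · intro v hv
    rw [Finset.mem_preimage] at hv
    have h1 := Finset.le_sup (f := List.length) hv
    simp only [List.length_cons] at h1
    omega
  · intro z
    show a :: z ∈ R ↔ _
    rw [hD.mem (a :: z), Finset.mem_preimage]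
    constructor
    · rintro (h | ⟨c, hc, r, hr, h⟩)
      · exact Or.inl h
      · right
        cases c with
        | nil => exact absurd hc h0
        | cons b e =>
          simp only [List.cons_append, List.cons.injEq] at h
          obtain ⟨rfl, h⟩ := h
          exact ⟨e, by rw [Finset.mem_preimage]; exact hc, r, hr, h⟩
    · rintro (h | ⟨e, he, r, hr, h⟩)
      · exact Or.inl h
      · right
        rw [Finset.mem_preimage] at he
        exact ⟨a :: e, he, r, hr, by rw [h]; rfl⟩
  · intro e he r hr h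
    rw [Finset.mem_preimage] at he h
    exact hD.dis (a :: e) he r hr h
  · intro e he r hr e' he' r' hr' h
    rw [Finset.mem_preimage] at he he'
    have := hD.inj (a :: e) he r hr (a :: e') he' r' hr' (by
      simp only [List.cons_append, h])
    exact (List.cons.inj this).2

theorem hTREE (h1 : StTR1) (h2 : StSTB) (h3 : StTR2) : StTREE := by
  classical
  intro R n m κ C U hR hκ h0 hD
  have key : ∀ a : ℕ, ∃ E V : Finset (List ℕ), (∀ e ∈ E, e.length < 2 ^ m ∧ ∀ a ∈ e, a < n) ∧
      (∀ v ∈ V, v.length < 2 ^ m ∧ ∀ a ∈ v, a < n) ∧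
      (∀ z, z ∈ {y | a :: y ∈ R} ↔ z ∈ V ∨ ∃ e ∈ E, ∃ r ∈ R, z = e ++ r) ∧
      (∀ e ∈ E, ∀ r ∈ R, e ++ r ∉ V) ∧
      ∀ e ∈ E, ∀ r ∈ R, ∀ e' ∈ E, ∀ r' ∈ R, e ++ r = e' ++ r' → e = e' := by
    intro a
    obtain ⟨k, hk⟩ := TREE_til h0 hD a
    have e1 := h1 R n k _ hk
    have hclo : Clo R {y | a :: y ∈ R} := by
      intro y y' h hy
      have := h [a]
      simpa using this.1 (by simpa using hy)
    have e2 := h2 R n m κ hκ k _ hclo e1
    refine h3 R n (2 ^ m) _ ?_ e2
    intro z hz b hb
    exact hR (a :: z) hz b (List.mem_cons_of_mem _ hb)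
  choose E V k1 k2 k3 k4 k5 using key
  obtain ⟨C', hC'⟩ : ∃ C' : Finset (List ℕ), ∀ c, c ∈ C' ↔ ∃ a < n, ∃ e ∈ E a, c = a :: e := by
    refine ⟨(Finset.range n).biUnion fun a => (E a).image fun e => a :: e, fun c => ?_⟩
    simp only [Finset.mem_biUnion, Finset.mem_range, Finset.mem_image]
    constructor
    · rintro ⟨a, ha, e, he, rfl⟩
      exact ⟨a, ha, e, he, rfl⟩
    · rintro ⟨a, ha, e, he, rfl⟩
      exact ⟨a, ha, e, he, rfl⟩
  obtain ⟨U', hU'⟩ : ∃ U' : Finset (List ℕ), ∀ u, u ∈ U' ↔
      ((u = [] ∧ [] ∈ R) ∨ ∃ a < n, ∃ e ∈ V a, u = a :: e) := by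
    refine ⟨(if [] ∈ R then {[]} else ∅) ∪
      (Finset.range n).biUnion fun a => (V a).image fun e => a :: e, fun u => ?_⟩
    rw [Finset.mem_union]
    apply or_congr
    · by_cases h : [] ∈ R
      · simp [h]
      · simp [h]
    · simp only [Finset.mem_biUnion, Finset.mem_range, Finset.mem_image]
      constructor
      · rintro ⟨a, ha, e, he, rfl⟩
        exact ⟨a, ha, e, he, rfl⟩
      · rintro ⟨a, ha, e, he, rfl⟩
        exact ⟨a, ha, e, he, rfl⟩
  have hpos : 1 ≤ 2 ^ m := Nat.one_le_two_pow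
  refine ⟨C', U', ?_, ?_, ?_, ?_⟩
  · rw [hC']
    rintro ⟨a, _, e, _, h⟩
    cases h
  · intro c hc
    obtain ⟨a, ha, e, he, rfl⟩ := (hC' c).1 hc
    have := k1 a e he
    refine ⟨by simp only [List.length_cons]; omega, ?_⟩
    intro b hb
    rcases List.mem_cons.1 hb with rfl | hb
    · exact ha
    · exact this.2 b hb
  · intro u hu
    rcases (hU' u).1 hu with ⟨rfl, _⟩ | ⟨a, ha, e, he, rfl⟩
    · exact ⟨by simp, by simp⟩
    · have := k2 a e he
      refine ⟨by simp only [List.length_cons]; omega, ?_⟩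
      intro b hb
      rcases List.mem_cons.1 hb with rfl | hb
      · exact ha
      · exact this.2 b hb
  · refine ⟨?_, ?_, ?_⟩
    · intro z
      rw [hU']
      cases z with
      | nil =>
        constructor
        · intro h
          exact Or.inl (Or.inl ⟨rfl, h⟩)
        · rintro ((⟨_, h⟩ | ⟨a, _, e, _, h⟩) | ⟨c, hc, r, _, h⟩)
          · exact h
          · cases h
          · obtain ⟨a, _, e, _, rfl⟩ := (hC' c).1 hc
            cases h
      | cons a y =>
        constructor
        · intro h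
          have ha : a < n := hR _ h a List.mem_cons_self
          rcases (k3 a y).1 h with h' | ⟨e, he, r, hr, h'⟩
          · exact Or.inl (Or.inr ⟨a, ha, y, h', rfl⟩)
          · exact Or.inr ⟨a :: e, (hC' _).2 ⟨a, ha, e, he, rfl⟩, r, hr, by rw [h']; rfl⟩
        · rintro ((⟨h, _⟩ | ⟨b, _, e, he, h⟩) | ⟨c, hc, r, hr, h⟩)
          · cases h
          · obtain ⟨rfl, rfl⟩ := List.cons.inj h
            exact (k3 a y).2 (Or.inl he)
          · obtain ⟨b, _, e, he, rfl⟩ := (hC' c).1 hc
            simp only [List.cons_append, List.cons.injEq] at h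
            obtain ⟨rfl, h⟩ := h
            exact (k3 a y).2 (Or.inr ⟨e, he, r, hr, h⟩)
    · intro c hc r hr h
      obtain ⟨a, _, e, he, rfl⟩ := (hC' c).1 hc
      rcases (hU' _).1 h with ⟨h', _⟩ | ⟨b, _, v, hv, h'⟩
      · cases h'
      · simp only [List.cons_append, List.cons.injEq] at h'
        obtain ⟨rfl, h'⟩ := h'
        exact k4 a e he r hr (by rw [h']; exact hv)
    · intro c hc r hr c' hc' r' hr' h
      obtain ⟨a, _, e, he, rfl⟩ := (hC' c).1 hc
      obtain ⟨b, _, e', he', rfl⟩ := (hC' c').1 hc'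
      simp only [List.cons_append, List.cons.injEq] at h
      obtain ⟨rfl, h⟩ := h
      rw [k5 a e he r hr e' he' r' hr' h]

end Pool.Agent.Helper37.DE
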