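import Pool.Agent.Helper37.DE.St

/-!
# Project DE: module TRF (transfer of the witness)
-/

set_option autoImplicit false

namespace Pool.Agent.Helper37.DE

open Pool.Agent.Helper31.BD Pool.Agent.Helper84.LD Pool.Agent.Helper37.KW

theorem trf_mon_nil (C : Finset (List ℕ)) : [] ∈ Mon C := ⟨[], over_nil C, by simp⟩

theorem trf_mon_app {C : Finset (List ℕ)} {y y' : List ℕ} (h : y ∈ Mon C) (h' : y' ∈ Mon C) :
    y ++ y' ∈ Mon C := by
  obtain ⟨l, hl, rfl⟩ := h
  obtain ⟨l', hl', rfl⟩ := h'
  exact ⟨l ++ l', over_app hl hl', by simp⟩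

theorem trf_mon_mem {C : Finset (List ℕ)} {c : List ℕ} (h : c ∈ C) : c ∈ Mon C :=
  ⟨[c], by intro d hd; simp at hd; rw [hd]; exact h, by simp⟩

/-- powers of an element of the submonoid -/
theorem trf_mon_pow {C : Finset (List ℕ)} {y : List ℕ} (h : y ∈ Mon C) (k : ℕ) :
    (List.replicate k y).flatten ∈ Mon C := by
  induction k with
  | zero => simpa using trf_mon_nil C
  | succ k ih =>
    rw [List.replicate_succ, List.flatten_cons]
    exact trf_mon_app h ih

theorem trf_len_pow (y : List ℕ) (k : ℕ) : (List.replicate k y).flatten.length = k * y.length := by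
  induction k with
  | zero => simp
  | succ k ih =>
    rw [List.replicate_succ, List.flatten_cons, List.length_append, ih]
    ring

theorem hTRF (h1 : StR1) (h2 : StDC2) : StTRF := by
  intro C d w w' T U C' U' hne h0 hW h0' hD
  obtain ⟨-, hR1, -⟩ := h1 (Fac C) C d w w' T U hne h0 hW
  obtain ⟨hR, huq⟩ := h2 C' U' (Rs C U) h0' hD
  obtain ⟨u0, hu0⟩ := hW.neU
  have hr0 : u0 ∈ Rs C U := ⟨[], trf_mon_nil C, u0, hu0, by simp⟩
  have hr0' : u0 ∈ Rs C' U' := by rw [← hR]; exact hr0
  obtain ⟨y0, hy0, v0, hv0, -⟩ := hr0'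
  have key1 : Fac C' ⊆ Fac C := by
    rintro s ⟨a, b, l, hl, e⟩
    have hr : l.flatten ++ v0 ∈ Rs C U := by
      rw [hR]; exact ⟨l.flatten, ⟨l, hl, rfl⟩, v0, hv0, rfl⟩
    obtain ⟨y, hy, u, hu, e1⟩ := hr
    obtain ⟨c, hc⟩ := hne
    have hcl : 1 ≤ c.length := by
      rcases Nat.eq_zero_or_pos c.length with h | h
      · exact absurd (List.length_eq_zero_iff.1 h ▸ hc) h0
      · exact h
    have hm : (List.replicate d c).flatten ∈ Mon C := trf_mon_pow (trf_mon_mem hc) d
    have hml : d ≤ (List.replicate d c).flatten.length := by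
      rw [trf_len_pow]; nlinarith
    have hz := (hW.eq ((List.replicate d c).flatten ++ (y ++ u)) (by
      rw [List.length_append]; omega)).2
      ⟨[], hW.nilT, (List.replicate d c).flatten ++ y, trf_mon_app hm hy, u, hu, by simp⟩
    rw [← e1, ← e] at hz
    have : w ++ ((List.replicate d c).flatten ++ (a ++ s ++ b ++ v0)) ++ w' =
        (w ++ (List.replicate d c).flatten ++ a) ++ s ++ (b ++ v0 ++ w') := by
      simp [List.append_assoc]
    rw [this] at hz
    exact fac_infix hz
  have key2 : Fac C ⊆ Fac C' := by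
    rintro s ⟨a, b, l, hl, e⟩
    rcases Nat.eq_zero_or_pos l.flatten.length with hz | hpos
    · have h3 : (a ++ s ++ b).length = 0 := by rw [e, hz]
      simp only [List.length_append] at h3
      have hs : s = [] := List.length_eq_zero_iff.1 (by omega)
      rw [hs]; exact nil_mem_Fac C'
    · set y := l.flatten with hy
      have hyM : y ∈ Mon C := ⟨l, hl, hy⟩
      set B := U'.sup List.length with hB
      have hr : (List.replicate (B + 1) y).flatten ++ u0 ∈ Rs C' U' := by
        rw [← hR]; exact ⟨_, trf_mon_pow hyM (B + 1), u0, hu0, rfl⟩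
      obtain ⟨y', hy', u', hu', e1⟩ := hr
      have hul : u'.length ≤ B := Finset.le_sup (f := List.length) hu'
      have hlen := congrArg List.length e1
      rw [List.length_append, List.length_append, trf_len_pow] at hlen
      have hyl : y.length ≤ y'.length := by nlinarith
      have hp1 : y <+: (List.replicate (B + 1) y).flatten ++ u0 := by
        rw [List.replicate_succ, List.flatten_cons, List.append_assoc]
        exact List.prefix_append _ _
      have hp2 : y' <+: (List.replicate (B + 1) y).flatten ++ u0 := by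
        rw [e1]; exact List.prefix_append _ _
      obtain ⟨v, hv⟩ := List.prefix_of_prefix_length_le hp1 hp2 hyl
      obtain ⟨l', hl', e'⟩ := hy'
      refine ⟨a, b ++ v, l', hl', ?_⟩
      rw [← e', ← hv, ← e]
      simp [List.append_assoc]
  refine ⟨?_, Set.Subset.antisymm key1 key2, ?_⟩
  · intro l1 l2 hl1 hl2 e
    exact (huq l1 l2 hl1 hl2 v0 hv0 v0 hv0 (by rw [e])).1
  · refine ⟨hW.nilT, hW.lenT, ⟨v0, hv0⟩, ?_, ?_⟩
    · intro z hz
      rw [hW.eq z hz]
      constructor
      · rintro ⟨t, ht, y, hy, u, hu, e⟩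
        have hr : y ++ u ∈ Rs C' U' := by
          rw [← hR]; exact ⟨y, hy, u, hu, rfl⟩
        obtain ⟨y', hy', u', hu', e1⟩ := hr
        exact ⟨t, ht, y', hy', u', hu', by rw [e, List.append_assoc, e1, List.append_assoc]⟩
      · rintro ⟨t, ht, y, hy, u, hu, e⟩
        have hr : y ++ u ∈ Rs C U := by
          rw [hR]; exact ⟨y, hy, u, hu, rfl⟩
        obtain ⟨y', hy', u', hu', e1⟩ := hr
        exact ⟨t, ht, y', hy', u', hu', by rw [e, List.append_assoc, e1, List.append_assoc]⟩
    · intro t ht y hy u hu t' ht' y' hy' u' hu' hd e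
      have hr : y ++ u ∈ Rs C U := by
        rw [hR]; exact ⟨y, hy, u, hu, rfl⟩
      have hr' : y' ++ u' ∈ Rs C U := by
        rw [hR]; exact ⟨y', hy', u', hu', rfl⟩
      obtain ⟨ht1, hr1⟩ := hR1 t ht (y ++ u) hr t' ht' (y' ++ u') hr'
        (by rw [← List.append_assoc]; exact hd)
        (by rw [← List.append_assoc, ← List.append_assoc]; exact e)
      obtain ⟨l, hl, rfl⟩ := hy
      obtain ⟨l', hl', rfl⟩ := hy'
      obtain ⟨hl1, hu1⟩ := huq l l' hl hl' u hu u' hu' hr1
      exact ⟨ht1, by rw [hl1], hu1⟩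

end Pool.Agent.Helper37.DE
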