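import Pool.Agent.Helper37.DE.St
import Pool.Agent.Helper31.BD.I
import Pool.Agent.Helper31.BD.K

/-!
# Project DE (MP_93aa28_lc), module TST: the bounded test suffices
-/

set_option autoImplicit false

namespace Pool.Agent.Helper37.DE

open Pool.Agent.Helper31.BD Pool.Agent.Helper84.LD Pool.Agent.Helper37.KW

theorem ts_few_mono {L : Set (List ℕ)} {N N' : ℕ} (h : Few L N) (hN : N ≤ N') : Few L N' := by
  obtain ⟨st, hst⟩ := h
  refine ⟨fun v => Fin.castLE hN (st v), fun u u' huu => hst u u' ?_⟩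
  exact Fin.castLE_injective hN huu

theorem ts_sum (C : List (List ℕ)) : ∑ e ∈ C.toFinset, (e.length + 1) ≤ D0 C := by
  unfold D0
  induction C with
  | nil => simp
  | cons a C ih =>
    rw [List.toFinset_cons]
    by_cases ha : a ∈ C.toFinset
    · rw [Finset.insert_eq_of_mem ha]
      simp only [List.flatten_cons, List.length_append, List.length_cons]
      omega
    · rw [Finset.sum_insert ha]
      simp only [List.flatten_cons, List.length_append, List.length_cons]
      omega

theorem ts_len {C : List (List ℕ)} {u : List ℕ} (hu : u ∈ C) : u.length + 1 ≤ D0 C := by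
  unfold D0
  induction C with
  | nil => simp at hu
  | cons a C ih =>
    simp only [List.flatten_cons, List.length_append, List.length_cons]
    rcases List.mem_cons.1 hu with rfl | h
    · omega
    · have := ih h
      omega

theorem ts_letters {C : List (List ℕ)} {n : ℕ} (hC : ∀ c ∈ C, ∀ a ∈ c, a < n) {y : List ℕ}
    (hy : y ∈ Mon C.toFinset) : ∀ a ∈ y, a < n := by
  obtain ⟨l, hl, rfl⟩ := hy
  intro a ha
  rw [List.mem_flatten] at ha
  obtain ⟨c, hc, hac⟩ := ha
  exact hC c (List.mem_toFinset.1 (hl c hc)) a hac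

theorem ts_join (T U : List (List ℕ)) (C : List (List ℕ)) (A : Set (List ℕ))
    (Ls : List (Set (List ℕ)))
    (hLs : Ls = A :: T.flatMap fun t => U.map fun u => {z | LngX C t u z}) :
    Ls.length = T.length * U.length + 1 := by
  subst hLs
  rw [List.length_cons, List.length_flatMap]
  congr 1
  induction T with
  | nil => simp
  | cons t T ih =>
    rw [List.map_cons, List.sum_cons, ih, List.length_map, List.length_cons]
    ring

theorem hTST (h1 : StFEM) (h2 : StFEL) (h3 : StFAM) (h4 : StPIG) (h5 : StLNG) : StTST := by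
  intro x d C w w' T U hC hCl hTl hUl hT z hz
  set N0 : ℕ := NN x + d + 2 + 2 ^ (D0 C) * 2 ^ (D0 U + 1) with hN0
  set A : Set (List ℕ) := {z | w ++ z ++ w' ∈ LX x} with hA
  set Ls : List (Set (List ℕ)) := A :: T.flatMap fun t => U.map fun u => {z | LngX C t u z}
    with hLs
  have hlen := ts_join T U C A Ls hLs
  -- all the languages have few quotients
  have hfew : ∀ L ∈ Ls, Few L N0 := by
    intro L hL
    rw [hLs, List.mem_cons] at hL
    rcases hL with rfl | hL
    · obtain ⟨st, hst⟩ := few_LX x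
      refine ts_few_mono (N := NN x) ⟨fun v => st (w ++ v), fun u u' huu v => ?_⟩ (by omega)
      have := hst _ _ huu (v ++ w')
      simp only [hA, Set.mem_setOf_eq]
      simpa [List.append_assoc] using this
    · rw [List.mem_flatMap] at hL
      obtain ⟨t, ht, hL⟩ := hL
      rw [List.mem_map] at hL
      obtain ⟨u, hu, rfl⟩ := hL
      have e : {z | LngX C t u z} = {z | ∃ y ∈ Mon C.toFinset, z = t ++ y ++ u} := by
        ext z
        exact h5 C t u z hC
      rw [e]
      refine ts_few_mono (h2 _ _ t u (h1 C.toFinset (by simpa using hC))) ?_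
      have a1 := ts_sum C
      have a2 := ts_len hu
      have a3 := (hTl t ht).1
      have a4 : 2 ^ (∑ e ∈ C.toFinset, (e.length + 1) + 1) ≤ 2 ^ (D0 C + 1) :=
        Nat.pow_le_pow_right (by norm_num) (by omega)
      have a5 : 2 ^ (u.length + 1) ≤ 2 ^ (D0 U) := Nat.pow_le_pow_right (by norm_num) a2
      have a6 : 2 ^ (∑ e ∈ C.toFinset, (e.length + 1) + 1) * 2 ^ (u.length + 1) ≤
          2 ^ (D0 C + 1) * 2 ^ (D0 U) := Nat.mul_le_mul a4 a5
      have a7 : 2 ^ (D0 C + 1) * 2 ^ (D0 U) = 2 ^ (D0 C) * 2 ^ (D0 U + 1) := by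
        rw [pow_succ, pow_succ]
        ring
      rw [a7] at a6
      omega
  obtain ⟨st, hst⟩ := h3 Ls N0 hfew
  by_cases hlet : ∀ a ∈ z, a < x.1
  · refine h4 (N0 ^ Ls.length) x.1 d st (Phi x C w w' T U) ?_ ?_ z hlet hz
    · intro v v' hvv y
      have k1 : w ++ (v ++ y) ++ w' ∈ LX x ↔ w ++ (v' ++ y) ++ w' ∈ LX x :=
        hst v v' hvv A (by rw [hLs]; exact List.mem_cons_self) y
      have k2 : ∀ t ∈ T, ∀ u ∈ U, (LngX C t u (v ++ y) ↔ LngX C t u (v' ++ y)) := by
        intro t ht u hu
        refine hst v v' hvv {z | LngX C t u z} ?_ y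
        rw [hLs, List.mem_cons]
        right
        rw [List.mem_flatMap]
        exact ⟨t, ht, List.mem_map.2 ⟨u, hu, rfl⟩⟩
      unfold Phi
      have k3 : (∃ t ∈ T, ∃ u ∈ U, LngX C t u (v ++ y)) ↔ ∃ t ∈ T, ∃ u ∈ U, LngX C t u (v' ++ y) := by
        constructor
        · rintro ⟨t, ht, u, hu, h⟩
          exact ⟨t, ht, u, hu, (k2 t ht u hu).1 h⟩
        · rintro ⟨t, ht, u, hu, h⟩
          exact ⟨t, ht, u, hu, (k2 t ht u hu).2 h⟩
      rw [k1, k3]
      constructor
      · rintro ⟨p1, p2⟩
        refine ⟨p1, fun t ht u hu t' ht' u' hu' q1 q2 => p2 t ht u hu t' ht' u' hu' ?_ ?_⟩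
        · exact (k2 t ht u hu).2 q1
        · exact (k2 t' ht' u' hu').2 q2
      · rintro ⟨p1, p2⟩
        refine ⟨p1, fun t ht u hu t' ht' u' hu' q1 q2 => p2 t ht u hu t' ht' u' hu' ?_ ?_⟩
        · exact (k2 t ht u hu).1 q1
        · exact (k2 t' ht' u' hu').1 q2
    · intro y hy hdy
      refine hT y ?_ (by omega)
      rw [hlen] at hy
      exact hy
  · have m1 : ¬ w ++ z ++ w' ∈ LX x := by
      intro h
      apply hlet
      intro a ha
      exact LX_lt h a (by simp [ha])
    have m2 : ∀ t ∈ T, ∀ u ∈ U, ¬ LngX C t u z := by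
      intro t ht u hu h
      obtain ⟨y, hy, rfl⟩ := (h5 C t u z hC).1 h
      apply hlet
      intro a ha
      rw [List.mem_append, List.mem_append] at ha
      rcases ha with (ha | ha) | ha
      · exact (hTl t ht).2 a ha
      · exact ts_letters hCl hy a ha
      · exact hUl u hu a ha
    refine ⟨⟨fun h => absurd h m1, ?_⟩, fun t ht u hu t' ht' u' hu' q1 _ => absurd q1 (m2 t ht u hu)⟩
    rintro ⟨t, ht, u, hu, h⟩
    exact absurd h (m2 t ht u hu)

end Pool.Agent.Helper37.DE
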