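import Pool.Agent.Helper37.DE.St

/-!
# Project DE (MP_93aa28_lc): module WIT (witness in list form)
-/

set_option autoImplicit false

namespace Pool.Agent.Helper37.DE

open Pool.Agent.Helper31.BD Pool.Agent.Helper84.LD Pool.Agent.Helper37.KW

theorem hWIT (h1 : StLNG) : StWIT := by
  intro x d C w w' T U hC
  constructor
  · intro h
    refine ⟨List.mem_toFinset.1 h.nilT, fun t ht => h.lenT t (List.mem_toFinset.2 ht), ?_, ?_⟩
    · rintro rfl
      obtain ⟨u, hu⟩ := h.neU
      simp at hu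
    · intro z hz
      refine ⟨?_, ?_⟩
      · rw [h.eq z hz]
        constructor
        · rintro ⟨t, ht, y, hy, u, hu, he⟩
          exact ⟨t, List.mem_toFinset.1 ht, u, List.mem_toFinset.1 hu, (h1 C t u z hC).2 ⟨y, hy, he⟩⟩
        · rintro ⟨t, ht, u, hu, hl⟩
          obtain ⟨y, hy, he⟩ := (h1 C t u z hC).1 hl
          exact ⟨t, List.mem_toFinset.2 ht, y, hy, u, List.mem_toFinset.2 hu, he⟩
      · intro t ht u hu t' ht' u' hu' hl hl'
        obtain ⟨y, hy, he⟩ := (h1 C t u z hC).1 hl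
        obtain ⟨y', hy', he'⟩ := (h1 C t' u' z hC).1 hl'
        obtain ⟨e1, -, e3⟩ := h.un t (List.mem_toFinset.2 ht) y hy u (List.mem_toFinset.2 hu)
          t' (List.mem_toFinset.2 ht') y' hy' u' (List.mem_toFinset.2 hu') (by rw [← he]; exact hz)
          (he.symm.trans he')
        exact ⟨e1, e3⟩
  · rintro ⟨g1, g2, g3, g4⟩
    refine ⟨List.mem_toFinset.2 g1, fun t ht => g2 t (List.mem_toFinset.1 ht), ?_, ?_, ?_⟩
    · obtain ⟨u, U', rfl⟩ := List.exists_cons_of_ne_nil g3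
      exact ⟨u, List.mem_toFinset.2 (List.mem_cons_self ..)⟩
    · intro z hz
      rw [(g4 z hz).1]
      constructor
      · rintro ⟨t, ht, u, hu, hl⟩
        obtain ⟨y, hy, he⟩ := (h1 C t u z hC).1 hl
        exact ⟨t, List.mem_toFinset.2 ht, y, hy, u, List.mem_toFinset.2 hu, he⟩
      · rintro ⟨t, ht, y, hy, u, hu, he⟩
        exact ⟨t, List.mem_toFinset.1 ht, u, List.mem_toFinset.1 hu, (h1 C t u z hC).2 ⟨y, hy, he⟩⟩
    · intro t ht y hy u hu t' ht' y' hy' u' hu' hd he
      obtain ⟨e1, e2⟩ := (g4 (t ++ y ++ u) hd).2 t (List.mem_toFinset.1 ht) u (List.mem_toFinset.1 hu)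
        t' (List.mem_toFinset.1 ht') u' (List.mem_toFinset.1 hu')
        ((h1 C t u _ hC).2 ⟨y, hy, rfl⟩) ((h1 C t' u' _ hC).2 ⟨y', hy', he⟩)
      subst e1
      subst e2
      refine ⟨rfl, ?_, rfl⟩
      exact List.append_cancel_left (List.append_cancel_right he)

end Pool.Agent.Helper37.DE
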