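import Pool.Agent.Helper37.KW.M_UD
import Pool.Agent.Helper37.KW.M_P1
import Pool.Agent.Helper37.DE.M_FR
import Pool.Agent.Helper37.DE.M_REP
import Pool.Agent.Helper37.DE.M_FEM
import Pool.Agent.Helper37.DE.M_FEL
import Pool.Agent.Helper37.DE.M_FAM
import Pool.Agent.Helper37.DE.M_PIG
import Pool.Agent.Helper37.DE.M_R1
import Pool.Agent.Helper37.DE.M_KAP
import Pool.Agent.Helper37.DE.M_DC1
import Pool.Agent.Helper37.DE.M_DC2
import Pool.Agent.Helper37.DE.M_TR1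
import Pool.Agent.Helper37.DE.M_TR2
import Pool.Agent.Helper37.DE.M_STB
import Pool.Agent.Helper37.DE.M_TREE
import Pool.Agent.Helper37.DE.M_TRF
import Pool.Agent.Helper37.DE.M_SHT
import Pool.Agent.Helper37.DE.M_LNG
import Pool.Agent.Helper37.DE.M_TST
import Pool.Agent.Helper37.DE.M_WIT
import Pool.Agent.Helper37.DE.M_PX
import Pool.Agent.Helper37.DE.M_Q1
import Pool.Agent.Helper37.DE.M_Q2
import Pool.Agent.Helper37.DE.M_Q3
import Pool.Agent.Helper37.DE.M_A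
import Pool.Agent.Helper37.DE.M_FA
import Pool.Agent.Helper37.DE.M_FB
import Pool.Agent.Helper37.DE.M_FC
import Pool.Agent.Helper37.DE.M_FD
import Pool.Agent.Helper37.DE.M_FE
import Pool.Agent.Helper37.DE.M_B

/-!
# Project DE: assembly
-/

set_option autoImplicit false

namespace Pool.Agent.Helper37.DE

open Pool.Agent.Helper31.BD

theorem fREP : StREP := hREP hFR
theorem fTREE : StTREE := hTREE hTR1 hSTB hTR2
theorem fTRF : StTRF := hTRF hR1 hDC2
theorem fSHT : StSHT := hSHT fREP hR1 hKAP hDC1 fTREE fTRF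
theorem fTST : StTST := hTST hFEM hFEL hFAM hPIG hLNG
theorem fWIT : StWIT := hWIT hLNG
theorem fPX : StPX := hPX Pool.Agent.Helper37.KW.hUD fSHT fTST fWIT
theorem fQ2 : StQ2 := hQ2 Pool.Agent.Helper37.KW.hP1 hQ1
theorem fQ3 : StQ3 := hQ3 hQ1 fQ2
theorem fA : StA := hA fQ3 fPX
theorem fFC : StFC := hFC hFA
theorem fFD : StFD := hFD hFA fFC
theorem fFE : StFE := hFE hFA hFB
theorem fB : StB := hB hFA fFC fFD fFE

theorem dfc_ex (C : Finset (List ℕ)) (hC : UD C) : ∃ d, Dfc C d := by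
  refine ⟨C.sup List.length, fB C hC _ ?_⟩
  intro c hc
  exact Finset.le_sup (f := List.length) hc

theorem final :
    ∃ f : (ℕ × List ℕ × ℕ × List ℕ) × ℕ → Bool, Computable f ∧
      ∀ x : ℕ × List ℕ × ℕ × List ℕ,
        (∀ d : ℕ, (f (x, d) = true ↔ ∃ C : Finset (List ℕ), UD C ∧ Dfc C d ∧ LX x = Fac C)) ∧
        ((∃ C : Finset (List ℕ), UD C ∧ LX x = Fac C) ↔ ∃ d : ℕ, f (x, d) = true) := by
  obtain ⟨f, hf, h⟩ := fA
  refine ⟨f, hf, fun x => ⟨fun d => h x d, ?_⟩⟩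
  constructor
  · rintro ⟨C, hC, hL⟩
    obtain ⟨d, hd⟩ := dfc_ex C hC
    exact ⟨d, (h x d).2 ⟨C, hC, hd, hL⟩⟩
  · rintro ⟨d, hd⟩
    obtain ⟨C, hC, _, hL⟩ := (h x d).1 hd
    exact ⟨C, hC, hL⟩

end Pool.Agent.Helper37.DE
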