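import Pool.Agent.Helper37.DE.St

/-!
# Project DE (MP_93aa28_lc), module A: Theorem A (helper80)
-/

set_option autoImplicit false

namespace Pool.Agent.Helper37.DE

open Pool.Agent.Helper31.BD Pool.Agent.Helper84.LD Pool.Agent.Helper37.KW

theorem hA (h1 : StQ3) (h2 : StPX) : StA := by
  obtain ⟨inst, hp⟩ := h1
  refine ⟨fun q => @decide (PX2 q.1 q.2) (inst q), hp.to_comp, fun x d => ?_⟩
  rw [← h2 x d]
  exact @decide_eq_true_iff (PX2 x d) (inst (x, d))

end Pool.Agent.Helper37.DE
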