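import Pool.Agent.Helper37.DE.St

/-!
# Project DE, module TR1: a tiling gives a rank
-/

set_option autoImplicit false

namespace Pool.Agent.Helper37.DE

open Pool.Agent.Helper31.BD Pool.Agent.Helper84.LD Pool.Agent.Helper37.KW

/-- the words `e` with `a :: e ∈ E` -/
def TR1_sl (a : ℕ) (E : Finset (List ℕ)) : Finset (List ℕ) :=
  (E.filter fun e => e.head? = some a).image List.tail

theorem TR1_mem (a : ℕ) (E : Finset (List ℕ)) (e : List ℕ) : e ∈ TR1_sl a E ↔ a :: e ∈ E := by
  unfold TR1_sl
  rw [Finset.mem_image]
  constructor
  · rintro ⟨f, hf, rfl⟩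
    rw [Finset.mem_filter] at hf
    cases f with
    | nil => simp at hf
    | cons b f =>
      have : b = a := by simpa using hf.2
      rw [← this]
      exact hf.1
  · intro h
    exact ⟨a :: e, Finset.mem_filter.2 ⟨h, rfl⟩, rfl⟩

/-- **TR1** -/
theorem hTR1 : StTR1 := by
  intro R n k
  induction k with
  | zero =>
    rintro G ⟨E, V, h1, h2, h3, -, -⟩
    show G = ∅
    rw [Set.eq_empty_iff_forall_notMem]
    intro z hz
    rcases (h3 z).1 hz with h | ⟨e, he, _⟩
    · exact absurd (h2 z h) (Nat.not_lt_zero _)
    · exact absurd (h1 e he) (Nat.not_lt_zero _)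
  | succ k ih =>
    rintro G ⟨E, V, h1, h2, h3, h4, h5⟩
    by_cases hE : [] ∈ E
    · right
      refine ⟨fun r hr => (h3 r).2 (Or.inr ⟨[], hE, r, hr, rfl⟩), ?_⟩
      intro a _
      apply ih
      refine ⟨TR1_sl a E, TR1_sl a V, ?_, ?_, ?_, ?_, ?_⟩
      · intro e he
        have := h1 _ ((TR1_mem a E e).1 he)
        rw [List.length_cons] at this
        omega
      · intro v hv
        have := h2 _ ((TR1_mem a V v).1 hv)
        rw [List.length_cons] at this
        omega
      · intro z
        constructor
        · rintro ⟨hz1, hz2⟩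
          rcases (h3 _).1 hz1 with h | ⟨e, he, r, hr, hzr⟩
          · exact Or.inl ((TR1_mem a V z).2 h)
          · cases e with
            | nil =>
              rw [List.nil_append] at hzr
              exact absurd (hzr ▸ hr) hz2
            | cons b e =>
              rw [List.cons_append, List.cons.injEq] at hzr
              obtain ⟨rfl, rfl⟩ := hzr
              exact Or.inr ⟨e, (TR1_mem a E e).2 he, r, hr, rfl⟩
        · rintro (h | ⟨e, he, r, hr, rfl⟩)
          · have hV := (TR1_mem a V z).1 h
            refine ⟨(h3 _).2 (Or.inl hV), fun hR => ?_⟩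
            exact h4 [] hE (a :: z) hR hV
          · have hE' := (TR1_mem a E e).1 he
            refine ⟨(h3 _).2 (Or.inr ⟨a :: e, hE', r, hr, rfl⟩), fun hR => ?_⟩
            have := h5 [] hE (a :: (e ++ r)) hR (a :: e) hE' r hr rfl
            simp at this
      · intro e he r hr hV
        exact h4 (a :: e) ((TR1_mem a E e).1 he) r hr ((TR1_mem a V _).1 hV)
      · intro e he r hr e' he' r' hr' h
        have := h5 (a :: e) ((TR1_mem a E e).1 he) r hr (a :: e') ((TR1_mem a E e').1 he') r' hr'
          (by rw [List.cons_append, List.cons_append, h])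
        simpa using this
    · left
      intro a _
      apply ih
      refine ⟨TR1_sl a E, TR1_sl a V, ?_, ?_, ?_, ?_, ?_⟩
      · intro e he
        have := h1 _ ((TR1_mem a E e).1 he)
        rw [List.length_cons] at this
        omega
      · intro v hv
        have := h2 _ ((TR1_mem a V v).1 hv)
        rw [List.length_cons] at this
        omega
      · intro z
        constructor
        · intro hz1
          rcases (h3 _).1 hz1 with h | ⟨e, he, r, hr, hzr⟩
          · exact Or.inl ((TR1_mem a V z).2 h)
          · cases e with
            | nil => exact absurd he hE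
            | cons b e =>
              rw [List.cons_append, List.cons.injEq] at hzr
              obtain ⟨rfl, rfl⟩ := hzr
              exact Or.inr ⟨e, (TR1_mem a E e).2 he, r, hr, rfl⟩
        · rintro (h | ⟨e, he, r, hr, rfl⟩)
          · exact (h3 _).2 (Or.inl ((TR1_mem a V z).1 h))
          · exact (h3 _).2 (Or.inr ⟨a :: e, (TR1_mem a E e).1 he, r, hr, rfl⟩)
      · intro e he r hr hV
        exact h4 (a :: e) ((TR1_mem a E e).1 he) r hr ((TR1_mem a V _).1 hV)
      · intro e he r hr e' he' r' hr' h
        have := h5 (a :: e) ((TR1_mem a E e).1 he) r hr (a :: e') ((TR1_mem a E e').1 he') r' hr'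
          (by rw [List.cons_append, List.cons_append, h])
        simpa using this

end Pool.Agent.Helper37.DE
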