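import Pool.Agent.Helper37.DE.Defs

/-!
# Project DE (MP_93aa28_lc): statements of the modules, with complete proofs

THEOREM A: it is decidable, given an automaton `x` and a number `d`, whether the language of `x` is the
factor set `F(C*)` of a finite code `C` of defect at most `d`.  THEOREM B: every finite code `C` has defect at
most the maximal length of its words.
Available: everything in `Pool/Agent/Helper31/BD/*.lean` and `Pool/Agent/Helper37/KW/*.lean` (`Base.lean`: `st_app`,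
`over_app`, `flatten_mem_Fac`, `nil_mem_Fac`, ...; the `M_*.lean` files may be imported where useful).
-/

set_option autoImplicit false

namespace Pool.Agent.Helper37.DE

open Pool.Agent.Helper31.BD Pool.Agent.Helper84.LD Pool.Agent.Helper37.KW

/-! ## few quotients -/

/-- Representatives.  PROOF. Let `st : List ℕ → Fin N` be as in `Few`.  If `w` has a letter `≥ n` then `w1 = [n]`
(both sides are false; `1 ≤ N` as `Fin N` is nonempty).  Otherwise let `w1` be a shortest word over the letters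
`< n` with the same left quotient as `w`.  If `w1.length > N`, two of the `N + 1` prefixes `w1.take i`, `i ≤ N`, have the
same value of `st`, and the part between them can be deleted. -/
def StFR : Prop :=
  ∀ (L : Set (List ℕ)) (N n : ℕ), Few L N → (∀ w ∈ L, ∀ a ∈ w, a < n) →
    ∀ w : List ℕ, ∃ w1 ∈ wdLe (n + 1) N, ∀ z : List ℕ, (w ++ z ∈ L ↔ w1 ++ z ∈ L)

/-- Representatives of contexts.  PROOF. `StFR` for `LX x` (`few_LX`) and for the reversed language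
(`few_rev`); reverse the second word. -/
def StREP : Prop :=
  ∀ (x : Inp) (w w' : List ℕ), ∃ w1 ∈ wdLe (x.1 + 1) (NN x), ∃ w1' ∈ wdLe (x.1 + 1) (2 ^ NN x),
    ∀ z : List ℕ, (w ++ z ++ w' ∈ LX x ↔ w1 ++ z ++ w1' ∈ LX x)

/-- The submonoid has few left quotients.  PROOF. Let `Suf` be the set of all suffixes of words of `C` and
`[]` (`mh_suf`, `mh_suf_card`; for `C = ∅` take `{[]}`).  `v ++ z ∈ Mon C` iff `z = s ++ y` with `s ∈ Suf`,
`v ++ s ∈ Mon C`, `y ∈ Mon C`: cut the factorisation at the first boundary at or after `v.length`.  So the left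
quotient is determined by the subset `{s ∈ Suf : v ++ s ∈ Mon C}`.  (`C = ∅`: `Mon C = {[]}`, two quotients.) -/
def StFEM : Prop :=
  ∀ C : Finset (List ℕ), [] ∉ C → Few (Mon C) (2 ^ ((∑ e ∈ C, (e.length + 1)) + 1))

/-- Left quotients of `t M u`.  PROOF. The class of `v`: if `v` is a proper prefix of `t`: `v.length`
(`< t.length`); if neither `v` is a prefix of `t` nor `t` of `v`: one dead class; if `v = t ++ v1`: the pair of
`st v1` (from `Few M N`) and the subset `{i ≤ |u| : v1 ∈ M (u.take i)}` of `range (|u|+1)`.  In the last case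
`v1 ++ z ∈ M u` iff (`|z| ≥ |u|`, `z = z' ++ u`, `v1 ++ z' ∈ M`) or (`|z| < |u|`, `u = u.take i ++ z`,
`v1 ∈ M (u.take i)`). -/
def StFEL : Prop :=
  ∀ (M : Set (List ℕ)) (N : ℕ) (t u : List ℕ), Few M N →
    Few {z | ∃ y ∈ M, z = t ++ y ++ u} (t.length + 1 + N * 2 ^ (u.length + 1))

/-- Joint classes.  PROOF. Induction on the list, `finProdFinEquiv`. -/
def StFAM : Prop :=
  ∀ (Ls : List (Set (List ℕ))) (N : ℕ), (∀ L ∈ Ls, Few L N) →
    ∃ st : List ℕ → Fin (N ^ Ls.length), ∀ v v' : List ℕ, st v = st v' →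
      ∀ L ∈ Ls, ∀ z : List ℕ, (v ++ z ∈ L ↔ v' ++ z ∈ L)

/-- Pigeonhole.  PROOF. Let `z` be a shortest counterexample (letters `< n`, `d ≤ z.length`, not `P z`); then
`z.length > d + N`; two of the prefixes `z.take i`, `i ≤ N`, have the same `st`; delete the part between them (at
most `N` letters): a shorter counterexample of length `≥ d`. -/
def StPIG : Prop :=
  ∀ (N n d : ℕ) (st : List ℕ → Fin N) (P : List ℕ → Prop),
    (∀ v v' : List ℕ, st v = st v' → ∀ z, (P (v ++ z) ↔ P (v' ++ z))) →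
    (∀ z ∈ wdLe n (d + N), d ≤ z.length → P z) →
    ∀ z : List ℕ, (∀ a ∈ z, a < n) → d ≤ z.length → P z

/-! ## the set `R = C* U` -/

/-- Consequences of a witness.  PROOF. Let `m = c^d` (`d` copies of some `c ∈ C`), `m.length ≥ d`.
(1) from `y ++ u = y' ++ u'`: `[] ++ (m ++ y) ++ u = [] ++ (m ++ y') ++ u'`, `un`.  (2) `r = y ++ u`,
`r' = y' ++ u'`, `un`.  (3) if `z ∈ R` then `t = []` in `eq`, and `z = t ++ r` with `t ≠ []` contradicts (2) (with
`t' = []`); conversely by `eq` `z = t ++ y ++ u` and `t = []`. -/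
def StR1 : Prop :=
  ∀ (L : Set (List ℕ)) (C : Finset (List ℕ)) (d : ℕ) (w w' : List ℕ) (T U : Finset (List ℕ)),
    C.Nonempty → [] ∉ C → Wit L C d w w' T U →
    (∀ y ∈ Mon C, ∀ u ∈ U, ∀ y' ∈ Mon C, ∀ u' ∈ U, y ++ u = y' ++ u' → y = y' ∧ u = u') ∧
    (∀ t ∈ T, ∀ r ∈ Rs C U, ∀ t' ∈ T, ∀ r' ∈ Rs C U, d ≤ (t ++ r).length → t ++ r = t' ++ r' →
      t = t' ∧ r = r') ∧
    ∀ z : List ℕ, d ≤ z.length →
      (z ∈ Rs C U ↔ (w ++ z ++ w' ∈ L ∧ ¬ ∃ t ∈ T, t ≠ [] ∧ ∃ r ∈ Rs C U, z = t ++ r))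

/-- Few right quotients.  PROOF. Code `y` by the subset of the indices `i` of `wdLe x.1 d` with
` (wdLe x.1 d)[i] ++ y ∈ R` and the subset of the `c < NN x` such that `mk_cls x u = c` and
`u ++ y ++ w' ∈ LX x` for some `u` (equivalently for all `u` with this class, `few_LX`).  If `y, y'` have the same
code then `w ++ v ++ y ++ w' ∈ LX x ↔ w ++ v ++ y' ++ w' ∈ LX x` for all `v`; and `v ++ y ∈ R ↔ v ++ y' ∈ R`: if `v` has a
letter `≥ x.1` both are false; otherwise induction on `v.length`: `≤ d` by the code; `> d` by the recursion (a `t ∈ T`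
with `v ++ y = t ++ r` is a prefix of `v`, `r = v.drop t.length ++ y`, `t ≠ []`). -/
def StKAP : Prop :=
  ∀ (x : Inp) (R : Set (List ℕ)) (d : ℕ) (w w' : List ℕ) (T : Finset (List ℕ)),
    (∀ t ∈ T, t.length ≤ d) → (∀ z ∈ R, ∀ a ∈ z, a < x.1) →
    (∀ z : List ℕ, d ≤ z.length →
      (z ∈ R ↔ (w ++ z ++ w' ∈ LX x ∧ ¬ ∃ t ∈ T, t ≠ [] ∧ ∃ r ∈ R, z = t ++ r))) →
    ∃ κ : List ℕ → Fin (2 ^ ((wdLe x.1 d).length + NN x)), ∀ y y' : List ℕ, κ y = κ y' →
      ∀ v : List ℕ, (v ++ y ∈ R ↔ v ++ y' ∈ R)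

/-- PROOF. `z = y ++ u`, `y = l.flatten`: `l = []` or `l = c :: l'`.  `dis`: `c ++ (y ++ u) = u'` gives
` (c ++ y) ++ u = [] ++ u'`, so `c ++ y = []`.  `inj`: `c ++ y = c' ++ y'` by uniqueness, then `UD`. -/
def StDC1 : Prop :=
  ∀ C U : Finset (List ℕ), UD C → [] ∉ C →
    (∀ y ∈ Mon C, ∀ u ∈ U, ∀ y' ∈ Mon C, ∀ u' ∈ U, y ++ u = y' ++ u' → y = y' ∧ u = u') →
    Dec C U (Rs C U)

/-- PROOF. `R = Rs C U`: induction on the length of `z` (`c ≠ []`), and on the number of factors.  Uniqueness: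
induction on `l` (`dis`, `inj`; `l.flatten ++ u ∈ R`). -/
def StDC2 : Prop :=
  ∀ (C U : Finset (List ℕ)) (R : Set (List ℕ)), [] ∉ C → Dec C U R →
    R = Rs C U ∧ ∀ l l' : List (List ℕ), Over C l → Over C l' → ∀ u ∈ U, ∀ u' ∈ U,
      l.flatten ++ u = l'.flatten ++ u' → l = l' ∧ u = u'

/-! ## the one player game -/

/-- PROOF. Induction on `k`.  `k = 0`: `E = V = ∅`.  Step: let `E, V` be given for `k + 1`, and
`E_a = {e : a :: e ∈ E}`, `V_a = {v : a :: v ∈ V}`.  If `[] ∉ E`: first alternative, `{y : a :: y ∈ G}` is tiled by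
`E_a, V_a`.  If `[] ∈ E`: `R ⊆ G`, and `{y : a :: y ∈ G, a :: y ∉ R}` is tiled by `E_a, V_a` (`a :: e ++ r ∉ R` by the
injectivity with `e' = []`, `a :: v ∉ R` by the disjointness). -/
def StTR1 : Prop :=
  ∀ (R : Set (List ℕ)) (n k : ℕ) (G : Set (List ℕ)), Til R k G → Rk R n k G

/-- PROOF. Induction on `k` (as `me_tree` in `Helper31/BD/E.lean`): choose `E_a, V_a` for every `a < n`;
`E = ⋃ a :: E_a` (and `[]` in the second alternative), `V = ⋃ a :: V_a` and `[]` if `[] ∈ G` (resp. `[] ∈ G \ R`). -/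
def StTR2 : Prop :=
  ∀ (R : Set (List ℕ)) (n k : ℕ) (G : Set (List ℕ)), (∀ z ∈ G, ∀ a ∈ z, a < n) → Rk R n k G →
    ∃ E V : Finset (List ℕ), (∀ e ∈ E, e.length < k ∧ ∀ a ∈ e, a < n) ∧
      (∀ v ∈ V, v.length < k ∧ ∀ a ∈ v, a < n) ∧
      (∀ z, z ∈ G ↔ z ∈ V ∨ ∃ e ∈ E, ∃ r ∈ R, z = e ++ r) ∧ (∀ e ∈ E, ∀ r ∈ R, e ++ r ∉ V) ∧
      ∀ e ∈ E, ∀ r ∈ R, ∀ e' ∈ E, ∀ r' ∈ R, e ++ r = e' ++ r' → e = e'

/-- Stabilisation.  PROOF. `mono_stab` (`Helper31/BD/E.lean`) with `α = Set (Fin m)`, `Fintype.card = 2^m`,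
`S k = {A | ∃ G, Clo R G ∧ A = κ '' G ∧ Rk R n k G}`.  A closed set `G` equals `{y : κ y ∈ κ '' G}`, so it is
determined by `κ '' G`.  `Rk R n k G → Rk R n (k+1) G` (as `me_cl_succ`).  The sets `{y : a :: y ∈ G}` and
`{y : a :: y ∈ G, a :: y ∉ R}` are closed if `G` is (`v ++ a :: y = (v ++ [a]) ++ y`), so `S k = S (k+1)` implies
`S (k+1) = S (k+2)`. -/
def StSTB : Prop :=
  ∀ (R : Set (List ℕ)) (n m : ℕ) (κ : List ℕ → Fin m),
    (∀ y y' : List ℕ, κ y = κ y' → ∀ v : List ℕ, (v ++ y ∈ R ↔ v ++ y' ∈ R)) →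
    ∀ (k : ℕ) (G : Set (List ℕ)), Clo R G → Rk R n k G → Rk R n (2 ^ m) G

/-- Short tilings.  PROOF. For `a < n` the set `G_a = {y : a :: y ∈ R}` is closed and tiled by
`{e : a :: e ∈ C}`, `{v : a :: v ∈ U}` with `k` = maximal length; `StTR1`, `StSTB`, `StTR2` give `E_a, V_a` with words of
length `< 2^m`.  `C' = ⋃ a :: E_a`, `U' = ⋃ a :: V_a` and `[]` if `[] ∈ R`. -/
def StTREE : Prop :=
  ∀ (R : Set (List ℕ)) (n m : ℕ) (κ : List ℕ → Fin m) (C U : Finset (List ℕ)),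
    (∀ z ∈ R, ∀ a ∈ z, a < n) →
    (∀ y y' : List ℕ, κ y = κ y' → ∀ v : List ℕ, (v ++ y ∈ R ↔ v ++ y' ∈ R)) →
    [] ∉ C → Dec C U R →
    ∃ C' U' : Finset (List ℕ), [] ∉ C' ∧ (∀ c ∈ C', c.length ≤ 2 ^ m ∧ ∀ a ∈ c, a < n) ∧
      (∀ u ∈ U', u.length ≤ 2 ^ m ∧ ∀ a ∈ u, a < n) ∧ Dec C' U' R

/-! ## transfer -/

/-- Transfer of the witness.  PROOF. `R = Rs C U = Rs C' U'` (`StDC2`), `R ≠ ∅`, so `U' ≠ ∅`.  `UD C'`: from
`StDC2` with one `u ∈ U'`.  `Wit`: `eq`: `z = t ++ r`, `r ∈ R`; `un`: `StR1` (2) gives `t = t'`, `r = r'`, then `StDC2`.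
`Fac C' ⊆ Fac C`: a word of `Fac C'` is a factor of some `r = y' ++ u' ∈ R`; with `m = c^d`, `c ∈ C`, `m ++ r ∈ R` has
length `≥ d`, so `w ++ (m ++ r) ++ w' ∈ Fac C`.  `Fac C ⊆ Fac C'`: let `s` be a factor of `y ∈ Mon C`, `y ≠ []`
(otherwise trivial), `u ∈ U`, `B` the maximal length in `U'`: `y^(B+1) ++ u ∈ R` is `y' ++ u'` with `y' ∈ Mon C'`,
`|y'| ≥ (B+1)|y| - B ≥ |y|`, so `y` is a prefix of `y'`. -/
def StTRF : Prop :=
  ∀ (C : Finset (List ℕ)) (d : ℕ) (w w' : List ℕ) (T U C' U' : Finset (List ℕ)),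
    C.Nonempty → [] ∉ C → Wit (Fac C) C d w w' T U → [] ∉ C' → Dec C' U' (Rs C U) →
    UD C' ∧ Fac C' = Fac C ∧ Wit (Fac C) C' d w w' T U'

/-- Short candidates.  PROOF. `C = ∅`: `LX x = {[]}`, take `C' = ∅`, `w1 = w1' = []`, `T = U' = {[]}`.  `C ≠ ∅`:
`[] ∉ C` (`ud_nil`), `StR1`; the letters in `Rs C U` and in `T` are `< x.1` (multiply by `c^d` on the left resp. use a
long `t ++ c^d ++ u`, which is in the context set by `eq`); `StKAP`, `StDC1`, `StTREE` with `n = x.1`,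
`2^m = B2 x d`; `StTRF`; replace `w, w'` by `StREP`. -/
def StSHT : Prop :=
  ∀ (x : Inp) (d : ℕ), GenD (LX x) d →
    ∃ w ∈ wdLe (x.1 + 1) (NN x), ∃ w' ∈ wdLe (x.1 + 1) (2 ^ NN x), ∃ T U C : Finset (List ℕ),
      (∀ t ∈ T, t ∈ wdLe x.1 d) ∧ (∀ u ∈ U, u ∈ wdLe x.1 (B2 x d)) ∧
      (∀ c ∈ C, c ∈ wdLe x.1 (B2 x d)) ∧ [] ∉ C ∧ UD C ∧ LX x = Fac C ∧ Wit (LX x) C d w w' T U

/-! ## the procedure -/

/-- PROOF. `mem_pw`; a product of `j` nonempty words has length `≥ j`. -/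
def StLNG : Prop :=
  ∀ (C : List (List ℕ)) (t u z : List ℕ), [] ∉ C →
    (LngX C t u z ↔ ∃ y ∈ Mon C.toFinset, z = t ++ y ++ u)

/-- The bounded test suffices.  PROOF. If `z` has a letter `≥ x.1` then both sides in `Phi` are false (letters
of `w ++ z ++ w' ∈ LX x` are `< x.1`; `LngX` would give letters of words of `C, T, U`).  Otherwise `StPIG` with the
joint classes (`StFAM`) of the language `{z : w ++ z ++ w' ∈ LX x}` (`Few` with `NN x`: class of `w ++ v`) and the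
languages `t C* u`, `t ∈ T`, `u ∈ U` (`StFEM`, `StFEL`, `StLNG`; `∑ (|e|+1) ≤ D0 C` for the set of a list:
`List.sum_toFinset_le`-type bound); all have `Few` with `N0 = NN x + d + 2 + 2^(D0 C) 2^(D0 U + 1)` (monotone in `N`;
note `2^(D0 C + 1)` in `StFEM` costs one factor 2: `t.length + 1 + 2^(D0 C+1) 2^(u.length+1) ≤ N0` holds because
`u.length + 1 ≤ D0 U`), in number `T.length * U.length + 1`. -/
def StTST : Prop :=
  ∀ (x : Inp) (d : ℕ) (C : List (List ℕ)) (w w' : List ℕ) (T U : List (List ℕ)), [] ∉ C →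
    (∀ c ∈ C, ∀ a ∈ c, a < x.1) → (∀ t ∈ T, t.length ≤ d ∧ ∀ a ∈ t, a < x.1) →
    (∀ u ∈ U, ∀ a ∈ u, a < x.1) → TST x d C w w' T U →
    ∀ z : List ℕ, d ≤ z.length → Phi x C w w' T U z

/-- PROOF. `StLNG`; `y = y'` by cancellation. -/
def StWIT : Prop :=
  ∀ (x : Inp) (d : ℕ) (C : List (List ℕ)) (w w' : List ℕ) (T U : List (List ℕ)), [] ∉ C →
    (Wit (LX x) C.toFinset d w w' T.toFinset U.toFinset ↔
      ([] ∈ T ∧ (∀ t ∈ T, t.length ≤ d) ∧ U ≠ [] ∧ ∀ z : List ℕ, d ≤ z.length → Phi x C w w' T U z))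

/-- PROOF. `→`: `C.toFinset` is a code (`KW.StUD`), `LX x = Fac C.toFinset` as in `PX_iff` (`Helper31/BD/L.lean`;
`subs_nodup`, `mem_wdLe`), `StTST`, `StWIT`.  `←`: `StSHT`, list forms by `mem_subs`, `StWIT`, `facX_iff`. -/
def StPX : Prop := ∀ (x : Inp) (d : ℕ), PX2 x d ↔ GenD (LX x) d

/-- PROOF. Bounded quantifiers (`ctx_forall_mem`, `ctx_exists_mem`, ... in `Helper84/LD/Prims.lean`),
`primrec_pw`, `mj_pp_LX`, `mj_primrec_D0`, powers (`p2_pow` in `KW/M_P2.lean`). -/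
def StQ1 : Prop :=
  PrimrecPred (fun q : List (List ℕ) × (List ℕ × List ℕ × List ℕ) => LngX q.1 q.2.1 q.2.2.1 q.2.2.2) ∧
  Primrec (fun q : (Inp × ℕ) × (List (List ℕ) × List (List ℕ) × List (List ℕ)) =>
    B3 q.1.1 q.1.2 q.2.1 q.2.2.1 q.2.2.2) ∧
  Primrec (fun q : Inp × ℕ => B2 q.1 q.2)

/-- PROOF. `StQ1`, and `KW.StP1` for `UDX`. -/
def StQ2 : Prop :=
  PrimrecPred (fun q : (Inp × ℕ) × (List (List ℕ) × (List ℕ × List ℕ) × (List (List ℕ) × List (List ℕ))) =>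
    CT q.1.1 q.1.2 q.2.1 q.2.2.1.1 q.2.2.1.2 q.2.2.2.1 q.2.2.2.2)

/-- PROOF. `StQ2`, `primrec_subs`, `mj_primrec_wdLe`. -/
def StQ3 : Prop := PrimrecPred (fun q : Inp × ℕ => PX2 q.1 q.2)

/-- THEOREM A.  PROOF. `StQ3`, `StPX`. -/
def StA : Prop :=
  ∃ f : Inp × ℕ → Bool, Computable f ∧ ∀ (x : Inp) (d : ℕ), (f (x, d) = true ↔ GenD (LX x) d)

/-! ## THEOREM B: every finite code has finite defect -/

/-- Composition of paths.  PROOF. `→`, path of the second kind (inside one code word):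
`q' = (q.1 ++ z1, z2 ++ q''.2)`.  First kind, `z1 ++ z2 = q.2 ++ y ++ q''.1`, `y = l.flatten`: if `z1` is a proper
prefix of `q.2 = z1 ++ s`: `q' = (q.1 ++ z1, s)`.  If `z1 = q.2 ++ v` with `v` a prefix of `y`: either `v = l1.flatten`,
`l = l1 ++ l2`: `q' = ([],[])`; or `l = l1 ++ [c1 ++ c2] ++ l2`, `v = l1.flatten ++ c1`, `c1, c2 ≠ []`: `q' = (c1,c2)`.  If
`z1 = q.2 ++ y ++ v`, `v ≠ []`, `q''.1 = v ++ z2`: `q' = (v, z2 ++ q''.2)`.  `←`: the four combinations; e.g. first kind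
then first kind: `z1 ++ z2 = q.2 ++ y ++ q'.1 ++ q'.2 ++ y' ++ q''.1` with `q'.1 ++ q'.2 ∈ Mon C`. -/
def StFA : Prop :=
  ∀ C : Finset (List ℕ), [] ∉ C → ∀ (z1 z2 : List ℕ) (q q'' : List ℕ × List ℕ), Sta C q → Sta C q'' →
    (Pth C (z1 ++ z2) q q'' ↔ ∃ q', Sta C q' ∧ Pth C z1 q q' ∧ Pth C z2 q' q'')

/-- Unambiguity.  PROOF. For states `q, q', q''` with `Pth C z1 q q'`, `Pth C z2 q' q''` there is a list `l` over `C` with
`l.flatten = q.1 ++ z1 ++ z2 ++ q''.2 =: W` such that with `P = |q.1 ++ z1|`: either `q' = ([],[])` and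
`P = |(l.take i).flatten|` for some `i`, or `q'.1 ++ q'.2 = l[i]` and `P = |(l.take i).flatten| + |q'.1|`, `q'.1, q'.2 ≠ []`
(glue the two factorisations of `q.1 ++ z1 ++ q'.2` and `q'.1 ++ z2 ++ q''.2`; four cases).  The word `W` does not
depend on `q'` and `l` is unique (`UD`); `P` is either a boundary of `l` or interior to exactly one word. -/
def StFB : Prop :=
  ∀ C : Finset (List ℕ), UD C → [] ∉ C → ∀ (z1 z2 : List ℕ) (q q'' q1 q2 : List ℕ × List ℕ),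
    Sta C q → Sta C q'' → Sta C q1 → Sta C q2 → Pth C z1 q q1 → Pth C z2 q1 q'' → Pth C z1 q q2 →
    Pth C z2 q2 q'' → q1 = q2

/-- Readable words.  PROOF. `→`: `p ++ z ++ s = l.flatten`; cut `l` at the two ends of `z`: the two states at the
positions `|p|` and `|p ++ z|` (`StFA` may be used: `([],[])` to `([],[])` has a path labelled `p ++ z ++ s`).  `←`:
`q.1 ++ z ++ q'.2 ∈ Mon C`. -/
def StFC : Prop :=
  ∀ C : Finset (List ℕ), [] ∉ C → ∀ z : List ℕ, (z ∈ Fac C ↔ (rho C z).Nonempty)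

/-- A generic word.  PROOF. The states form a finite set, so there are finitely many relations `rho C z`;
`rho C (z1 ++ z2)` depends only on `rho C z1` and `rho C z2` (`StFA`).  For `w ∈ Mon C` let
`I w = {rho C (a ++ w ++ b)} \ {∅}`; choose `w ∈ Mon C` with `I w` of minimal cardinality.  If `w z w ∈ Fac C`, extend:
`a w z w b ∈ Mon C`; its `I` is contained in `I w`, so equal, and contains `rho C w` (nonempty): so
`rho C w = rho C (α w z w β)` for some `α, β`.  Iterating, `rho w = rho(α^k w (z w β)^k)` for all `k`; choose `k ≥ 1`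
with `rho((z w β)^k)` idempotent: then `rho w = rho(w (z w β)^k) = rho(w z w y)`, `y = β (z w β)^(k-1)`.  So:
(*) `w z w ∈ Fac C` implies `rho w = rho(w z w y)` for some `y`.  Finally replace `w` by `w^j ∈ Mon C` with
`rho(w^j)` idempotent: for `w^j z w^j ∈ Fac C` apply (*) to `w^(j-1) z w^(j-1)` and multiply by `w^(j-1)`. -/
def StFD : Prop :=
  ∀ C : Finset (List ℕ), C.Nonempty → [] ∉ C → ∃ w ∈ Mon C, rho C (w ++ w) = rho C w ∧
    ∀ z : List ℕ, w ++ z ++ w ∈ Fac C → ∃ y : List ℕ, rho C (w ++ z ++ w ++ y) = rho C w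

/-- EXACTNESS.  PROOF. `0 = ([],[])`, `e = rho w`, `g = rho(w z w)`, `g rho(y) = e`, `h = rho(w y w)`: `g h = e`, and
`h g = e` (some power `g^r = e`: `g^m = g^(m+r)`, multiply by `h^m`; so `h = g^(r-1)`).  Existence: `(0,0) ∈ e = g rho(y)`.
Uniqueness: let `(0,p) ∈ e`, `(p,q) ∈ rho z`, `(q,q1) ∈ e` and the same with primes.  There is `j` with `(q,j) ∈ e`,
`(j,j) ∈ e`: `(q,q1) ∈ e^N`, a repeated state in the path; same for `q'`, `j'`.  `(0,j), (0,j') ∈ g`.  If `j = j'` then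
`p = p'`, `q = q'` by `StFB` (twice).  If `j ≠ j'`: `(j,j) ∈ e = h g`: `(j,k) ∈ h`, `(k,j) ∈ g`; `(0,k) ∈ g h = e`; `(0,j) ∈ e g`
via `0` and via `k`, so `k = 0` (`StFB`), `(j,0) ∈ h`; same for `j'`.  So `(j,j') ∈ h g = e` and `(j',j) ∈ e`, and `(j,j) ∈ e e`
via `j` and via `j'`: `j = j'` by `StFB`. -/
def StFE : Prop :=
  ∀ C : Finset (List ℕ), UD C → [] ∉ C → ∀ w ∈ Mon C, rho C (w ++ w) = rho C w →
    (∀ z : List ℕ, w ++ z ++ w ∈ Fac C → ∃ y : List ℕ, rho C (w ++ z ++ w ++ y) = rho C w) →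
    ∀ z : List ℕ, w ++ z ++ w ∈ Fac C →
      ∃! p : (List ℕ × List ℕ) × (List ℕ × List ℕ), (([], []), p.1) ∈ rho C w ∧ p ∈ rho C z ∧
        ∃ q1, (p.2, q1) ∈ rho C w

/-- THEOREM B.  PROOF. `C = ∅`: `w = w' = []`, `T = U = {[]}`.  `C ≠ ∅`: `w` from `StFD`,
`T = {p.2 : (0,p) ∈ rho w}`, `U = {q.1 : (q,q1) ∈ rho w for some q1}` (finite; both contain `[]`, and `w' = w`).  A path of the
second kind has `|z| < d`.  For `|z| ≥ d`: `p = (p0,t)`, `q = (u,s)` with `(p,q) ∈ rho z` iff `z = t ++ y ++ u`, `y ∈ Mon C`.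
`eq`: `StFE`, and conversely `w ++ z ++ w` is readable (`StFA`, `StFC`).  `un`: uniqueness in `StFE`, then cancel. -/
def StB : Prop :=
  ∀ C : Finset (List ℕ), UD C → ∀ d : ℕ, (∀ c ∈ C, c.length ≤ d) → Dfc C d

end Pool.Agent.Helper37.DE
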